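import Pool.Agent.Full.Eng.Norm

/-!
# The engine: discrete Cauchy-Riemann equations for the averaged observable

`F x a b = O T_u(π/6)^a W_x T_l(π/6)^b I`, `W_x = T_u(0)^{-x} W T_l(0)^x`; `x` is the horizontal and `b` the vertical
coordinate (`a + b` fixed).  The average over `x`, `x + 1` satisfies the discrete Cauchy-Riemann equation up to `m^(-6/5)`.
-/

set_option autoImplicit false

namespace Eng

open Complex Set Filter Topology Metric Ann Matrix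

/-! ### scalar part -/

/-- constant of `sm` -/
noncomputable def sc : ℝ := 144000000 * C2

lemma sc_pos : 0 < sc := by unfold sc; have := C2_ge; linarith

lemma W_zero : W 0 = 2 := by unfold W; norm_num

section scalar

variable {K m : ℕ} {d : ℂ → ℂ}

/-- smoothed distance to the sign at the points of the segment `[-iπ/6, iπ/6]` -/
lemma sm (h : SE K d) (hr : IsRealF d) (hm : 1 ≤ m) (hmK : m ≤ K) {s : ℂ} (hs0 : s.re = 0) (hs : |s.im| ≤ Real.pi / 6) :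
    ‖(sg d : ℂ) - d s‖ * ‖d 0‖ ^ m ≤ sc / m := by
  have hm0 : (0 : ℝ) < m := by exact_mod_cast hm
  have hC := C2_ge
  rw [le_div_iff₀ hm0]
  by_cases hX : Low K 0 d
  · have h1 := hX.smooth_near h hr hm hmK (s := s) (by have := Real.pi_pos; linarith) (by rw [hs0, abs_zero])
    rw [hs0, W_zero] at h1
    unfold sc; linarith
  · have h1 := high_pow h hr hm hmK hX
    rw [W_zero] at h1
    have h2 : ‖(sg d : ℂ) - d s‖ ≤ 3 := (norm_sub_le _ _).trans (by rw [norm_sg]; linarith [h.two s hs])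
    have h3 : 0 ≤ ‖d 0‖ ^ m * m := by positivity
    calc ‖(sg d : ℂ) - d s‖ * ‖d 0‖ ^ m * m = ‖(sg d : ℂ) - d s‖ * (‖d 0‖ ^ m * m) := by ring
      _ ≤ 3 * (24000000 * C2 * 2) := mul_le_mul h2 h1 h3 (by norm_num)
      _ = sc := by unfold sc; ring

lemma sg_mul_sg (d : ℂ → ℂ) : (sg d : ℂ) * sg d = 1 := by
  have := sg_sq d
  rw [sq] at this
  exact_mod_cast this

lemma SE.inv (h : SE K d) (hK : 1 ≤ K) : d sh * d (-sh) = 1 := by
  have h1 := h.yle 0 (by rw [zero_im, abs_zero]; have := Real.pi_pos; positivity)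
  rw [th_zero, norm_zero, zero_pow (by omega), mul_zero] at h1
  have h2 : yf d 0 = 0 := norm_le_zero_iff.1 h1
  unfold yf at h2
  rw [zero_add, zero_sub] at h2
  exact sub_eq_zero.1 h2

lemma norm_one_sub (h : SE K d) : ‖1 - d 0 * d sh‖ ≤ ‖(sg d : ℂ) - d 0‖ + 2 * ‖(sg d : ℂ) - d sh‖ := by
  have e : 1 - d 0 * d sh = sg d * (sg d - d 0) + sg d * d 0 * (sg d * (sg d - d sh)) := by
    have := sg_mul_sg d
    linear_combination (d 0 * d sh - 1 - d 0 * (sg d : ℂ)) * this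
  have h0 : ‖d 0‖ ≤ 2 := h.two 0 (by rw [zero_im, abs_zero]; have := Real.pi_pos; positivity)
  rw [e]
  refine (norm_add_le _ _).trans ?_
  rw [norm_mul, norm_mul, norm_mul, norm_mul, norm_sg, one_mul, one_mul, one_mul]
  gcongr

lemma norm_sq_sub (h : SE K d) {s : ℂ} (hs : |s.im| ≤ Real.pi / 6) : ‖d s ^ 2 - 1‖ ≤ 3 * ‖(sg d : ℂ) - d s‖ := by
  have e : d s ^ 2 - 1 = -((sg d - d s) * (sg d + d s)) := by
    have := sg_mul_sg d
    linear_combination this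
  rw [e, norm_neg, norm_mul, mul_comm]
  gcongr
  refine (norm_add_le _ _).trans ?_
  rw [norm_sg]; linarith [h.two s hs]

lemma cr1 (h : SE K d) (hr : IsRealF d) {n : ℕ} (hm : 1 ≤ m) (hn : 0 < n) (hmK : n * m ≤ K) :
    ‖d 0 ^ (n * m) * (1 - d 0 * d sh) * d sh‖ ≤ 6 * sc / (n * m) := by
  have hnm : 1 ≤ n * m := Nat.mul_pos hn hm
  have h0 : |(0 : ℂ).im| ≤ Real.pi / 6 := by rw [zero_im, abs_zero]; have := Real.pi_pos; positivity
  have h1 := sm h hr hnm hmK zero_re h0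
  have h2 := sm h hr hnm hmK sh_re sh_le
  have h3 := norm_one_sub h
  have h4 := h.two sh sh_le
  have h5 : 0 ≤ ‖d 0‖ ^ (n * m) := by positivity
  rw [norm_mul, norm_mul, norm_pow]
  calc ‖d 0‖ ^ (n * m) * ‖1 - d 0 * d sh‖ * ‖d sh‖
      ≤ ‖d 0‖ ^ (n * m) * (‖(sg d : ℂ) - d 0‖ + 2 * ‖(sg d : ℂ) - d sh‖) * 2 := by gcongr
    _ = 2 * (‖(sg d : ℂ) - d 0‖ * ‖d 0‖ ^ (n * m)) + 4 * (‖(sg d : ℂ) - d sh‖ * ‖d 0‖ ^ (n * m)) := by ring
    _ ≤ 2 * (sc / (n * m : ℕ)) + 4 * (sc / (n * m : ℕ)) := by gcongr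
    _ = 6 * sc / (n * m) := by push_cast; ring

lemma cr2 (h : SE K d) (hr : IsRealF d) {n : ℕ} (hm : 1 ≤ m) (hn : 0 < n) (hmK : n * m ≤ K) :
    ‖(d (-sh) ^ 2 - 1) * d 0 ^ (n * m)‖ ≤ 3 * sc / (n * m) := by
  have hnm : 1 ≤ n * m := Nat.mul_pos hn hm
  have h2 := sm h hr hnm hmK (s := -sh) (by rw [neg_re, sh_re, neg_zero]) neg_sh_le
  have h3 := norm_sq_sub h neg_sh_le
  rw [norm_mul, norm_pow]
  calc ‖d (-sh) ^ 2 - 1‖ * ‖d 0‖ ^ (n * m) ≤ 3 * ‖(sg d : ℂ) - d (-sh)‖ * ‖d 0‖ ^ (n * m) := by gcongr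
    _ = 3 * (‖(sg d : ℂ) - d (-sh)‖ * ‖d 0‖ ^ (n * m)) := by ring
    _ ≤ 3 * (sc / (n * m : ℕ)) := by gcongr
    _ = 3 * sc / (n * m) := by push_cast; ring

end scalar

/-! ### diagonal form -/

variable {J L : Type*} [Fintype J] [Fintype L]

variable {K m : ℕ} {C₀ : ℝ} {d : J → ℂ → ℂ} {e : L → ℂ → ℂ} {w : J → L → ℂ}

/-- the Cauchy-Riemann defect -/
noncomputable def Dm (d : J → ℂ → ℂ) (e : L → ℂ → ℂ) (w : J → L → ℂ) : J → L → ℂ :=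
  fun j l => w j l * e l 0 - d j 0 * w j l - I * (d j 0 * (d j sh * w j l * e l (-sh) - w j l))

/-- its smoothed average -/
noncomputable def Crm (d : J → ℂ → ℂ) (e : L → ℂ → ℂ) (w : J → L → ℂ) (m : ℕ) : J → L → ℂ :=
  fun j l => d j 0 ^ (20 * m) * (1 / 2 * (Dm d e w j l + d j sh * Dm d e w j l * e l (-sh))) * e l 0 ^ (20 * m)

/-- final constant -/
noncomputable def Ce (C₀ : ℝ) : ℝ := Cf C₀ + sc ^ 2 * C₀ * C2 * 2

lemma Ce_nonneg (hC : 1 ≤ C₀) : 0 ≤ Ce C₀ := by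
  unfold Ce
  have := Cf_nonneg hC
  have := sc_pos
  have := C2_ge
  positivity

lemma Crm_eq (D : Data K C₀ d e w) (hK : 1 ≤ K) (m : ℕ) (j : J) (l : L) : Crm d e w m j l = Fin' d e w m j l +
    ((I / 2) * (d j 0 ^ (20 * m) * (1 - d j 0 * d j sh) * d j sh)) * w j l * ((e l (-sh) ^ 2 - 1) * e l 0 ^ (20 * m)) -
    ((I / 2) * (d j 0 ^ (10 * m) * (1 - d j 0 * d j sh) * d j sh * ((d j (-sh) ^ 2 - 1) * d j 0 ^ (10 * m)))) * w j l *
      e l 0 ^ (20 * m) := by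
  have h1 := (D.hd j).inv hK
  have e20 : d j 0 ^ (20 * m) = d j 0 ^ (10 * m) * d j 0 ^ (10 * m) := by rw [← pow_add]; congr 1; ring
  unfold Crm Dm Fin' Am Xm
  rw [e20]
  generalize d j 0 ^ (10 * m) = P
  generalize e l 0 ^ (20 * m) = Q
  generalize d j sh = a at *
  generalize d j (-sh) = b at *
  generalize e l (-sh) = c
  generalize d j 0 = x
  generalize e l 0 = y
  generalize w j l = v
  have h2 : a * b ^ 2 = b := by linear_combination b * h1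
  linear_combination (-(I / 2) * P * P * v * Q * x * (1 + a * c) + (I / 2) * P ^ 2 * Q * v * (x * a - 1) * c) * h1 +
    (I / 2) * P ^ 2 * (1 - x * a) * v * Q * h2

theorem cr_diag (D : Data K C₀ d e w) (hm : 1 ≤ m) (hK : 20 * m ≤ K) : Bd (Crm d e w m) (Ce C₀ * (m : ℝ) ^ (-(6 / 5) : ℝ)) := by
  have hC := D.hC
  have hC2 := C2_ge
  have hsc := sc_pos
  have hm0 : (0 : ℝ) < m := by exact_mod_cast hm
  have hm1 : (1 : ℝ) ≤ m := by exact_mod_cast hm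
  have hK1 : 1 ≤ K := by omega
  have h1 := fin_bound D hm hK
  have hI : ‖(I / 2 : ℂ)‖ = 1 / 2 := by simp
  have a1 : ∀ j, ‖(I / 2) * (d j 0 ^ (20 * m) * (1 - d j 0 * d j sh) * d j sh)‖ ≤ sc / m := by
    intro j
    have := cr1 (D.hd j) (D.hdr j) hm (n := 20) (by norm_num) hK
    rw [norm_mul, hI]
    calc 1 / 2 * ‖d j 0 ^ (20 * m) * (1 - d j 0 * d j sh) * d j sh‖ ≤ 1 / 2 * (6 * sc / ((20 : ℕ) * m)) := by gcongr
      _ = 6 / 40 * (sc / m) := by push_cast; field_simp; ring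
      _ ≤ sc / m := by have : 0 < sc / m := by positivity
                       linarith
  have b1 : ∀ l, ‖(e l (-sh) ^ 2 - 1) * e l 0 ^ (20 * m)‖ ≤ sc / m := by
    intro l
    have := cr2 (D.he l) (D.her l) hm (n := 20) (by norm_num) hK
    refine this.trans ?_
    calc 3 * sc / ((20 : ℕ) * m) = 3 / 20 * (sc / m) := by push_cast; field_simp
      _ ≤ sc / m := by have : 0 < sc / m := by positivity
                       linarith
  have a2 : ∀ j, ‖(I / 2) * (d j 0 ^ (10 * m) * (1 - d j 0 * d j sh) * d j sh * ((d j (-sh) ^ 2 - 1) * d j 0 ^ (10 * m)))‖ ≤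
      (sc / m) ^ 2 := by
    intro j
    have k1 := cr1 (D.hd j) (D.hdr j) hm (n := 10) (by norm_num) (by omega)
    have k2 := cr2 (D.hd j) (D.hdr j) hm (n := 10) (by norm_num) (by omega)
    rw [norm_mul, hI, norm_mul]
    calc 1 / 2 * (‖d j 0 ^ (10 * m) * (1 - d j 0 * d j sh) * d j sh‖ * ‖(d j (-sh) ^ 2 - 1) * d j 0 ^ (10 * m)‖)
        ≤ 1 / 2 * ((6 * sc / ((10 : ℕ) * m)) * (3 * sc / ((10 : ℕ) * m))) := by gcongr
      _ = 9 / 100 * (sc / m) ^ 2 := by push_cast; field_simp; ring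
      _ ≤ (sc / m) ^ 2 := by have : 0 < (sc / m) ^ 2 := by positivity
                             linarith
  have b2 : ∀ l, ‖e l 0 ^ (20 * m)‖ ≤ C2 := by
    intro l
    rw [norm_pow]; exact pow_le_C2 (D.he l) (D.her l) hK
  have h2 := D.hw.mul (by linarith) a1 b1 (by positivity) (by positivity)
  have h3 := D.hw.mul (by linarith) a2 b2 (by positivity) (by linarith)
  refine (((h1.add h2).sub h3).congr fun j l => ?_).mono ?_
  · rw [Crm_eq D hK1 m j l]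
  · have h4 : (1 : ℝ) / m ^ 2 ≤ (m : ℝ) ^ (-(6 / 5) : ℝ) := by
      rw [one_div, ← Real.rpow_natCast, ← Real.rpow_neg hm0.le]
      apply Real.rpow_le_rpow_of_exponent_le hm1
      norm_num
    have h5 : sc / m * C₀ * (sc / m) + (sc / m) ^ 2 * C₀ * C2 ≤ sc ^ 2 * C₀ * C2 * 2 * (1 / m ^ 2) := by
      have e1 : sc / m * C₀ * (sc / m) + (sc / m) ^ 2 * C₀ * C2 = sc ^ 2 * C₀ * (1 + C2) * (1 / m ^ 2) := by
        field_simp
      rw [e1]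
      have h6 : 0 < 1 / (m : ℝ) ^ 2 := by positivity
      have h7 : sc ^ 2 * C₀ * (1 + C2) ≤ sc ^ 2 * C₀ * C2 * 2 := by
        have h8 : 0 < sc ^ 2 * C₀ := by positivity
        nlinarith
      exact mul_le_mul_of_nonneg_right h7 h6.le
    have h9 : sc ^ 2 * C₀ * C2 * 2 * (1 / m ^ 2) ≤ sc ^ 2 * C₀ * C2 * 2 * (m : ℝ) ^ (-(6 / 5) : ℝ) := by gcongr
    unfold Ce
    rw [add_mul]
    linarith

/-! ### operator form -/

section oper

open scoped Matrix.Norms.L2Operator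

variable [DecidableEq J] [DecidableEq L] {N : ℕ} {T : ℂ → Matrix J J ℂ}

lemma strip_zero : |(0 : ℂ).re - Real.pi / 6| < Real.pi / 2 := by
  have := Real.pi_pos
  rw [zero_re, zero_sub, abs_neg, abs_of_pos (by positivity)]; linarith

lemma strip_three : |(((Real.pi / 3 : ℝ) : ℂ)).re - Real.pi / 6| < Real.pi / 2 := by
  have := Real.pi_pos
  rw [ofReal_re, abs_of_pos (by linarith)]; linarith

lemma strip_six : |(((Real.pi / 6 : ℝ) : ℂ)).re - Real.pi / 6| < Real.pi / 2 := by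
  have := Real.pi_pos
  rw [ofReal_re, sub_self, abs_zero]; positivity

/-- `T(0)` is invertible with inverse `T(π/3)` -/
lemma Row.inv (R : Row N T) (hN : 1 ≤ N) : T 0 * T ((Real.pi / 3 : ℝ) : ℂ) = 1 := by
  ext i j
  have h1 := R.ord i j
  have h2 : analyticOrderAt (fun u => (T u * T (u + ((Real.pi / 3 : ℝ) : ℂ)) - 1) i j) 0 ≠ 0 := by
    intro h0
    rw [h0] at h1
    have h3 : N = 0 := by exact_mod_cast nonpos_iff_eq_zero.1 h1
    omega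
  have h3 := apply_eq_zero_of_analyticOrderAt_ne_zero h2
  simp only [zero_add, Matrix.sub_apply] at h3
  exact sub_eq_zero.1 h3

lemma Row.inv' (R : Row N T) (hN : 1 ≤ N) : T ((Real.pi / 3 : ℝ) : ℂ) * T 0 = 1 := by
  rw [R.comm _ _ strip_three strip_zero, R.inv hN]

lemma Row.adj0 (R : Row N T) : (T 0)ᴴ = T ((Real.pi / 3 : ℝ) : ℂ) := by
  have := R.adj 0 strip_zero
  rwa [map_zero, sub_zero] at this

/-- the shifts are isometries -/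
lemma Row.norm_zero_pow (R : Row N T) (hN : 1 ≤ N) (x : ℕ) : ‖T 0 ^ x‖ ≤ 1 := by
  refine (Bd.unitary ?_).norm_le zero_le_one
  rw [conjTranspose_pow, R.adj0]
  have hc : Commute (T ((Real.pi / 3 : ℝ) : ℂ)) (T 0) := R.comm _ _ strip_three strip_zero
  rw [← hc.mul_pow, R.inv' hN, one_pow]

lemma Row.norm_three_pow (R : Row N T) (hN : 1 ≤ N) (x : ℕ) : ‖T ((Real.pi / 3 : ℝ) : ℂ) ^ x‖ ≤ 1 := by
  rw [← R.adj0, ← conjTranspose_pow, Matrix.l2_opNorm_conjTranspose]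
  exact R.norm_zero_pow hN x

/-- powers of the isotropic row are bounded -/
lemma Row.norm_pow_le (R : Row N T) {r : ℕ} (hr : r ≤ N) : ‖T ((Real.pi / 6 : ℝ) : ℂ) ^ r‖ ≤ C2 := by
  obtain ⟨U, hU1, hU2, hUd, hUs, hUr⟩ := R.diag
  have hpi := Real.pi_pos
  have hz0 : |(0 : ℂ).im| < Real.pi / 2 := by rw [zero_im, abs_zero]; positivity
  have h0 := hUd 0 hz0
  rw [par_zero] at h0
  have h1 : ∀ r : ℕ, T ((Real.pi / 6 : ℝ) : ℂ) ^ r * U = U * diagonal (fun k => dg T U k 0 ^ r) := by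
    intro r
    induction r with
    | zero => simp
    | succ r ih =>
      rw [pow_succ', Matrix.mul_assoc, ih, ← Matrix.mul_assoc, h0, Matrix.mul_assoc, diagonal_mul_diagonal]
      simp only [pow_succ']
  have h2 : T ((Real.pi / 6 : ℝ) : ℂ) ^ r = U * diagonal (fun k => dg T U k 0 ^ r) * Uᴴ := by
    rw [← h1 r, Matrix.mul_assoc, hU2, Matrix.mul_one]
  have hC := C2_ge
  have n1 : ‖U‖ ≤ 1 := (Bd.unitary hU1).norm_le zero_le_one
  have n2 : ‖Uᴴ‖ ≤ 1 := by rw [Matrix.l2_opNorm_conjTranspose]; exact n1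
  have n3 : ‖(diagonal (fun k => dg T U k 0 ^ r) : Matrix J J ℂ)‖ ≤ C2 := by
    rw [Matrix.l2_opNorm_diagonal, pi_norm_le_iff_of_nonneg (by linarith)]
    intro k
    rw [norm_pow]
    exact pow_le_C2 (hUs k) (hUr k) hr
  rw [h2]
  calc ‖U * diagonal (fun k => dg T U k 0 ^ r) * Uᴴ‖ ≤ (‖U‖ * ‖(diagonal (fun k => dg T U k 0 ^ r) : Matrix J J ℂ)‖) * ‖Uᴴ‖ := by
        refine (Matrix.l2_opNorm_mul _ _).trans (mul_le_mul_of_nonneg_right ?_ (norm_nonneg _))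
        exact Matrix.l2_opNorm_mul _ _
    _ ≤ (1 * C2) * 1 := by
        have := norm_nonneg (diagonal (fun k => dg T U k 0 ^ r) : Matrix J J ℂ)
        gcongr
    _ = C2 := by ring

variable {Tu : ℂ → Matrix J J ℂ} {Tl : ℂ → Matrix L L ℂ} {W : Matrix J L ℂ}

/-- the insertion at the horizontal position `x` -/
noncomputable def Wx (Tu : ℂ → Matrix J J ℂ) (Tl : ℂ → Matrix L L ℂ) (W : Matrix J L ℂ) (x : ℕ) : Matrix J L ℂ :=
  Tu ((Real.pi / 3 : ℝ) : ℂ) ^ x * W * Tl 0 ^ x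

/-- the Cauchy-Riemann defect of the insertion -/
noncomputable def Dx (Tu : ℂ → Matrix J J ℂ) (Tl : ℂ → Matrix L L ℂ) (W : Matrix J L ℂ) (x : ℕ) : Matrix J L ℂ :=
  Wx Tu Tl W x * Tl ((Real.pi / 6 : ℝ) : ℂ) - Tu ((Real.pi / 6 : ℝ) : ℂ) * Wx Tu Tl W x -
    I • (Tu ((Real.pi / 6 : ℝ) : ℂ) * (Wx Tu Tl W (x + 1) - Wx Tu Tl W x))

lemma Wx_succ (x : ℕ) : Wx Tu Tl W (x + 1) = Tu ((Real.pi / 3 : ℝ) : ℂ) * Wx Tu Tl W x * Tl 0 := by
  unfold Wx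
  rw [pow_succ', pow_succ]
  simp only [Matrix.mul_assoc]

lemma Dx_succ (Ru : Row N Tu) (Rl : Row N Tl) (x : ℕ) :
    Dx Tu Tl W (x + 1) = Tu ((Real.pi / 3 : ℝ) : ℂ) * Dx Tu Tl W x * Tl 0 := by
  have hu : Tu ((Real.pi / 6 : ℝ) : ℂ) * Tu ((Real.pi / 3 : ℝ) : ℂ) = Tu ((Real.pi / 3 : ℝ) : ℂ) * Tu ((Real.pi / 6 : ℝ) : ℂ) :=
    Ru.comm _ _ strip_six strip_three
  have hl : Tl 0 * Tl ((Real.pi / 6 : ℝ) : ℂ) = Tl ((Real.pi / 6 : ℝ) : ℂ) * Tl 0 := Rl.comm _ _ strip_zero strip_six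
  have e1 : ∀ A : Matrix J L ℂ, Tu ((Real.pi / 6 : ℝ) : ℂ) * (Tu ((Real.pi / 3 : ℝ) : ℂ) * A * Tl 0) =
      Tu ((Real.pi / 3 : ℝ) : ℂ) * (Tu ((Real.pi / 6 : ℝ) : ℂ) * A) * Tl 0 := by
    intro A
    rw [← Matrix.mul_assoc, ← Matrix.mul_assoc, hu]
    simp only [Matrix.mul_assoc]
  have e2 : ∀ A : Matrix J L ℂ, Tu ((Real.pi / 3 : ℝ) : ℂ) * A * Tl 0 * Tl ((Real.pi / 6 : ℝ) : ℂ) =
      Tu ((Real.pi / 3 : ℝ) : ℂ) * (A * Tl ((Real.pi / 6 : ℝ) : ℂ)) * Tl 0 := by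
    intro A
    rw [Matrix.mul_assoc, hl]
    simp only [Matrix.mul_assoc]
  unfold Dx
  rw [Wx_succ (x + 1), Wx_succ x, e2, e1, Matrix.mul_sub (Tu ((Real.pi / 6 : ℝ) : ℂ)), Matrix.mul_sub (Tu ((Real.pi / 6 : ℝ) : ℂ)),
    e1, e1]
  simp only [Matrix.mul_sub, Matrix.sub_mul, Matrix.mul_smul, Matrix.smul_mul]

lemma Dx_eq (Ru : Row N Tu) (Rl : Row N Tl) (x : ℕ) :
    Dx Tu Tl W x = Tu ((Real.pi / 3 : ℝ) : ℂ) ^ x * Dx Tu Tl W 0 * Tl 0 ^ x := by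
  induction x with
  | zero => simp
  | succ x ih =>
    rw [Dx_succ Ru Rl, ih, pow_succ', pow_succ]
    simp only [Matrix.mul_assoc]

/-- **the averaged Cauchy-Riemann defect is small** -/
theorem cr_oper (Ru : Row N Tu) (Rl : Row N Tl) (hC : 1 ≤ C₀) (hW : Bd (fun i j => W i j) C₀)
    (hG : ∀ u : ℂ, |u.re - Real.pi / 6| = Real.pi / 6 → Bd (fun i j => Gd Tu Tl W u i j) (C₀ * min 1 (Real.exp (-u.im))))
    {m : ℕ} (hm : 1 ≤ m) (hN : 20 * m ≤ N) :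
    Bd (fun i j => (Tu ((Real.pi / 6 : ℝ) : ℂ) ^ (20 * m) * ((1 / 2 : ℂ) • (Dx Tu Tl W 0 + Dx Tu Tl W 1)) *
      Tl ((Real.pi / 6 : ℝ) : ℂ) ^ (20 * m)) i j) (Ce (2 * C₀) * (m : ℝ) ^ (-(6 / 5) : ℝ)) := by
  obtain ⟨U, V, hU1, hU2, hV1, hV2, hTu, hTl, D⟩ := oper_data Ru Rl hC hW hG
  have hpi := Real.pi_pos
  have key := cr_diag D hm hN
  have hz0 : |(0 : ℂ).im| < Real.pi / 2 := by rw [zero_im, abs_zero]; positivity
  have hz1 : |sh.im| < Real.pi / 2 := by rw [sh_im, abs_of_pos (by positivity)]; linarith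
  have hz2 : |(-sh).im| < Real.pi / 2 := by rw [neg_im, abs_neg]; exact hz1
  have u0 := hTu 0 hz0
  have u1 := hTu sh hz1
  have l0 := hTl 0 hz0
  have l2 := hTl (-sh) hz2
  rw [par_zero] at u0 l0
  rw [par_sh] at u1
  rw [par_neg_sh] at l2
  have hCe : 0 ≤ Ce (2 * C₀) * (m : ℝ) ^ (-(6 / 5) : ℝ) := mul_nonneg (Ce_nonneg (by linarith)) (by positivity)
  refine Bd.unconj hU1 hU2 hV2 hCe (key.congr fun j l => ?_)
  have hX : Uᴴ * Dx Tu Tl W 0 * V = Matrix.of (Dm (dg Tu U) (dg Tl V) (fun j l => (Uᴴ * W * V) j l)) := by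
    have e0 : Wx Tu Tl W 0 = W := by unfold Wx; simp
    unfold Dx
    rw [Wx_succ, e0]
    simp only [Matrix.mul_sub, Matrix.sub_mul, Matrix.mul_smul, Matrix.smul_mul, smul_sub]
    rw [conj_right l0, conj_left u0, conj_left u0, conj_right l2, conj_left u1]
    ext j l
    simp only [Matrix.sub_apply, Matrix.smul_apply, mul_diagonal, diagonal_mul, of_apply, smul_eq_mul, Dm]
    ring
  rw [conj_right_pow l0, conj_left_pow u0, Dx_succ Ru Rl 0, Matrix.mul_smul, Matrix.smul_mul, Matrix.mul_add, Matrix.add_mul,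
    conj_right l2, conj_left u1, hX]
  simp only [Matrix.add_apply, Matrix.smul_apply, mul_diagonal, diagonal_mul, of_apply, smul_eq_mul, Crm]

variable {P Q : Type*} [Fintype P] [Fintype Q] [DecidableEq P] [DecidableEq Q]

/-- the observable; `x` = horizontal position, `a` rows above, `b` rows below -/
noncomputable def Fo (Tu : ℂ → Matrix J J ℂ) (Tl : ℂ → Matrix L L ℂ) (W : Matrix J L ℂ) (O : Matrix P J ℂ) (Iv : Matrix L Q ℂ)
    (x a b : ℕ) : Matrix P Q ℂ :=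
  O * Tu ((Real.pi / 6 : ℝ) : ℂ) ^ a * Wx Tu Tl W x * Tl ((Real.pi / 6 : ℝ) : ℂ) ^ b * Iv

/-- its average over two neighbouring positions -/
noncomputable def Fbar (Tu : ℂ → Matrix J J ℂ) (Tl : ℂ → Matrix L L ℂ) (W : Matrix J L ℂ) (O : Matrix P J ℂ) (Iv : Matrix L Q ℂ)
    (x a b : ℕ) : Matrix P Q ℂ :=
  (1 / 2 : ℂ) • (Fo Tu Tl W O Iv x a b + Fo Tu Tl W O Iv (x + 1) a b)

lemma Fo_cr (O : Matrix P J ℂ) (Iv : Matrix L Q ℂ) (x a b : ℕ) :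
    Fo Tu Tl W O Iv x a (b + 1) - Fo Tu Tl W O Iv x (a + 1) b - I • (Fo Tu Tl W O Iv (x + 1) (a + 1) b - Fo Tu Tl W O Iv x (a + 1) b) =
      O * Tu ((Real.pi / 6 : ℝ) : ℂ) ^ a * Dx Tu Tl W x * Tl ((Real.pi / 6 : ℝ) : ℂ) ^ b * Iv := by
  unfold Fo Dx
  rw [pow_succ (Tu ((Real.pi / 6 : ℝ) : ℂ)) a, pow_succ' (Tl ((Real.pi / 6 : ℝ) : ℂ)) b]
  simp only [Matrix.mul_sub, Matrix.sub_mul, Matrix.mul_smul, Matrix.smul_mul, smul_sub, Matrix.mul_assoc]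

/-- **THE DISCRETE CAUCHY-RIEMANN EQUATION** for the averaged observable. -/
theorem cr (Ru : Row N Tu) (Rl : Row N Tl) (hC : 1 ≤ C₀) (hW : ‖W‖ ≤ C₀)
    (hG : ∀ u : ℂ, |u.re - Real.pi / 6| = Real.pi / 6 → ‖W * Tl u - Tu u * W‖ ≤ C₀ * min 1 (Real.exp (-u.im)))
    {m : ℕ} (hm : 1 ≤ m) (hN : 20 * m ≤ N) (O : Matrix P J ℂ) (Iv : Matrix L Q ℂ) (x p q a b : ℕ)
    (ha : a = p + 20 * m) (hb : b = 20 * m + q) :
    ‖Fbar Tu Tl W O Iv x a (b + 1) - Fbar Tu Tl W O Iv x (a + 1) b -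
      I • (Fbar Tu Tl W O Iv (x + 1) (a + 1) b - Fbar Tu Tl W O Iv x (a + 1) b)‖ ≤
      ‖O * Tu ((Real.pi / 6 : ℝ) : ℂ) ^ p‖ * (Ce (2 * C₀) * (m : ℝ) ^ (-(6 / 5) : ℝ)) * ‖Tl ((Real.pi / 6 : ℝ) : ℂ) ^ q * Iv‖ := by
  have hN1 : 1 ≤ N := by omega
  set S := Tu ((Real.pi / 6 : ℝ) : ℂ) with hS
  set R := Tl ((Real.pi / 6 : ℝ) : ℂ) with hR
  have e1 : Fbar Tu Tl W O Iv x a (b + 1) - Fbar Tu Tl W O Iv x (a + 1) b -
      I • (Fbar Tu Tl W O Iv (x + 1) (a + 1) b - Fbar Tu Tl W O Iv x (a + 1) b) =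
      O * S ^ a * ((1 / 2 : ℂ) • (Dx Tu Tl W x + Dx Tu Tl W (x + 1))) * R ^ b * Iv := by
    have h1 := Fo_cr (Tu := Tu) (Tl := Tl) (W := W) O Iv x a b
    have h2 := Fo_cr (Tu := Tu) (Tl := Tl) (W := W) O Iv (x + 1) a b
    rw [Matrix.mul_smul, Matrix.smul_mul, Matrix.smul_mul, Matrix.mul_add, Matrix.add_mul, Matrix.add_mul, ← h1, ← h2]
    unfold Fbar
    module
  have hcu : Commute S (Tu ((Real.pi / 3 : ℝ) : ℂ)) := Ru.comm _ _ strip_six strip_three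
  have hcl : Commute R (Tl 0) := Rl.comm _ _ strip_six strip_zero
  have e2 : O * S ^ a * ((1 / 2 : ℂ) • (Dx Tu Tl W x + Dx Tu Tl W (x + 1))) * R ^ b * Iv =
      (O * S ^ p) * (Tu ((Real.pi / 3 : ℝ) : ℂ) ^ x * (S ^ (20 * m) * ((1 / 2 : ℂ) • (Dx Tu Tl W 0 + Dx Tu Tl W 1)) *
        R ^ (20 * m)) * Tl 0 ^ x) * (R ^ q * Iv) := by
    have k1 : Dx Tu Tl W x + Dx Tu Tl W (x + 1) = Tu ((Real.pi / 3 : ℝ) : ℂ) ^ x * (Dx Tu Tl W 0 + Dx Tu Tl W 1) * Tl 0 ^ x := by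
      rw [Dx_eq Ru Rl x, Dx_eq Ru Rl (x + 1), Dx_eq Ru Rl 1, Matrix.mul_add, Matrix.add_mul, pow_succ, pow_succ' (Tl 0) x, pow_one, pow_one]
      simp only [Matrix.mul_assoc]
    have k2 : S ^ (20 * m) * Tu ((Real.pi / 3 : ℝ) : ℂ) ^ x = Tu ((Real.pi / 3 : ℝ) : ℂ) ^ x * S ^ (20 * m) := (hcu.pow_pow _ _).eq
    have k3 : Tl 0 ^ x * R ^ (20 * m) = R ^ (20 * m) * Tl 0 ^ x := (hcl.symm.pow_pow _ _).eq
    rw [k1, ha, hb, pow_add, pow_add]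
    have k4 : (1 / 2 : ℂ) • (Tu ((Real.pi / 3 : ℝ) : ℂ) ^ x * (Dx Tu Tl W 0 + Dx Tu Tl W 1) * Tl 0 ^ x) =
        Tu ((Real.pi / 3 : ℝ) : ℂ) ^ x * ((1 / 2 : ℂ) • (Dx Tu Tl W 0 + Dx Tu Tl W 1)) * Tl 0 ^ x := by
      rw [Matrix.mul_smul, Matrix.smul_mul]
    rw [k4]
    generalize (1 / 2 : ℂ) • (Dx Tu Tl W 0 + Dx Tu Tl W 1) = A
    calc O * (S ^ p * S ^ (20 * m)) * (Tu ((Real.pi / 3 : ℝ) : ℂ) ^ x * A * Tl 0 ^ x) * (R ^ (20 * m) * R ^ q) * Iv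
        = O * S ^ p * ((S ^ (20 * m) * Tu ((Real.pi / 3 : ℝ) : ℂ) ^ x) * A * (Tl 0 ^ x * R ^ (20 * m))) * (R ^ q * Iv) := by
          simp only [Matrix.mul_assoc]
      _ = _ := by rw [k2, k3]; simp only [Matrix.mul_assoc]
  have hCe : 0 ≤ Ce (2 * C₀) * (m : ℝ) ^ (-(6 / 5) : ℝ) := mul_nonneg (Ce_nonneg (by linarith)) (by positivity)
  have key := (cr_oper Ru Rl hC (Bd.of_norm hW) (fun u hu => Bd.of_norm (hG u hu)) hm hN).norm_le hCe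
  have n1 := Ru.norm_three_pow hN1 x
  have n2 := Rl.norm_zero_pow hN1 x
  rw [e1, e2]
  set A := S ^ (20 * m) * ((1 / 2 : ℂ) • (Dx Tu Tl W 0 + Dx Tu Tl W 1)) * R ^ (20 * m) with hA
  calc ‖O * S ^ p * (Tu ((Real.pi / 3 : ℝ) : ℂ) ^ x * A * Tl 0 ^ x) * (R ^ q * Iv)‖
      ≤ ‖O * S ^ p‖ * ((‖Tu ((Real.pi / 3 : ℝ) : ℂ) ^ x‖ * ‖A‖) * ‖Tl 0 ^ x‖) * ‖R ^ q * Iv‖ := by
        refine (Matrix.l2_opNorm_mul _ _).trans (mul_le_mul_of_nonneg_right ?_ (norm_nonneg _))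
        refine (Matrix.l2_opNorm_mul _ _).trans (mul_le_mul_of_nonneg_left ?_ (norm_nonneg _))
        refine (Matrix.l2_opNorm_mul _ _).trans (mul_le_mul_of_nonneg_right ?_ (norm_nonneg _))
        exact Matrix.l2_opNorm_mul _ _
    _ ≤ ‖O * S ^ p‖ * ((1 * (Ce (2 * C₀) * (m : ℝ) ^ (-(6 / 5) : ℝ))) * 1) * ‖R ^ q * Iv‖ := by
        have := norm_nonneg A
        gcongr
    _ = _ := by ring

end oper

end Eng
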