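import Pool.Agent.Helper2.Ann.Limit

/-!
# Two contour estimates

`h` is analytic for `|Im s| < π/2`.  Its values at points `iτ`, `-π/6 ≤ τ ≤ 0`, are estimated by the values on the
vertical sides of the rectangle `-X₁ ≤ Re s ≤ X₂`, `-π/4 ≤ Im s ≤ π/12` and by the failure of
(anti)periodicity `h (s + iπ/3) = ∓ h s` on the horizontal sides.
-/

set_option autoImplicit false

namespace Eng

open Complex Set Filter Topology Metric Ann MeasureTheory intervalIntegral

/-- the point `x + i y` -/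
noncomputable def pt (x y : ℝ) : ℂ := (x : ℂ) + (y : ℂ) * I

@[simp] lemma pt_re (x y : ℝ) : (pt x y).re = x := by simp [pt]
@[simp] lemma pt_im (x y : ℝ) : (pt x y).im = y := by simp [pt]

lemma pt_sub (x y τ : ℝ) : pt x y - pt 0 τ = pt x (y - τ) := by
  apply Complex.ext <;> simp

/-- lower bound of `|sinh u|` -/
lemma sinh_lower {x y : ℝ} (hy : (1 : ℝ) / 2 ≤ Real.sin (3 * y) ^ 2) :
    Real.exp (3 * |x|) ≤ 3 * ‖Complex.sinh (3 * pt x y)‖ := by
  have h1 := normSq_sinh (3 * pt x y)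
  have e1 : (3 * pt x y).re = 3 * x := by simp
  have e2 : (3 * pt x y).im = 3 * y := by simp
  rw [e1, e2] at h1
  have h2 : Real.sinh (3 * x) ^ 2 = Real.cosh (3 * x) ^ 2 - 1 := by rw [Real.cosh_sq]; ring
  have h3 : 1 ≤ Real.cosh (3 * x) := Real.one_le_cosh _
  have h4 : Real.exp (3 * |x|) ≤ 2 * Real.cosh (3 * x) := by
    have h5 : Real.cosh (3 * x) = Real.cosh (3 * |x|) := by
      rcases abs_cases x with h | h
      · rw [h.1]
      · rw [h.1, mul_neg, Real.cosh_neg]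
    rw [h5, Real.cosh_eq]
    have := Real.exp_pos (-(3 * |x|))
    linarith
  apply le_of_sq_le_sq _ (by positivity)
  have h6 : Real.exp (3 * |x|) ^ 2 ≤ (2 * Real.cosh (3 * x)) ^ 2 := pow_le_pow_left₀ (Real.exp_pos _).le h4 2
  nlinarith

lemma sin_sq_half {t : ℝ} (h1 : Real.pi / 4 ≤ t) (h2 : t ≤ 3 * Real.pi / 4) : (1 : ℝ) / 2 ≤ Real.sin t ^ 2 := by
  have hp := Real.pi_pos
  have h3 : Real.cos (2 * t) ≤ 0 := by
    apply Real.cos_nonpos_of_pi_div_two_le_of_le <;> linarith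
  have h4 := Real.cos_two_mul t
  have h5 := Real.sin_sq_add_cos_sq t
  nlinarith

lemma sin_sq_bottom {τ : ℝ} (h0 : -(Real.pi / 6) ≤ τ) (h1 : τ ≤ 0) :
    (1 : ℝ) / 2 ≤ Real.sin (3 * (-(Real.pi / 4) - τ)) ^ 2 := by
  have e : Real.sin (3 * (-(Real.pi / 4) - τ)) = -Real.sin (3 * (Real.pi / 4 + τ)) := by
    rw [← Real.sin_neg]; congr 1; ring
  rw [e, neg_sq]
  exact sin_sq_half (by linarith) (by linarith)

lemma norm_exp_pt (c x y : ℝ) : ‖Complex.exp ((c : ℂ) * pt x y)‖ = Real.exp (c * x) := by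
  rw [Complex.norm_exp]; congr 1; simp

/-- the open strip -/
lemma isOpen_half : IsOpen {z : ℂ | |z.im| < Real.pi / 2} := isOpen_lt (by fun_prop) (by fun_prop)

section rect

variable {h : ℂ → ℂ} {τ X₁ X₂ : ℝ}

/-- the rectangle identity for a quotient `N / sinh 3(s - iτ)` -/
lemma rect_quot {N : ℂ → ℂ} (hN : ∀ s : ℂ, |s.im| < Real.pi / 2 → DifferentiableAt ℂ N s)
    (h0 : -(Real.pi / 6) ≤ τ) (h1 : τ ≤ 0) (hX₁ : 0 < X₁) (hX₂ : 0 < X₂) (hNτ : N (pt 0 τ) = 0) :
    (∫ x in (-X₁)..X₂, N (pt x (-(Real.pi / 4))) / Complex.sinh (3 * (pt x (-(Real.pi / 4)) - pt 0 τ))) -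
    (∫ x in (-X₁)..X₂, N (pt x (Real.pi / 12)) / Complex.sinh (3 * (pt x (Real.pi / 12) - pt 0 τ))) +
    I * (∫ y in (-(Real.pi / 4))..(Real.pi / 12), N (pt X₂ y) / Complex.sinh (3 * (pt X₂ y - pt 0 τ))) -
    I * (∫ y in (-(Real.pi / 4))..(Real.pi / 12), N (pt (-X₁) y) / Complex.sinh (3 * (pt (-X₁) y - pt 0 τ))) = 0 := by
  have hp := Real.pi_pos
  set U : Set ℂ := {z : ℂ | |z.im| < Real.pi / 2} with hU
  have hs0 : pt 0 τ ∈ U := by
    rw [hU, mem_ofPred_eq, pt_im, abs_lt]; constructor <;> linarith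
  have hNU : DifferentiableOn ℂ N U := fun z hz => (hN z hz).differentiableWithinAt
  have hds : DifferentiableOn ℂ (dslope N (pt 0 τ)) U :=
    (Complex.differentiableOn_dslope (isOpen_half.mem_nhds hs0)).2 hNU
  set f : ℂ → ℂ := fun z => dslope N (pt 0 τ) z / sd (z - pt 0 τ) with hf
  have hfq : ∀ z : ℂ, z ≠ pt 0 τ → f z = N z / Complex.sinh (3 * (z - pt 0 τ)) := by
    intro z hz
    have hz' : z - pt 0 τ ≠ 0 := sub_ne_zero.2 hz
    have e1 := sd_mul (z - pt 0 τ)
    have e2 : (z - pt 0 τ) * dslope N (pt 0 τ) z = N z := by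
      have := sub_smul_dslope N (pt 0 τ) z
      rw [smul_eq_mul, hNτ, sub_zero] at this
      exact this
    rw [hf]
    simp only
    rw [← e1, ← e2, mul_div_mul_left _ _ hz']
  have hfd : DifferentiableOn ℂ f ((uIcc (pt (-X₁) (-(Real.pi / 4))).re (pt X₂ (Real.pi / 12)).re) ×ℂ
      (uIcc (pt (-X₁) (-(Real.pi / 4))).im (pt X₂ (Real.pi / 12)).im)) := by
    intro z hz
    rw [mem_reProdIm] at hz
    have hz2 := hz.2
    rw [pt_im, pt_im, uIcc_of_le (by linarith), mem_Icc] at hz2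
    have hzU : z ∈ U := by rw [hU, mem_ofPred_eq, abs_lt]; constructor <;> linarith
    have h3 : DifferentiableAt ℂ (dslope N (pt 0 τ)) z := hds.differentiableAt (isOpen_half.mem_nhds hzU)
    have h4 : DifferentiableAt ℂ (fun z => sd (z - pt 0 τ)) z := (sd_diff _).comp z (by fun_prop)
    have h5 : sd (z - pt 0 τ) ≠ 0 := by
      apply sd_ne
      rw [sub_im, pt_im, abs_lt]
      constructor <;> linarith
    exact (h3.div h4 h5).differentiableWithinAt
  have key := Complex.integral_boundary_rect_eq_zero_of_differentiableOn f (pt (-X₁) (-(Real.pi / 4)))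
    (pt X₂ (Real.pi / 12)) hfd
  rw [pt_re, pt_im, pt_re, pt_im, smul_eq_mul, smul_eq_mul] at key
  have c1 : (∫ x in (-X₁)..X₂, f ((x : ℂ) + ((-(Real.pi / 4) : ℝ) : ℂ) * I)) =
      ∫ x in (-X₁)..X₂, N (pt x (-(Real.pi / 4))) / Complex.sinh (3 * (pt x (-(Real.pi / 4)) - pt 0 τ)) := by
    apply integral_congr
    intro x _
    refine hfq _ ?_
    intro h2
    have := congrArg Complex.im h2
    simp at this
    linarith
  have c2 : (∫ x in (-X₁)..X₂, f ((x : ℂ) + ((Real.pi / 12 : ℝ) : ℂ) * I)) =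
      ∫ x in (-X₁)..X₂, N (pt x (Real.pi / 12)) / Complex.sinh (3 * (pt x (Real.pi / 12) - pt 0 τ)) := by
    apply integral_congr
    intro x _
    refine hfq _ ?_
    intro h2
    have := congrArg Complex.im h2
    simp at this
    linarith
  have c3 : (∫ y in (-(Real.pi / 4))..(Real.pi / 12), f ((X₂ : ℂ) + (y : ℂ) * I)) =
      ∫ y in (-(Real.pi / 4))..(Real.pi / 12), N (pt X₂ y) / Complex.sinh (3 * (pt X₂ y - pt 0 τ)) := by
    apply integral_congr
    intro y _
    refine hfq _ ?_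
    intro h2
    have := congrArg Complex.re h2
    simp at this
    linarith
  have c4 : (∫ y in (-(Real.pi / 4))..(Real.pi / 12), f (((-X₁ : ℝ) : ℂ) + (y : ℂ) * I)) =
      ∫ y in (-(Real.pi / 4))..(Real.pi / 12), N (pt (-X₁) y) / Complex.sinh (3 * (pt (-X₁) y - pt 0 τ)) := by
    apply integral_congr
    intro y _
    refine hfq _ ?_
    intro h2
    have := congrArg Complex.re h2
    simp at this
    linarith
  rw [c1, c2, c3, c4] at key
  exact key

lemma cont_line_x (hN : ∀ s : ℂ, |s.im| < Real.pi / 2 → DifferentiableAt ℂ h s) {y : ℝ} (hy : |y| < Real.pi / 2) :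
    Continuous fun x : ℝ => h (pt x y) := by
  rw [continuous_iff_continuousAt]
  intro x
  have h1 : ContinuousAt h (pt x y) := (hN _ (by rw [pt_im]; exact hy)).continuousAt
  exact ContinuousAt.comp (g := h) (f := fun x : ℝ => pt x y) h1 (by unfold pt; fun_prop)

lemma cont_line_y (hN : ∀ s : ℂ, |s.im| < Real.pi / 2 → DifferentiableAt ℂ h s) (x : ℝ) :
    ContinuousOn (fun y : ℝ => h (pt x y)) (Icc (-(Real.pi / 4)) (Real.pi / 12)) := by
  intro y hy
  have hp := Real.pi_pos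
  have h1 : ContinuousAt h (pt x y) := (hN _ (by rw [pt_im, abs_lt]; constructor <;> linarith [hy.1, hy.2])).continuousAt
  exact (ContinuousAt.comp (g := h) (f := fun y : ℝ => pt x y) h1 (by unfold pt; fun_prop)).continuousWithinAt

lemma integral_exp_mul {a b c : ℝ} (hc : c ≠ 0) : ∫ x in a..b, Real.exp (c * x) = (Real.exp (c * b) - Real.exp (c * a)) / c := by
  have h1 : ∀ x ∈ uIcc a b, HasDerivAt (fun x => Real.exp (c * x) / c) (Real.exp (c * x)) x := by
    intro x _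
    have h2 : HasDerivAt (fun x => c * x) c x := by simpa using (hasDerivAt_id x).const_mul c
    have h3 := h2.exp.div_const c
    rwa [mul_div_assoc, div_self hc, mul_one] at h3
  rw [integral_eq_sub_of_hasDerivAt h1 (by apply Continuous.intervalIntegrable; fun_prop)]
  ring

lemma exp_le_four_sinh {t : ℝ} (ht : 1 ≤ t) : Real.exp t ≤ 4 * Real.sinh t := by
  rw [Real.sinh_eq]
  have h1 : Real.exp (-t) * 2 ≤ Real.exp t := by
    have h2 : (2 : ℝ) ≤ Real.exp (2 * t) := by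
      have := Real.add_one_le_exp (2 * t)
      linarith
    have h3 : Real.exp t = Real.exp (-t) * Real.exp (2 * t) := by rw [← Real.exp_add]; congr 1; ring
    rw [h3]
    gcongr
  linarith

lemma den_ne {τ : ℝ} (h0 : -(Real.pi / 6) ≤ τ) (h1 : τ ≤ 0) (x : ℝ) :
    Complex.sinh (3 * (pt x (-(Real.pi / 4)) - pt 0 τ)) ≠ 0 := by
  intro h2
  have h3 := sinh_lower (x := x) (sin_sq_bottom h0 h1)
  rw [pt_sub] at h2
  rw [h2, norm_zero, mul_zero] at h3
  exact absurd h3 (not_le.2 (Real.exp_pos _))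

lemma three_shift (x τ : ℝ) : 3 * (pt x (Real.pi / 12) - pt 0 τ) = 3 * (pt x (-(Real.pi / 4)) - pt 0 τ) + Real.pi * I := by
  apply Complex.ext
  · simp
  · simp; ring

lemma sinh_top (x τ : ℝ) : Complex.sinh (3 * (pt x (Real.pi / 12) - pt 0 τ)) =
    -Complex.sinh (3 * (pt x (-(Real.pi / 4)) - pt 0 τ)) := by
  rw [three_shift, Complex.sinh_add, Complex.cosh_mul_I, Complex.sinh_mul_I, Complex.cos_pi, Complex.sin_pi]
  ring

lemma exp_top (x τ : ℝ) : Complex.exp (3 * (pt x (Real.pi / 12) - pt 0 τ)) =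
    -Complex.exp (3 * (pt x (-(Real.pi / 4)) - pt 0 τ)) := by
  rw [three_shift, Complex.exp_add, Complex.exp_pi_mul_I]
  ring

/-- weight on the horizontal line -/
lemma weight_x {τ : ℝ} (h0 : -(Real.pi / 6) ≤ τ) (h1 : τ ≤ 0) (x : ℝ) {a : ℂ} {A : ℝ} (ha : ‖a‖ ≤ A) :
    ‖a / Complex.sinh (3 * (pt x (-(Real.pi / 4)) - pt 0 τ))‖ ≤ 3 * Real.exp (-(3 * |x|)) * A := by
  have h3 := sinh_lower (x := x) (sin_sq_bottom h0 h1)
  rw [← pt_sub] at h3
  have h4 : 0 < ‖Complex.sinh (3 * (pt x (-(Real.pi / 4)) - pt 0 τ))‖ := norm_pos_iff.2 (den_ne h0 h1 x)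
  rw [norm_div, div_le_iff₀ h4, Real.exp_neg]
  have h5 := Real.exp_pos (3 * |x|)
  have hA : 0 ≤ A := (norm_nonneg _).trans ha
  calc ‖a‖ ≤ A := ha
    _ = (Real.exp (3 * |x|))⁻¹ * A * Real.exp (3 * |x|) := by field_simp
    _ ≤ (Real.exp (3 * |x|))⁻¹ * A * (3 * ‖Complex.sinh (3 * (pt x (-(Real.pi / 4)) - pt 0 τ))‖) := by gcongr
    _ = _ := by ring

/-- expansion of the kernel to the right -/
lemma kernel_right {u : ℂ} {X : ℝ} (hu : u.re = 3 * X) (hX : 1 ≤ X) :
    ‖1 / Complex.sinh u - 2 * Complex.exp (-u)‖ ≤ 4 * Real.exp (-(9 * X)) ∧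
    ‖Complex.exp u / Complex.sinh u - 2‖ ≤ 4 * Real.exp (-(6 * X)) := by
  set q := Complex.exp (-(2 * u)) with hq
  have hqn : ‖q‖ = Real.exp (-(6 * X)) := by
    rw [hq, Complex.norm_exp]; congr 1; simp [hu]; ring
  have hq2 : ‖q‖ ≤ 1 / 2 := by
    rw [hqn, Real.exp_neg, inv_le_comm₀ (Real.exp_pos _) (by norm_num)]
    have := Real.add_one_le_exp (6 * X)
    linarith
  have h1q : 1 / 2 ≤ ‖1 - q‖ := by
    have := norm_sub_norm_le (1 : ℂ) q
    rw [norm_one] at this
    linarith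
  have h1q0 : 1 - q ≠ 0 := by
    intro h; rw [h, norm_zero] at h1q; linarith
  have e1 : Complex.sinh u = Complex.exp u * (1 - q) / 2 := by
    rw [Complex.sinh, hq]
    have : Complex.exp u * Complex.exp (-(2 * u)) = Complex.exp (-u) := by rw [← Complex.exp_add]; congr 1; ring
    linear_combination (1 / 2 : ℂ) * this
  have hexp : Complex.exp u ≠ 0 := Complex.exp_ne_zero u
  have e2 : Complex.exp u * Complex.exp (-u) = 1 := by rw [← Complex.exp_add, add_neg_cancel, Complex.exp_zero]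
  have e3 : Complex.exp (-u) = (Complex.exp u)⁻¹ := by rw [Complex.exp_neg]
  have hen : ‖Complex.exp (-u)‖ = Real.exp (-(3 * X)) := by rw [Complex.norm_exp]; congr 1; simp [hu]
  constructor
  · have e4 : 1 / Complex.sinh u - 2 * Complex.exp (-u) = 2 * Complex.exp (-u) * q / (1 - q) := by
      rw [e1, e3]; field_simp; ring
    rw [e4, norm_div, norm_mul, norm_mul, hen, hqn, Complex.norm_ofNat, div_le_iff₀ (by linarith)]
    have : Real.exp (-(9 * X)) = Real.exp (-(3 * X)) * Real.exp (-(6 * X)) := by rw [← Real.exp_add]; congr 1; ring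
    rw [this]
    have h5 : 0 < Real.exp (-(3 * X)) * Real.exp (-(6 * X)) := by positivity
    nlinarith
  · have e4 : Complex.exp u / Complex.sinh u - 2 = 2 * q / (1 - q) := by
      rw [e1]; field_simp; ring
    rw [e4, norm_div, norm_mul, hqn, Complex.norm_ofNat, div_le_iff₀ (by linarith)]
    have h5 := Real.exp_pos (-(6 * X))
    nlinarith

/-- the antiperiodic case -/
lemma anti_est (hh : ∀ s : ℂ, |s.im| < Real.pi / 2 → DifferentiableAt ℂ h s)
    (h0 : -(Real.pi / 6) ≤ τ) (h1 : τ ≤ 0) (hX₁ : 1 ≤ X₁) (hX₂ : 1 ≤ X₂) {a₀ a₁ a₂ e₁ e₂ : ℝ}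
    (ha0 : ‖h (pt 0 τ)‖ ≤ a₀)
    (ha1 : ∀ y ∈ Icc (-(Real.pi / 4)) (Real.pi / 12), ‖h (pt (-X₁) y)‖ ≤ a₁)
    (ha2 : ∀ y ∈ Icc (-(Real.pi / 4)) (Real.pi / 12), ‖h (pt X₂ y)‖ ≤ a₂)
    (he1 : ∀ x ∈ Icc (-X₁) 0, ‖h (pt x (-(Real.pi / 4))) + h (pt x (Real.pi / 12))‖ ≤
      e₁ * Real.exp (-(3 * x) + 1 / 5 * x))
    (he2 : ∀ x ∈ Icc 0 X₂, ‖h (pt x (-(Real.pi / 4))) + h (pt x (Real.pi / 12))‖ ≤ e₂ * Real.exp (6 * x)) :
    ‖(2 * (Real.pi / 3) : ℝ) * h (pt 0 τ) - Complex.exp (3 * pt 0 τ) *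
      ∫ y in (-(Real.pi / 4))..(Real.pi / 12), 2 * Complex.exp (-(3 * pt X₂ y)) * h (pt X₂ y)‖ ≤
    15 * e₁ + e₂ * Real.exp (3 * X₂) + 5 * (Real.exp (-(3 * X₁)) * a₁ + Real.exp (-(6 * X₁)) * a₀ +
      Real.exp (-(9 * X₂)) * a₂ + Real.exp (-(6 * X₂)) * a₀) := by
  have hp := Real.pi_pos
  have hp4 := Real.pi_le_four
  set s0 := pt 0 τ with hs0
  set N : ℂ → ℂ := fun z => h z - h s0 * Complex.exp (3 * (z - s0)) with hN
  have hNd : ∀ s : ℂ, |s.im| < Real.pi / 2 → DifferentiableAt ℂ N s := fun s hs =>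
    (hh s hs).sub ((by fun_prop : DifferentiableAt ℂ (fun z => h s0 * Complex.exp (3 * (z - s0))) s))
  have hN0 : N s0 = 0 := by rw [hN]; simp
  have key := rect_quot hNd h0 h1 (by linarith : 0 < X₁) (by linarith : 0 < X₂) hN0
  rw [← hs0] at key
  -- horizontal part
  set H := (∫ x in (-X₁)..X₂, N (pt x (-(Real.pi / 4))) / Complex.sinh (3 * (pt x (-(Real.pi / 4)) - s0))) -
    (∫ x in (-X₁)..X₂, N (pt x (Real.pi / 12)) / Complex.sinh (3 * (pt x (Real.pi / 12) - s0))) with hH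
  have hbot : |(-(Real.pi / 4))| < Real.pi / 2 := by rw [abs_neg, abs_of_pos (by positivity)]; linarith
  have htop : |Real.pi / 12| < Real.pi / 2 := by rw [abs_of_pos (by positivity)]; linarith
  have cb := cont_line_x hh hbot
  have ct := cont_line_x hh htop
  have cs : Continuous fun x : ℝ => Complex.sinh (3 * (pt x (-(Real.pi / 4)) - s0)) := by
    unfold pt
    exact Complex.continuous_sinh.comp (by fun_prop)
  have hden : ∀ x : ℝ, Complex.sinh (3 * (pt x (-(Real.pi / 4)) - s0)) ≠ 0 := fun x => den_ne h0 h1 x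
  have hcont : Continuous fun x : ℝ => (h (pt x (-(Real.pi / 4))) + h (pt x (Real.pi / 12))) /
      Complex.sinh (3 * (pt x (-(Real.pi / 4)) - s0)) := (cb.add ct).div cs hden
  have hHe : H = ∫ x in (-X₁)..X₂, (h (pt x (-(Real.pi / 4))) + h (pt x (Real.pi / 12))) /
      Complex.sinh (3 * (pt x (-(Real.pi / 4)) - s0)) := by
    rw [hH, ← intervalIntegral.integral_sub]
    · apply integral_congr
      intro x _
      simp only [hN]
      rw [hs0, sinh_top, exp_top]
      have := den_ne h0 h1 x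
      field_simp
      ring
    · exact ((cont_line_x hNd hbot).div cs hden).intervalIntegrable _ _
    · have e : (fun x : ℝ => N (pt x (Real.pi / 12)) / Complex.sinh (3 * (pt x (Real.pi / 12) - s0))) =
          fun x : ℝ => N (pt x (Real.pi / 12)) / -Complex.sinh (3 * (pt x (-(Real.pi / 4)) - s0)) := by
        funext x
        rw [hs0, sinh_top]
      rw [e]
      exact ((cont_line_x hNd htop).div cs.neg fun x => neg_ne_zero.2 (hden x)).intervalIntegrable _ _
  have e1nn : 0 ≤ e₁ := by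
    have := (norm_nonneg _).trans (he1 0 ⟨by linarith, le_rfl⟩)
    simpa using this
  have e2nn : 0 ≤ e₂ := by
    have := (norm_nonneg _).trans (he2 0 ⟨le_rfl, by linarith⟩)
    simpa using this
  have hHn : ‖H‖ ≤ 15 * e₁ + e₂ * Real.exp (3 * X₂) := by
    rw [hHe, ← integral_add_adjacent_intervals (b := 0) (hcont.intervalIntegrable _ _) (hcont.intervalIntegrable _ _)]
    refine (norm_add_le _ _).trans (add_le_add ?_ ?_)
    · have h2 : ‖∫ x in (-X₁)..0, (h (pt x (-(Real.pi / 4))) + h (pt x (Real.pi / 12))) /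
          Complex.sinh (3 * (pt x (-(Real.pi / 4)) - s0))‖ ≤ ∫ x in (-X₁)..0, 3 * e₁ * Real.exp (1 / 5 * x) := by
        apply intervalIntegral.norm_integral_le_of_norm_le (by linarith)
        · refine Eventually.of_forall fun x hx => ?_
          refine (weight_x h0 h1 x (he1 x ⟨hx.1.le, hx.2⟩)).trans (le_of_eq ?_)
          rw [abs_of_nonpos hx.2]
          have : Real.exp (1 / 5 * x) = Real.exp (-(3 * -x)) * Real.exp (-(3 * x) + 1 / 5 * x) := by
            rw [← Real.exp_add]; congr 1; ring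
          rw [this]; ring
        · apply Continuous.intervalIntegrable; fun_prop
      refine h2.trans ?_
      rw [intervalIntegral.integral_const_mul, integral_exp_mul (by norm_num)]
      have := Real.exp_pos (1 / 5 * -X₁)
      rw [mul_zero, Real.exp_zero]
      have h3 : (1 - Real.exp (1 / 5 * -X₁)) / (1 / 5) ≤ 5 := by
        rw [div_le_iff₀ (by norm_num)]; linarith
      nlinarith
    · have h2 : ‖∫ x in (0 : ℝ)..X₂, (h (pt x (-(Real.pi / 4))) + h (pt x (Real.pi / 12))) /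
          Complex.sinh (3 * (pt x (-(Real.pi / 4)) - s0))‖ ≤ ∫ x in (0 : ℝ)..X₂, 3 * e₂ * Real.exp (3 * x) := by
        apply intervalIntegral.norm_integral_le_of_norm_le (by linarith)
        · refine Eventually.of_forall fun x hx => ?_
          refine (weight_x h0 h1 x (he2 x ⟨hx.1.le, hx.2⟩)).trans (le_of_eq ?_)
          rw [abs_of_nonneg hx.1.le]
          have : Real.exp (3 * x) = Real.exp (-(3 * x)) * Real.exp (6 * x) := by
            rw [← Real.exp_add]; congr 1; ring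
          rw [this]; ring
        · apply Continuous.intervalIntegrable; fun_prop
      refine h2.trans ?_
      rw [intervalIntegral.integral_const_mul, integral_exp_mul (by norm_num)]
      have := Real.exp_pos (3 * (0 : ℝ))
      have h3 : (Real.exp (3 * X₂) - Real.exp (3 * 0)) / 3 ≤ Real.exp (3 * X₂) / 3 := by gcongr; linarith
      nlinarith
  -- right side
  have cy := cont_line_y hh X₂
  have hle : -(Real.pi / 4) ≤ Real.pi / 12 := by linarith
  have hlen : Real.pi / 12 - -(Real.pi / 4) = Real.pi / 3 := by ring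
  have hexpc : Continuous fun y : ℝ => Complex.exp (-(3 * pt X₂ y)) := by unfold pt; fun_prop
  set J := ∫ y in (-(Real.pi / 4))..(Real.pi / 12), 2 * Complex.exp (-(3 * pt X₂ y)) * h (pt X₂ y) with hJ
  set Rr := ∫ y in (-(Real.pi / 4))..(Real.pi / 12), N (pt X₂ y) / Complex.sinh (3 * (pt X₂ y - s0)) with hRr
  set Ll := ∫ y in (-(Real.pi / 4))..(Real.pi / 12), N (pt (-X₁) y) / Complex.sinh (3 * (pt (-X₁) y - s0)) with hLl
  have i1 : IntervalIntegrable (fun y : ℝ => 2 * Complex.exp (-(3 * pt X₂ y)) * h (pt X₂ y)) volume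
      (-(Real.pi / 4)) (Real.pi / 12) := by
    apply ContinuousOn.intervalIntegrable
    rw [uIcc_of_le hle]
    exact (continuous_const.mul hexpc).continuousOn.mul cy
  have hRd : ‖Rr - (Complex.exp (3 * s0) * J - (2 * (Real.pi / 3) : ℝ) * h s0)‖ ≤
      (4 * Real.exp (-(9 * X₂)) * a₂ + 4 * Real.exp (-(6 * X₂)) * a₀) * (Real.pi / 3) := by
    have e2 : Complex.exp (3 * s0) * J - (2 * (Real.pi / 3) : ℝ) * h s0 =
        ∫ y in (-(Real.pi / 4))..(Real.pi / 12), (Complex.exp (3 * s0) * (2 * Complex.exp (-(3 * pt X₂ y)) * h (pt X₂ y)) - 2 * h s0) := by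
      rw [intervalIntegral.integral_sub (i1.const_mul _) (by simp), intervalIntegral.integral_const_mul,
        intervalIntegral.integral_const, hlen, ← hJ]
      congr 1
      rw [Complex.real_smul]; push_cast; ring
    have hsn : ∀ y ∈ Icc (-(Real.pi / 4)) (Real.pi / 12), Complex.sinh (3 * (pt X₂ y - s0)) ≠ 0 := by
      intro y _ h2
      have h3 := sinh_norm_ge (pt X₂ y - s0)
      rw [h2, norm_zero, hs0, pt_sub, pt_re] at h3
      have h4 := exp_le_four_sinh (t := 3 * X₂) (by linarith)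
      have h5 := le_abs_self (Real.sinh (3 * X₂))
      have h6 := Real.exp_pos (3 * X₂)
      linarith
    have i2 : IntervalIntegrable (fun y : ℝ => N (pt X₂ y) / Complex.sinh (3 * (pt X₂ y - s0))) volume
        (-(Real.pi / 4)) (Real.pi / 12) := by
      apply ContinuousOn.intervalIntegrable
      rw [uIcc_of_le hle]
      refine (cont_line_y hNd X₂).div ?_ hsn
      apply Continuous.continuousOn
      unfold pt
      exact Complex.continuous_sinh.comp (by fun_prop)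
    rw [e2, hRr, ← intervalIntegral.integral_sub i2 ((i1.const_mul _).sub (by simp))]
    have h4 : |Real.pi / 12 - -(Real.pi / 4)| = Real.pi / 3 := by rw [hlen, abs_of_pos (by positivity)]
    rw [← h4]
    apply intervalIntegral.norm_integral_le_of_norm_le_const
    intro y hy
    rw [uIoc_of_le hle] at hy
    have hy' : y ∈ Icc (-(Real.pi / 4)) (Real.pi / 12) := ⟨hy.1.le, hy.2⟩
    set u := 3 * (pt X₂ y - s0) with hu
    have hur : u.re = 3 * X₂ := by rw [hu, hs0, pt_sub]; simp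
    have h5 := kernel_right hur hX₂
    have e3 : Complex.exp (3 * s0) * (2 * Complex.exp (-(3 * pt X₂ y)) * h (pt X₂ y)) = 2 * Complex.exp (-u) * h (pt X₂ y) := by
      have : Complex.exp (-u) = Complex.exp (3 * s0) * Complex.exp (-(3 * pt X₂ y)) := by
        rw [← Complex.exp_add]; congr 1; rw [hu]; ring
      rw [this]; ring
    have e4 : N (pt X₂ y) / Complex.sinh u - (2 * Complex.exp (-u) * h (pt X₂ y) - 2 * h s0) =
        (1 / Complex.sinh u - 2 * Complex.exp (-u)) * h (pt X₂ y) - (Complex.exp u / Complex.sinh u - 2) * h s0 := by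
      simp only [hN]
      rw [← hu]
      ring
    rw [e3, e4]
    refine (norm_sub_le _ _).trans ?_
    rw [norm_mul, norm_mul]
    exact add_le_add (mul_le_mul h5.1 (ha2 y hy') (norm_nonneg _) (by positivity))
      (mul_le_mul h5.2 ha0 (norm_nonneg _) (by positivity))
  have hLn : ‖Ll‖ ≤ (4 * Real.exp (-(3 * X₁)) * (a₁ + a₀ * Real.exp (-(3 * X₁)))) * (Real.pi / 3) := by
    have h4 : |Real.pi / 12 - -(Real.pi / 4)| = Real.pi / 3 := by rw [hlen, abs_of_pos (by positivity)]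
    rw [← h4]
    apply intervalIntegral.norm_integral_le_of_norm_le_const
    intro y hy
    rw [uIoc_of_le hle] at hy
    have hy' : y ∈ Icc (-(Real.pi / 4)) (Real.pi / 12) := ⟨hy.1.le, hy.2⟩
    set u := 3 * (pt (-X₁) y - s0) with hu
    have hur : (pt (-X₁) y - s0).re = -X₁ := by rw [hs0, pt_sub]; simp
    have h5 := sinh_norm_ge (pt (-X₁) y - s0)
    rw [hur, mul_neg, Real.sinh_neg, abs_neg, ← hu] at h5
    have h6 := exp_le_four_sinh (t := 3 * X₁) (by linarith)
    have h7 := le_abs_self (Real.sinh (3 * X₁))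
    have h8 := Real.exp_pos (3 * X₁)
    have h9 : 0 < ‖Complex.sinh u‖ := by linarith
    have h10 : ‖N (pt (-X₁) y)‖ ≤ a₁ + a₀ * Real.exp (-(3 * X₁)) := by
      simp only [hN]
      refine (norm_sub_le _ _).trans (add_le_add (ha1 y hy') ?_)
      rw [norm_mul, Complex.norm_exp, ← hu]
      have : u.re = -(3 * X₁) := by rw [hu]; simp [hs0]
      rw [this]
      gcongr
    rw [norm_div, div_le_iff₀ h9]
    have h11 : 0 ≤ a₁ + a₀ * Real.exp (-(3 * X₁)) := (norm_nonneg _).trans h10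
    have h12 : Real.exp (-(3 * X₁)) * Real.exp (3 * X₁) = 1 := by rw [← Real.exp_add]; simp
    calc ‖N (pt (-X₁) y)‖ ≤ a₁ + a₀ * Real.exp (-(3 * X₁)) := h10
      _ = (a₁ + a₀ * Real.exp (-(3 * X₁))) * (Real.exp (-(3 * X₁)) * Real.exp (3 * X₁)) := by rw [h12, mul_one]
      _ ≤ (a₁ + a₀ * Real.exp (-(3 * X₁))) * (Real.exp (-(3 * X₁)) * (4 * ‖Complex.sinh u‖)) := by
          gcongr; linarith
      _ = _ := by ring
  -- conclusion
  have e5 : (2 * (Real.pi / 3) : ℝ) * h s0 - Complex.exp (3 * s0) * J =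
      (Rr - (Complex.exp (3 * s0) * J - (2 * (Real.pi / 3) : ℝ) * h s0)) - Ll - I * H := by
    linear_combination I * key - (Rr - Ll) * I_sq
  have a0nn : 0 ≤ a₀ := (norm_nonneg _).trans ha0
  have a1nn : 0 ≤ a₁ := (norm_nonneg _).trans (ha1 0 ⟨by linarith, by linarith⟩)
  have a2nn : 0 ≤ a₂ := (norm_nonneg _).trans (ha2 0 ⟨by linarith, by linarith⟩)
  rw [e5]
  refine (norm_sub_le _ _).trans ?_
  rw [norm_mul, norm_I, one_mul]
  have h13 := norm_sub_le (Rr - (Complex.exp (3 * s0) * J - (2 * (Real.pi / 3) : ℝ) * h s0)) Ll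
  have h14 : Real.exp (-(6 * X₁)) = Real.exp (-(3 * X₁)) * Real.exp (-(3 * X₁)) := by rw [← Real.exp_add]; congr 1; ring
  have h15 : Real.pi / 3 ≤ 5 / 4 := by
    have := Real.pi_lt_d2
    linarith
  have q1 : 0 ≤ Real.exp (-(9 * X₂)) * a₂ := by positivity
  have q2 : 0 ≤ Real.exp (-(6 * X₂)) * a₀ := by positivity
  have q3 : 0 ≤ Real.exp (-(3 * X₁)) * a₁ := by positivity
  have q4 : 0 ≤ Real.exp (-(6 * X₁)) * a₀ := by positivity
  have r1 : (4 * Real.exp (-(9 * X₂)) * a₂ + 4 * Real.exp (-(6 * X₂)) * a₀) * (Real.pi / 3) ≤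
      5 * (Real.exp (-(9 * X₂)) * a₂) + 5 * (Real.exp (-(6 * X₂)) * a₀) := by nlinarith
  have r2 : (4 * Real.exp (-(3 * X₁)) * (a₁ + a₀ * Real.exp (-(3 * X₁)))) * (Real.pi / 3) ≤
      5 * (Real.exp (-(3 * X₁)) * a₁) + 5 * (Real.exp (-(6 * X₁)) * a₀) := by
    rw [h14] at q4 ⊢
    nlinarith
  linarith

lemma exp_pt_zero : Complex.exp (3 * pt 0 0) = 1 := by
  have : pt 0 0 = 0 := by apply Complex.ext <;> simp
  rw [this, mul_zero, Complex.exp_zero]

lemma exp_pt_six : Complex.exp (3 * pt 0 (-(Real.pi / 6))) = -I := by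
  have : 3 * pt 0 (-(Real.pi / 6)) = -(Real.pi / 2 * I) := by
    apply Complex.ext
    · simp
    · simp; ring
  rw [this, Complex.exp_neg, Complex.exp_pi_div_two_mul_I, Complex.inv_I]

/-- **antiperiodic case**: only the mode `exp (3 s)` survives. -/
theorem anti_final (hh : ∀ s : ℂ, |s.im| < Real.pi / 2 → DifferentiableAt ℂ h s)
    (hX₁ : 1 ≤ X₁) (hX₂ : 1 ≤ X₂) {a₀ a₁ a₂ e₁ e₂ : ℝ}
    (ha0 : ‖h (pt 0 0)‖ ≤ a₀) (ha0' : ‖h (pt 0 (-(Real.pi / 6)))‖ ≤ a₀)
    (ha1 : ∀ y ∈ Icc (-(Real.pi / 4)) (Real.pi / 12), ‖h (pt (-X₁) y)‖ ≤ a₁)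
    (ha2 : ∀ y ∈ Icc (-(Real.pi / 4)) (Real.pi / 12), ‖h (pt X₂ y)‖ ≤ a₂)
    (he1 : ∀ x ∈ Icc (-X₁) 0, ‖h (pt x (-(Real.pi / 4))) + h (pt x (Real.pi / 12))‖ ≤
      e₁ * Real.exp (-(3 * x) + 1 / 5 * x))
    (he2 : ∀ x ∈ Icc 0 X₂, ‖h (pt x (-(Real.pi / 4))) + h (pt x (Real.pi / 12))‖ ≤ e₂ * Real.exp (6 * x)) :
    ‖h (pt 0 0) - I * h (pt 0 (-(Real.pi / 6)))‖ ≤
    15 * e₁ + e₂ * Real.exp (3 * X₂) + 5 * (Real.exp (-(3 * X₁)) * a₁ + Real.exp (-(6 * X₁)) * a₀ +
      Real.exp (-(9 * X₂)) * a₂ + Real.exp (-(6 * X₂)) * a₀) := by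
  have hp := Real.pi_pos
  have hp3 := Real.pi_gt_three
  have k1 := anti_est hh (τ := 0) (by linarith) le_rfl hX₁ hX₂ ha0 ha1 ha2 he1 he2
  have k2 := anti_est hh (τ := -(Real.pi / 6)) le_rfl (by linarith) hX₁ hX₂ ha0' ha1 ha2 he1 he2
  rw [exp_pt_zero] at k1
  rw [exp_pt_six] at k2
  set B := 15 * e₁ + e₂ * Real.exp (3 * X₂) + 5 * (Real.exp (-(3 * X₁)) * a₁ + Real.exp (-(6 * X₁)) * a₀ +
      Real.exp (-(9 * X₂)) * a₂ + Real.exp (-(6 * X₂)) * a₀) with hB
  set J := ∫ y in (-(Real.pi / 4))..(Real.pi / 12), 2 * Complex.exp (-(3 * pt X₂ y)) * h (pt X₂ y) with hJ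
  have e : (2 * (Real.pi / 3) : ℝ) * (h (pt 0 0) - I * h (pt 0 (-(Real.pi / 6)))) =
      ((2 * (Real.pi / 3) : ℝ) * h (pt 0 0) - 1 * J) - I * ((2 * (Real.pi / 3) : ℝ) * h (pt 0 (-(Real.pi / 6))) - -I * J) := by
    linear_combination J * I_sq
  have k3 : ‖(2 * (Real.pi / 3) : ℝ) * (h (pt 0 0) - I * h (pt 0 (-(Real.pi / 6))))‖ ≤ B + B := by
    rw [e]
    refine (norm_sub_le _ _).trans (add_le_add k1 ?_)
    rw [norm_mul, norm_I, one_mul]
    exact k2
  rw [norm_mul, Complex.norm_real, Real.norm_of_nonneg (by positivity)] at k3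
  have k4 := norm_nonneg (h (pt 0 0) - I * h (pt 0 (-(Real.pi / 6))))
  nlinarith

/-- **periodic case** -/
theorem per_est (hh : ∀ s : ℂ, |s.im| < Real.pi / 2 → DifferentiableAt ℂ h s)
    (h0 : -(Real.pi / 6) ≤ τ) (h1 : τ ≤ 0) (hX₁ : 1 ≤ X₁) (hX₂ : 1 ≤ X₂) {a₀ a₁ a₂ e₁ e₂ : ℝ}
    (ha0 : ‖h (pt 0 τ)‖ ≤ a₀)
    (ha1 : ∀ y ∈ Icc (-(Real.pi / 4)) (Real.pi / 12), ‖h (pt (-X₁) y)‖ ≤ a₁)
    (ha2 : ∀ y ∈ Icc (-(Real.pi / 4)) (Real.pi / 12), ‖h (pt X₂ y)‖ ≤ a₂)
    (he1 : ∀ x ∈ Icc (-X₁) 0, ‖h (pt x (-(Real.pi / 4))) - h (pt x (Real.pi / 12))‖ ≤ e₁ * Real.exp (-(2 * x)))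
    (he2 : ∀ x ∈ Icc 0 X₂, ‖h (pt x (-(Real.pi / 4))) - h (pt x (Real.pi / 12))‖ ≤ e₂ * Real.exp (3 * x)) :
    ‖h (pt 0 τ)‖ ≤ 2 * e₁ * Real.exp (2 * X₁) + e₂ + 5 * (a₁ + Real.exp (-(6 * X₁)) * (a₁ + a₀) +
      Real.exp (-(6 * X₂)) * (a₂ + a₀)) := by
  have hp := Real.pi_pos
  have hp3 := Real.pi_gt_three
  have hp4 := Real.pi_le_four
  set s0 := pt 0 τ with hs0
  set N : ℂ → ℂ := fun z => (h z - h s0) * Complex.exp (-(3 * (z - s0))) with hN
  have hNd : ∀ s : ℂ, |s.im| < Real.pi / 2 → DifferentiableAt ℂ N s := fun s hs =>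
    ((hh s hs).sub_const _).mul ((by fun_prop : DifferentiableAt ℂ (fun z => Complex.exp (-(3 * (z - s0)))) s))
  have hN0 : N s0 = 0 := by rw [hN]; simp
  have key := rect_quot hNd h0 h1 (by linarith : 0 < X₁) (by linarith : 0 < X₂) hN0
  rw [← hs0] at key
  -- horizontal part
  set H := (∫ x in (-X₁)..X₂, N (pt x (-(Real.pi / 4))) / Complex.sinh (3 * (pt x (-(Real.pi / 4)) - s0))) -
    (∫ x in (-X₁)..X₂, N (pt x (Real.pi / 12)) / Complex.sinh (3 * (pt x (Real.pi / 12) - s0))) with hH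
  have hbot : |(-(Real.pi / 4))| < Real.pi / 2 := by rw [abs_neg, abs_of_pos (by positivity)]; linarith
  have htop : |Real.pi / 12| < Real.pi / 2 := by rw [abs_of_pos (by positivity)]; linarith
  have cb := cont_line_x hh hbot
  have ct := cont_line_x hh htop
  have cs : Continuous fun x : ℝ => Complex.sinh (3 * (pt x (-(Real.pi / 4)) - s0)) := by
    unfold pt
    exact Complex.continuous_sinh.comp (by fun_prop)
  have ce : Continuous fun x : ℝ => Complex.exp (-(3 * (pt x (-(Real.pi / 4)) - s0))) := by unfold pt; fun_prop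
  have hden : ∀ x : ℝ, Complex.sinh (3 * (pt x (-(Real.pi / 4)) - s0)) ≠ 0 := fun x => den_ne h0 h1 x
  have hcont : Continuous fun x : ℝ => (Complex.exp (-(3 * (pt x (-(Real.pi / 4)) - s0))) *
      (h (pt x (-(Real.pi / 4))) - h (pt x (Real.pi / 12)))) /
      Complex.sinh (3 * (pt x (-(Real.pi / 4)) - s0)) := (ce.mul (cb.sub ct)).div cs hden
  have hHe : H = ∫ x in (-X₁)..X₂, (Complex.exp (-(3 * (pt x (-(Real.pi / 4)) - s0))) *
      (h (pt x (-(Real.pi / 4))) - h (pt x (Real.pi / 12)))) /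
      Complex.sinh (3 * (pt x (-(Real.pi / 4)) - s0)) := by
    rw [hH, ← intervalIntegral.integral_sub]
    · apply integral_congr
      intro x _
      simp only [hN]
      have e1 : Complex.exp (-(3 * (pt x (Real.pi / 12) - s0))) = -Complex.exp (-(3 * (pt x (-(Real.pi / 4)) - s0))) := by
        rw [hs0, three_shift, neg_add, Complex.exp_add, Complex.exp_neg (↑Real.pi * I), Complex.exp_pi_mul_I]
        norm_num
      rw [e1, hs0, sinh_top]
      have := den_ne h0 h1 x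
      field_simp
      ring
    · exact ((cont_line_x hNd hbot).div cs hden).intervalIntegrable _ _
    · have e : (fun x : ℝ => N (pt x (Real.pi / 12)) / Complex.sinh (3 * (pt x (Real.pi / 12) - s0))) =
          fun x : ℝ => N (pt x (Real.pi / 12)) / -Complex.sinh (3 * (pt x (-(Real.pi / 4)) - s0)) := by
        funext x
        rw [hs0, sinh_top]
      rw [e]
      exact ((cont_line_x hNd htop).div cs.neg fun x => neg_ne_zero.2 (hden x)).intervalIntegrable _ _
  have e1nn : 0 ≤ e₁ := by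
    have := (norm_nonneg _).trans (he1 0 ⟨by linarith, le_rfl⟩)
    simpa using this
  have e2nn : 0 ≤ e₂ := by
    have := (norm_nonneg _).trans (he2 0 ⟨le_rfl, by linarith⟩)
    simpa using this
  have hen : ∀ x : ℝ, ‖Complex.exp (-(3 * (pt x (-(Real.pi / 4)) - s0)))‖ = Real.exp (-(3 * x)) := by
    intro x
    rw [Complex.norm_exp, hs0, pt_sub]; congr 1; simp
  have hHn : ‖H‖ ≤ 3 / 2 * e₁ * Real.exp (2 * X₁) + e₂ := by
    rw [hHe, ← integral_add_adjacent_intervals (b := 0) (hcont.intervalIntegrable _ _) (hcont.intervalIntegrable _ _)]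
    refine (norm_add_le _ _).trans (add_le_add ?_ ?_)
    · have h2 : ‖∫ x in (-X₁)..0, (Complex.exp (-(3 * (pt x (-(Real.pi / 4)) - s0))) *
          (h (pt x (-(Real.pi / 4))) - h (pt x (Real.pi / 12)))) /
          Complex.sinh (3 * (pt x (-(Real.pi / 4)) - s0))‖ ≤ ∫ x in (-X₁)..0, 3 * e₁ * Real.exp (-2 * x) := by
        apply intervalIntegral.norm_integral_le_of_norm_le (by linarith)
        · refine Eventually.of_forall fun x hx => ?_
          have h3 : ‖Complex.exp (-(3 * (pt x (-(Real.pi / 4)) - s0))) * (h (pt x (-(Real.pi / 4))) - h (pt x (Real.pi / 12)))‖ ≤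
              Real.exp (-(3 * x)) * (e₁ * Real.exp (-(2 * x))) := by
            rw [norm_mul, hen]
            exact mul_le_mul_of_nonneg_left (he1 x ⟨hx.1.le, hx.2⟩) (Real.exp_pos _).le
          refine (weight_x h0 h1 x h3).trans (le_of_eq ?_)
          rw [abs_of_nonpos hx.2]
          have h4 : Real.exp (-(3 * -x)) * Real.exp (-(3 * x)) = 1 := by rw [← Real.exp_add]; simp
          have h5 : Real.exp (-2 * x) = Real.exp (-(2 * x)) := by congr 1; ring
          rw [h5]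
          linear_combination (3 * e₁ * Real.exp (-(2 * x))) * h4
        · apply Continuous.intervalIntegrable; fun_prop
      refine h2.trans ?_
      rw [intervalIntegral.integral_const_mul, integral_exp_mul (by norm_num)]
      have h5 : Real.exp (-2 * -X₁) = Real.exp (2 * X₁) := by congr 1; ring
      rw [h5, mul_zero, Real.exp_zero]
      nlinarith
    · have h2 : ‖∫ x in (0 : ℝ)..X₂, (Complex.exp (-(3 * (pt x (-(Real.pi / 4)) - s0))) *
          (h (pt x (-(Real.pi / 4))) - h (pt x (Real.pi / 12)))) /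
          Complex.sinh (3 * (pt x (-(Real.pi / 4)) - s0))‖ ≤ ∫ x in (0 : ℝ)..X₂, 3 * e₂ * Real.exp (-3 * x) := by
        apply intervalIntegral.norm_integral_le_of_norm_le (by linarith)
        · refine Eventually.of_forall fun x hx => ?_
          have h3 : ‖Complex.exp (-(3 * (pt x (-(Real.pi / 4)) - s0))) * (h (pt x (-(Real.pi / 4))) - h (pt x (Real.pi / 12)))‖ ≤
              Real.exp (-(3 * x)) * (e₂ * Real.exp (3 * x)) := by
            rw [norm_mul, hen]
            exact mul_le_mul_of_nonneg_left (he2 x ⟨hx.1.le, hx.2⟩) (Real.exp_pos _).le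
          refine (weight_x h0 h1 x h3).trans (le_of_eq ?_)
          rw [abs_of_nonneg hx.1.le]
          have h4 : Real.exp (-(3 * x)) * Real.exp (3 * x) = 1 := by rw [← Real.exp_add]; simp
          have h5 : Real.exp (-3 * x) = Real.exp (-(3 * x)) := by congr 1; ring
          rw [h5]
          linear_combination (3 * e₂ * Real.exp (-(3 * x))) * h4
        · apply Continuous.intervalIntegrable; fun_prop
      refine h2.trans ?_
      rw [intervalIntegral.integral_const_mul, integral_exp_mul (by norm_num)]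
      have := Real.exp_pos (-3 * X₂)
      rw [mul_zero, Real.exp_zero]
      have h3 : (Real.exp (-3 * X₂) - 1) / -3 ≤ 1 / 3 := by linarith
      nlinarith
  -- vertical sides
  have hle : -(Real.pi / 4) ≤ Real.pi / 12 := by linarith
  have hlen : Real.pi / 12 - -(Real.pi / 4) = Real.pi / 3 := by ring
  have h4' : |Real.pi / 12 - -(Real.pi / 4)| = Real.pi / 3 := by rw [hlen, abs_of_pos (by positivity)]
  set Rr := ∫ y in (-(Real.pi / 4))..(Real.pi / 12), N (pt X₂ y) / Complex.sinh (3 * (pt X₂ y - s0)) with hRr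
  set Ll := ∫ y in (-(Real.pi / 4))..(Real.pi / 12), N (pt (-X₁) y) / Complex.sinh (3 * (pt (-X₁) y - s0)) with hLl
  have a0nn : 0 ≤ a₀ := (norm_nonneg _).trans ha0
  have a1nn : 0 ≤ a₁ := (norm_nonneg _).trans (ha1 0 ⟨by linarith, by linarith⟩)
  have a2nn : 0 ≤ a₂ := (norm_nonneg _).trans (ha2 0 ⟨by linarith, by linarith⟩)
  have hRn : ‖Rr‖ ≤ (4 * Real.exp (-(6 * X₂)) * (a₂ + a₀)) * (Real.pi / 3) := by
    rw [← h4']
    apply intervalIntegral.norm_integral_le_of_norm_le_const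
    intro y hy
    rw [uIoc_of_le hle] at hy
    have hy' : y ∈ Icc (-(Real.pi / 4)) (Real.pi / 12) := ⟨hy.1.le, hy.2⟩
    set u := 3 * (pt X₂ y - s0) with hu
    have hur : (pt X₂ y - s0).re = X₂ := by rw [hs0, pt_sub]; simp
    have h5 := sinh_norm_ge (pt X₂ y - s0)
    rw [hur, ← hu] at h5
    have h6 := exp_le_four_sinh (t := 3 * X₂) (by linarith)
    have h7 := le_abs_self (Real.sinh (3 * X₂))
    have h8 := Real.exp_pos (3 * X₂)
    have h9 : 0 < ‖Complex.sinh u‖ := by linarith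
    have h10 : ‖N (pt X₂ y)‖ ≤ (a₂ + a₀) * Real.exp (-(3 * X₂)) := by
      simp only [hN]
      rw [norm_mul, Complex.norm_exp, ← hu]
      have : (-u).re = -(3 * X₂) := by rw [hu]; simp [hs0]
      rw [this]
      gcongr
      exact (norm_sub_le _ _).trans (add_le_add (ha2 y hy') ha0)
    rw [norm_div, div_le_iff₀ h9]
    have h12 : Real.exp (-(3 * X₂)) * Real.exp (3 * X₂) = 1 := by rw [← Real.exp_add]; simp
    have h13 : Real.exp (-(6 * X₂)) = Real.exp (-(3 * X₂)) * Real.exp (-(3 * X₂)) := by rw [← Real.exp_add]; congr 1; ring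
    have h14 : 1 ≤ Real.exp (-(3 * X₂)) * (4 * ‖Complex.sinh u‖) := by
      rw [← h12]
      gcongr
      linarith
    have h15 := Real.exp_pos (-(3 * X₂))
    calc ‖N (pt X₂ y)‖ ≤ (a₂ + a₀) * Real.exp (-(3 * X₂)) * 1 := by rw [mul_one]; exact h10
      _ ≤ (a₂ + a₀) * Real.exp (-(3 * X₂)) * (Real.exp (-(3 * X₂)) * (4 * ‖Complex.sinh u‖)) := by gcongr
      _ = _ := by rw [h13]; ring
  have hLd : ‖Ll - (2 * (Real.pi / 3) : ℝ) * h s0‖ ≤ (2 * a₁ + 4 * Real.exp (-(6 * X₁)) * (a₁ + a₀)) * (Real.pi / 3) := by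
    have e2 : ((2 * (Real.pi / 3) : ℝ) : ℂ) * h s0 = ∫ _y in (-(Real.pi / 4))..(Real.pi / 12), 2 * h s0 := by
      rw [intervalIntegral.integral_const, hlen, Complex.real_smul]; push_cast; ring
    have hsn : ∀ y ∈ Icc (-(Real.pi / 4)) (Real.pi / 12), Complex.sinh (3 * (pt (-X₁) y - s0)) ≠ 0 := by
      intro y _ h2
      have h3 := sinh_norm_ge (pt (-X₁) y - s0)
      rw [h2, norm_zero, hs0, pt_sub, pt_re, mul_neg, Real.sinh_neg, abs_neg] at h3
      have h4 := exp_le_four_sinh (t := 3 * X₁) (by linarith)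
      have h5 := le_abs_self (Real.sinh (3 * X₁))
      have h6 := Real.exp_pos (3 * X₁)
      linarith
    have i2 : IntervalIntegrable (fun y : ℝ => N (pt (-X₁) y) / Complex.sinh (3 * (pt (-X₁) y - s0))) volume
        (-(Real.pi / 4)) (Real.pi / 12) := by
      apply ContinuousOn.intervalIntegrable
      rw [uIcc_of_le hle]
      refine (cont_line_y hNd (-X₁)).div ?_ hsn
      apply Continuous.continuousOn
      unfold pt
      exact Complex.continuous_sinh.comp (by fun_prop)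
    rw [e2, hLl, ← intervalIntegral.integral_sub i2 (by simp), ← h4']
    apply intervalIntegral.norm_integral_le_of_norm_le_const
    intro y hy
    rw [uIoc_of_le hle] at hy
    have hy' : y ∈ Icc (-(Real.pi / 4)) (Real.pi / 12) := ⟨hy.1.le, hy.2⟩
    set u := 3 * (pt (-X₁) y - s0) with hu
    have hur : (-u).re = 3 * X₁ := by rw [hu, hs0, pt_sub]; simp
    have h5 := (kernel_right hur hX₁).2
    have e4 : N (pt (-X₁) y) / Complex.sinh u - 2 * h s0 =
        -(2 * h (pt (-X₁) y)) - (Complex.exp (-u) / Complex.sinh (-u) - 2) * (h (pt (-X₁) y) - h s0) := by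
      simp only [hN]
      rw [← hu, Complex.sinh_neg, div_neg]
      ring
    rw [e4]
    refine (norm_sub_le _ _).trans ?_
    rw [norm_neg, norm_mul, norm_mul, Complex.norm_ofNat]
    refine add_le_add (by linarith [ha1 y hy']) (mul_le_mul h5 ?_ (norm_nonneg _) (by positivity))
    exact (norm_sub_le _ _).trans (add_le_add (ha1 y hy') ha0)
  have e5 : ((2 * (Real.pi / 3) : ℝ) : ℂ) * h s0 = Rr - I * H - (Ll - (2 * (Real.pi / 3) : ℝ) * h s0) := by
    linear_combination I * key - (Rr - Ll) * I_sq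
  have k3 : ‖((2 * (Real.pi / 3) : ℝ) : ℂ) * h s0‖ ≤ ‖Rr‖ + ‖H‖ + ‖Ll - (2 * (Real.pi / 3) : ℝ) * h s0‖ := by
    rw [e5]
    refine (norm_sub_le _ _).trans ?_
    rw [← e5]
    gcongr
    refine (norm_sub_le _ _).trans ?_
    rw [norm_mul, norm_I, one_mul]
  rw [norm_mul, Complex.norm_real, Real.norm_of_nonneg (by positivity)] at k3
  have h15 : Real.pi / 3 ≤ 5 / 4 := by
    have := Real.pi_lt_d2
    linarith
  have k4 := norm_nonneg (h s0)
  have q1 : 0 ≤ Real.exp (-(6 * X₂)) * (a₂ + a₀) := by positivity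
  have q2 : 0 ≤ Real.exp (-(6 * X₁)) * (a₁ + a₀) := by positivity
  have q3 : 0 ≤ e₁ * Real.exp (2 * X₁) := by positivity
  have r1 : (4 * Real.exp (-(6 * X₂)) * (a₂ + a₀)) * (Real.pi / 3) ≤ 5 * (Real.exp (-(6 * X₂)) * (a₂ + a₀)) := by nlinarith
  have r2 : (2 * a₁ + 4 * Real.exp (-(6 * X₁)) * (a₁ + a₀)) * (Real.pi / 3) ≤
      5 * a₁ + 5 * (Real.exp (-(6 * X₁)) * (a₁ + a₀)) := by nlinarith
  have r3 : ‖h s0‖ ≤ 2 * (Real.pi / 3) * ‖h s0‖ := by nlinarith
  linarith

end rect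

end Eng
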