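import Pool.Agent.Full.Eng.Smooth
import Pool.Agent.Full.Eng.Contour

/-!
# Bilinear forms with the `l²` norm
-/

set_option autoImplicit false

namespace Eng

open Finset

variable {J L : Type*} [Fintype J] [Fintype L]

/-- the `l²` norm -/
noncomputable def nr (α : J → ℂ) : ℝ := Real.sqrt (∑ j, ‖α j‖ ^ 2)

lemma nr_nonneg (α : J → ℂ) : 0 ≤ nr α := Real.sqrt_nonneg _

lemma nr_mul_le {c : J → ℂ} {κ : ℝ} (hκ : 0 ≤ κ) (hc : ∀ j, ‖c j‖ ≤ κ) (α : J → ℂ) :
    nr (fun j => α j * c j) ≤ κ * nr α := by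
  unfold nr
  rw [Real.sqrt_le_iff]
  refine ⟨by positivity, ?_⟩
  rw [mul_pow, Real.sq_sqrt (sum_nonneg fun _ _ => sq_nonneg _), mul_sum]
  refine sum_le_sum fun j _ => ?_
  rw [norm_mul, mul_pow, mul_comm]
  gcongr
  exact hc j

/-- the bilinear form -/
def Bf (A : J → L → ℂ) (α : J → ℂ) (β : L → ℂ) : ℂ := ∑ j, ∑ l, α j * A j l * β l

/-- the operator norm is at most `C` -/
def Bd (A : J → L → ℂ) (C : ℝ) : Prop := ∀ (α : J → ℂ) (β : L → ℂ), ‖Bf A α β‖ ≤ C * nr α * nr β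

variable {A B : J → L → ℂ} {C C' : ℝ}

lemma Bd.mono (h : Bd A C) (hC : C ≤ C') : Bd A C' := fun α β => by
  have h1 := nr_nonneg α
  have h2 := nr_nonneg β
  exact (h α β).trans (by gcongr)

lemma Bd.add (hA : Bd A C) (hB : Bd B C') : Bd (fun j l => A j l + B j l) (C + C') := fun α β => by
  have e : Bf (fun j l => A j l + B j l) α β = Bf A α β + Bf B α β := by
    unfold Bf
    rw [← sum_add_distrib]
    refine sum_congr rfl fun j _ => ?_
    rw [← sum_add_distrib]
    refine sum_congr rfl fun l _ => ?_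
    ring
  rw [e, add_mul, add_mul]
  exact (norm_add_le _ _).trans (add_le_add (hA α β) (hB α β))

lemma Bd.neg (hA : Bd A C) : Bd (fun j l => -A j l) C := fun α β => by
  have e : Bf (fun j l => -A j l) α β = -Bf A α β := by
    unfold Bf
    rw [← sum_neg_distrib]
    refine sum_congr rfl fun j _ => ?_
    rw [← sum_neg_distrib]
    refine sum_congr rfl fun l _ => ?_
    ring
  rw [e, norm_neg]
  exact hA α β

lemma Bd.sub (hA : Bd A C) (hB : Bd B C') : Bd (fun j l => A j l - B j l) (C + C') := by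
  have := hA.add hB.neg
  simpa [sub_eq_add_neg] using this

lemma Bd.mul (hB : Bd B C) (hC : 0 ≤ C) {a : J → ℂ} {b : L → ℂ} {κ κ' : ℝ} (ha : ∀ j, ‖a j‖ ≤ κ) (hb : ∀ l, ‖b l‖ ≤ κ')
    (hκ : 0 ≤ κ) (hκ' : 0 ≤ κ') : Bd (fun j l => a j * B j l * b l) (κ * C * κ') := fun α β => by
  have e : Bf (fun j l => a j * B j l * b l) α β = Bf B (fun j => α j * a j) (fun l => β l * b l) := by
    unfold Bf
    refine sum_congr rfl fun j _ => sum_congr rfl fun l _ => ?_
    ring
  rw [e]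
  refine (hB _ _).trans ?_
  have h1 := nr_mul_le hκ ha α
  have h2 := nr_mul_le hκ' hb β
  have h3 := nr_nonneg (fun j => α j * a j)
  have h4 := nr_nonneg (fun l => β l * b l)
  have h5 := nr_nonneg α
  have h6 := nr_nonneg β
  calc C * nr (fun j => α j * a j) * nr (fun l => β l * b l) ≤ C * (κ * nr α) * (κ' * nr β) := by gcongr
    _ = κ * C * κ' * nr α * nr β := by ring

lemma Bd.congr (h : Bd A C) (e : ∀ j l, B j l = A j l) : Bd B C := by
  have : B = A := by funext j l; exact e j l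
  rw [this]; exact h

lemma Bf_diff {G : ℂ → J → L → ℂ} {s : ℂ} (h : ∀ j l, DifferentiableAt ℂ (fun z => G z j l) s) (α : J → ℂ) (β : L → ℂ) :
    DifferentiableAt ℂ (fun z => Bf (G z) α β) s := by
  unfold Bf
  refine DifferentiableAt.fun_sum fun j _ => DifferentiableAt.fun_sum fun l _ => ?_
  exact ((h j l).const_mul _).mul_const _

/-- Cauchy-Schwarz -/
lemma norm_sum_mul_le (α β : J → ℂ) : ‖∑ j, α j * β j‖ ≤ nr α * nr β := by
  refine (norm_sum_le _ _).trans ?_
  have h1 : ∑ j, ‖α j * β j‖ = ∑ j, ‖α j‖ * ‖β j‖ := sum_congr rfl fun j _ => norm_mul _ _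
  rw [h1]
  unfold nr
  exact Real.sum_mul_le_sqrt_mul_sqrt _ _ _

lemma nr_sq (γ : J → ℂ) : nr γ * nr γ = ∑ j, ‖γ j‖ ^ 2 := by
  unfold nr; rw [Real.mul_self_sqrt (sum_nonneg fun _ _ => sq_nonneg _)]

lemma sum_conj_mul (γ : J → ℂ) : ∑ j, (starRingEnd ℂ) (γ j) * γ j = ((nr γ * nr γ : ℝ) : ℂ) := by
  rw [nr_sq]
  push_cast
  refine sum_congr rfl fun j _ => ?_
  rw [mul_comm, Complex.mul_conj, Complex.normSq_eq_norm_sq]
  push_cast; rfl

/-- the norm of the image of a vector -/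
lemma Bd.nr_mulVec (h : Bd A C) (hC : 0 ≤ C) (β : L → ℂ) : nr (fun j => ∑ l, A j l * β l) ≤ C * nr β := by
  set γ : J → ℂ := fun j => ∑ l, A j l * β l with hγ
  have h1 := h (fun j => (starRingEnd ℂ) (γ j)) β
  have h2 : Bf A (fun j => (starRingEnd ℂ) (γ j)) β = ∑ j, (starRingEnd ℂ) (γ j) * γ j := by
    unfold Bf
    refine sum_congr rfl fun j _ => ?_
    rw [hγ, mul_sum]
    exact sum_congr rfl fun l _ => mul_assoc _ _ _
  have h3 : nr (fun j => (starRingEnd ℂ) (γ j)) = nr γ := by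
    unfold nr; simp only [Complex.norm_conj]
  have h5 := nr_nonneg γ
  rw [h2, sum_conj_mul, h3, Complex.norm_real, Real.norm_of_nonneg (mul_nonneg h5 h5)] at h1
  rcases h5.eq_or_lt with h6 | h6
  · rw [← h6]; exact mul_nonneg hC (nr_nonneg _)
  · have h7 : nr γ * nr γ ≤ (C * nr β) * nr γ := by linarith
    exact le_of_mul_le_mul_right h7 h6

/-- converse -/
lemma Bd.of_mulVec (h : ∀ β : L → ℂ, nr (fun j => ∑ l, A j l * β l) ≤ C * nr β) : Bd A C := fun α β => by
  have e : Bf A α β = ∑ j, α j * ∑ l, A j l * β l := by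
    unfold Bf
    refine sum_congr rfl fun j _ => ?_
    rw [mul_sum]
    exact sum_congr rfl fun l _ => mul_assoc _ _ _
  rw [e]
  have h1 := norm_sum_mul_le α (fun j => ∑ l, A j l * β l)
  have h2 := nr_nonneg α
  calc ‖∑ j, α j * ∑ l, A j l * β l‖ ≤ nr α * nr (fun j => ∑ l, A j l * β l) := h1
    _ ≤ nr α * (C * nr β) := mul_le_mul_of_nonneg_left (h β) h2
    _ = C * nr α * nr β := by ring

/-- products -/
lemma Bd.comp {M : Type*} [Fintype M] {B : L → M → ℂ} (hA : Bd A C) (hB : Bd B C') (hC : 0 ≤ C) (hC' : 0 ≤ C') :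
    Bd (fun j k => ∑ l, A j l * B l k) (C * C') := by
  apply Bd.of_mulVec
  intro β
  have e : (fun j => ∑ k, (∑ l, A j l * B l k) * β k) = fun j => ∑ l, A j l * ∑ k, B l k * β k := by
    funext j
    simp_rw [sum_mul, mul_sum]
    rw [sum_comm]
    exact sum_congr rfl fun l _ => sum_congr rfl fun k _ => mul_assoc _ _ _
  rw [e]
  calc nr (fun j => ∑ l, A j l * ∑ k, B l k * β k) ≤ C * nr (fun l => ∑ k, B l k * β k) := hA.nr_mulVec hC _
    _ ≤ C * (C' * nr β) := mul_le_mul_of_nonneg_left (hB.nr_mulVec hC' β) hC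
    _ = C * C' * nr β := by ring

/-- an isometry has norm at most one -/
lemma Bd.of_isometry [DecidableEq L] (h : ∀ l l', ∑ j, (starRingEnd ℂ) (A j l) * A j l' = if l = l' then 1 else 0) : Bd A 1 := by
  apply Bd.of_mulVec
  intro β
  rw [one_mul]
  set γ : J → ℂ := fun j => ∑ l, A j l * β l with hγ
  have h1 : ∑ j, (starRingEnd ℂ) (γ j) * γ j = ∑ l, (starRingEnd ℂ) (β l) * β l := by
    have e : ∀ j, (starRingEnd ℂ) (γ j) * γ j =
        ∑ l, ∑ l', (starRingEnd ℂ) (β l) * β l' * ((starRingEnd ℂ) (A j l) * A j l') := by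
      intro j
      rw [hγ, map_sum, sum_mul_sum]
      refine sum_congr rfl fun l _ => sum_congr rfl fun l' _ => ?_
      rw [map_mul]; ring
    simp_rw [e]
    rw [sum_comm]
    refine sum_congr rfl fun l _ => ?_
    rw [sum_comm]
    simp_rw [← mul_sum, h]
    simp
  rw [sum_conj_mul, sum_conj_mul] at h1
  have h2 : nr γ * nr γ = nr β * nr β := by exact_mod_cast h1
  have h3 := nr_nonneg γ
  have h4 := nr_nonneg β
  nlinarith

end Eng
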