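import Pool.Agent.Full.Eng.Main

/-!
# The engine, diagonal form: assembly
-/

set_option autoImplicit false

namespace Eng

open Complex Set Filter Topology Metric Ann

variable {J L : Type*} [Fintype J] [Fintype L]
variable {K m : ℕ} {t X X₂ σ C₀ : ℝ} {d : J → ℂ → ℂ} {e : L → ℂ → ℂ} {w : J → L → ℂ}

/-- `G(0) - i G(-sh)` -/
noncomputable def Xm (d : J → ℂ → ℂ) (e : L → ℂ → ℂ) (w : J → L → ℂ) : J → L → ℂ :=
  fun j l => w j l * (e l 0 - d j 0) - I * (w j l * (e l (-sh) - d j (-sh)))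

/-- its average over one shift -/
noncomputable def Am (d : J → ℂ → ℂ) (e : L → ℂ → ℂ) (w : J → L → ℂ) : J → L → ℂ :=
  fun j l => 1 / 2 * (Xm d e w j l + d j sh * Xm d e w j l * e l (-sh))

/-- the smoothed average -/
noncomputable def Fin' (d : J → ℂ → ℂ) (e : L → ℂ → ℂ) (w : J → L → ℂ) (m : ℕ) : J → L → ℂ :=
  fun j l => d j 0 ^ (20 * m) * Am d e w j l * e l 0 ^ (20 * m)

lemma pt_zero : pt 0 0 = 0 := by apply Complex.ext <;> simp

lemma pt_six : pt 0 (-(Real.pi / 6)) = -sh := by apply Complex.ext <;> simp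

lemma sh_le : |sh.im| ≤ Real.pi / 6 := by rw [sh_im, abs_of_pos (by have := Real.pi_pos; positivity)]

lemma neg_sh_le : |(-sh).im| ≤ Real.pi / 6 := by rw [neg_im, abs_neg]; exact sh_le

lemma Xm_bd (D : Data K C₀ d e w) : Bd (Xm d e w) (2 * C₀) := by
  have hC := D.hC
  have h1 := D.hG 0 (by rw [zero_im, abs_zero]; have := Real.pi_pos; positivity)
  have h2 := (D.hG (-sh) neg_sh_le).mul (a := fun _ => I) (b := fun _ => 1) (κ := 1) (κ' := 1)
    (by rw [neg_re, sh_re, neg_zero, Real.exp_zero, min_self]; linarith) (by simp) (by simp) zero_le_one zero_le_one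
  refine ((h1.sub h2).congr ?_).mono ?_
  · intro j l; unfold Xm; ring
  · rw [zero_re, neg_re, sh_re, neg_zero, Real.exp_zero, min_self]
    apply le_of_eq; ring

lemma Am_bd (D : Data K C₀ d e w) : Bd (Am d e w) (5 * C₀) := by
  have hC := D.hC
  have h1 := Xm_bd D
  have h2 := h1.mul (a := fun _ => 1 / 2) (b := fun _ => 1) (κ := 1 / 2) (κ' := 1) (by linarith) (by simp) (by simp)
    (by norm_num) zero_le_one
  have h3 := h1.mul (a := fun j => 1 / 2 * d j sh) (b := fun l => e l (-sh)) (κ := 1) (κ' := 2) (by linarith)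
    (fun j => by
      rw [norm_mul]
      have := (D.hd j).two sh sh_le
      simp
      linarith)
    (fun l => (D.he l).two (-sh) neg_sh_le) zero_le_one (by norm_num)
  refine ((h2.add h3).congr ?_).mono ?_
  · intro j l; unfold Am; ring
  · apply le_of_eq; ring

/-- the trivial bound -/
lemma Fin_trivial (D : Data K C₀ d e w) (hK : 20 * m ≤ K) : Bd (Fin' d e w m) (5 * C₀ * C2 ^ 2) := by
  have hC := D.hC
  have hC2 := C2_ge
  have h1 := (Am_bd D).mul (a := fun j => d j 0 ^ (20 * m)) (b := fun l => e l 0 ^ (20 * m)) (κ := C2) (κ' := C2)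
    (by linarith) (fun j => by rw [norm_pow]; exact pow_le_C2 (D.hd j) (D.hdr j) hK)
    (fun l => by rw [norm_pow]; exact pow_le_C2 (D.he l) (D.her l) hK) (by linarith) (by linarith)
  refine (h1.congr fun j l => rfl).mono (le_of_eq ?_)
  ring

/-- indicator of the high states -/
noncomputable def hi (K : ℕ) (X : ℝ) (f : ℂ → ℂ) : ℂ := by
  classical exact if Low K X f then 0 else 1

lemma hi_add (K : ℕ) (X : ℝ) (f : ℂ → ℂ) : 1 - hi K X f = ind K X 1 f + ind K X (-1) f := by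
  unfold hi ind
  by_cases h : Low K X f
  · rcases sg_cases f with h1 | h1
    · simp [h, h1]; norm_num
    · simp [h, h1]; norm_num
  · simp [h]

/-- constant -/
noncomputable def Hc : ℝ := (48000000 * C2) ^ 20

lemma hi_bound {f : ℂ → ℂ} (h : SE K f) (hr : IsRealF f) (p : Par K m t X) : ‖hi K X f * f 0 ^ (20 * m)‖ ≤ Hc / t ^ 60 := by
  have hC2 := C2_ge
  have ht := p.t_pos
  unfold hi
  split_ifs with hL
  · rw [zero_mul, norm_zero]; unfold Hc; positivity
  · rw [one_mul]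
    have hmK : m ≤ K := by have := p.hK; omega
    have h1 := high_pow h hr p.hm hmK hL
    have h2 := p.W_le (x := X) (by rw [abs_of_nonneg p.hX0])
    rw [← p.htm] at h1
    have h3 : ‖f 0‖ ^ m ≤ 48000000 * C2 / t ^ 3 := by
      rw [le_div_iff₀ (by positivity)]
      have h4 : ‖f 0‖ ^ m * t ^ 3 * t ^ 27 ≤ 48000000 * C2 * t ^ 27 := by
        calc ‖f 0‖ ^ m * t ^ 3 * t ^ 27 = ‖f 0‖ ^ m * t ^ 30 := by ring
          _ ≤ 24000000 * C2 * W X := h1
          _ ≤ 24000000 * C2 * (2 * t ^ 27) := by gcongr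
          _ = _ := by ring
      exact le_of_mul_le_mul_right h4 (by positivity)
    rw [norm_pow, mul_comm 20 m, pow_mul]
    calc (‖f 0‖ ^ m) ^ 20 ≤ (48000000 * C2 / t ^ 3) ^ 20 := by gcongr
      _ = Hc / t ^ 60 := by unfold Hc; rw [div_pow]; ring

lemma hi_norm (K : ℕ) (X : ℝ) (f : ℂ → ℂ) : ‖1 - hi K X f‖ ≤ 1 := by
  unfold hi
  split_ifs <;> simp

/-- equal signs, assembled -/
lemma Fin_eq (D : Data K C₀ d e w) (p : Par K m t X) (p2 : Par2 t X X₂) (hσ : σ ^ 2 = 1) :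
    Bd (fun j l => ind K X σ (d j) * Fin' d e w m j l * ind K X σ (e l)) (5 / 2 * C2 ^ 2 * Fc C₀ / t ^ 36) := by
  have hC := D.hC
  have hC2 := C2_ge
  have ht := p.t_pos
  have hF : 0 < Fc C₀ := by
    unfold Fc; have := Ec_pos hC; have := B0c_pos hC; have := B1c_pos hC; positivity
  have k := anti_sector D p p2 hσ
  have h18 : 18 * m ≤ K := by have := p.hK; omega
  have k1 := k.mul (a := fun j => 1 / 2 * d j 0 ^ (18 * m)) (b := fun l => e l 0 ^ (18 * m)) (κ := 1 / 2 * C2) (κ' := C2)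
    (by positivity)
    (fun j => by
      rw [norm_mul, norm_pow]
      have := pow_le_C2 (D.hd j) (D.hdr j) h18
      have h2 : ‖(1 / 2 : ℂ)‖ = 1 / 2 := by simp
      rw [h2]; gcongr)
    (fun l => by rw [norm_pow]; exact pow_le_C2 (D.he l) (D.her l) h18) (by linarith) (by linarith)
  have k2 := k.mul (a := fun j => 1 / 2 * (d j sh * d j 0 ^ (18 * m))) (b := fun l => e l (-sh) * e l 0 ^ (18 * m))
    (κ := C2) (κ' := 2 * C2) (by positivity)
    (fun j => by
      rw [norm_mul, norm_mul, norm_pow]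
      have h1 := pow_le_C2 (D.hd j) (D.hdr j) h18
      have h3 := (D.hd j).two sh sh_le
      have h2 : ‖(1 / 2 : ℂ)‖ = 1 / 2 := by simp
      rw [h2]
      calc 1 / 2 * (‖d j sh‖ * ‖d j 0‖ ^ (18 * m)) ≤ 1 / 2 * (2 * C2) := by gcongr
        _ = C2 := by ring)
    (fun l => by
      rw [norm_mul, norm_pow]
      exact mul_le_mul ((D.he l).two (-sh) neg_sh_le) (pow_le_C2 (D.he l) (D.her l) h18) (by positivity) (by norm_num))
    (by linarith) (by linarith)
  refine ((k1.add k2).congr ?_).mono ?_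
  · intro j l
    unfold Fin' Am Xm Bm
    rw [pt_zero, pt_six]
    ring
  · apply le_of_eq; ring

/-- opposite signs, assembled -/
lemma Fin_ne (D : Data K C₀ d e w) (p : Par K m t X) (p2 : Par2 t X X₂) (hσ : σ ^ 2 = 1) :
    Bd (fun j l => ind K X σ (d j) * Fin' d e w m j l * ind K X (-σ) (e l)) (6 * ca * C2 ^ 2 * Pc C₀ / t ^ 36) := by
  have hp := Real.pi_pos
  have hC := D.hC
  have hC2 := C2_ge
  have hca := ca_pos
  have ht := p.t_pos
  have ht1 := p.ht
  have hX0 := p.hX0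
  have hP : 0 < Pc C₀ := by
    unfold Pc; have := Ec_pos hC; have := B0c_pos hC; positivity
  have q1 := per_sector D p p2 hσ (τ := 0) (by linarith) le_rfl
  have q2 := (per_sector D p p2 hσ (τ := -(Real.pi / 6)) le_rfl (by linarith)).mul (a := fun _ => I) (b := fun _ => 1)
    (κ := 1) (κ' := 1) (by positivity) (by simp) (by simp) zero_le_one zero_le_one
  have k := q1.sub q2
  have h17 : 17 * m ≤ K := by have := p.hK; omega
  have h18 : 18 * m ≤ K := by have := p.hK; omega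
  have hmK : m ≤ K := by have := p.hK; omega
  have hns : ‖(σ : ℂ)‖ = 1 := by
    rw [Complex.norm_real, Real.norm_eq_abs]
    exact (pow_eq_one_iff_of_nonneg (abs_nonneg _) two_ne_zero).1 (by rw [sq_abs]; exact hσ)
  have hd1 : ∀ j, ‖ind K X σ (d j) * (((σ : ℂ) - d j sh) * d j 0 ^ m)‖ ≤ 2 * ca / t ^ 30 := by
    intro j
    have := F1 (X := X) (σ := σ) (D.hd j) (D.hdr j) p.hm hmK (s := sh) (by have := sh_le; linarith) (by rw [sh_re, abs_zero]; exact hX0)
    rw [sh_re, abs_zero, mul_zero, Real.exp_zero, ← p.htm] at this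
    refine this.trans (le_of_eq ?_); ring
  have he1 : ∀ l, ‖ind K X (-σ) (e l) * ((((-σ : ℝ) : ℂ) - e l (-sh)) * e l 0 ^ m)‖ ≤ 2 * ca / t ^ 30 := by
    intro l
    have := F1 (X := X) (σ := -σ) (D.he l) (D.her l) p.hm hmK (s := -sh) (by have := neg_sh_le; linarith)
      (by rw [neg_re, sh_re, neg_zero, abs_zero]; exact hX0)
    rw [neg_re, sh_re, neg_zero, abs_zero, mul_zero, Real.exp_zero, ← p.htm] at this
    refine this.trans (le_of_eq ?_); ring
  have k1 := k.mul (a := fun j => 1 / 2 * ((σ : ℂ) * d j 0 ^ (18 * m)))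
    (b := fun l => (ind K X (-σ) (e l) * ((((-σ : ℝ) : ℂ) - e l (-sh)) * e l 0 ^ m)) * e l 0 ^ (17 * m))
    (κ := 1 / 2 * C2) (κ' := 2 * ca / t ^ 30 * C2) (by positivity)
    (fun j => by
      rw [norm_mul, norm_mul, norm_pow, hns, one_mul]
      have := pow_le_C2 (D.hd j) (D.hdr j) h18
      have h2 : ‖(1 / 2 : ℂ)‖ = 1 / 2 := by simp
      rw [h2]; gcongr)
    (fun l => by
      rw [norm_mul, norm_pow]
      exact mul_le_mul (he1 l) (pow_le_C2 (D.he l) (D.her l) h17) (by positivity) (by positivity)) (by linarith) (by positivity)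
  have k2 := k.mul (a := fun j => 1 / 2 * ((ind K X σ (d j) * (((σ : ℂ) - d j sh) * d j 0 ^ m)) * d j 0 ^ (17 * m)))
    (b := fun l => e l (-sh) * e l 0 ^ (18 * m))
    (κ := 1 / 2 * (2 * ca / t ^ 30 * C2)) (κ' := 2 * C2) (by positivity)
    (fun j => by
      rw [norm_mul, norm_mul, norm_pow]
      have h2 : ‖(1 / 2 : ℂ)‖ = 1 / 2 := by simp
      rw [h2]
      have := mul_le_mul (hd1 j) (pow_le_C2 (D.hd j) (D.hdr j) h17) (by positivity) (by positivity)
      gcongr)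
    (fun l => by
      rw [norm_mul, norm_pow]
      exact mul_le_mul ((D.he l).two (-sh) neg_sh_le) (pow_le_C2 (D.he l) (D.her l) h18) (by positivity) (by norm_num))
    (by positivity) (by linarith)
  refine (((k1.add k2).neg).congr ?_).mono ?_
  · intro j l
    unfold Fin' Am Xm Bm
    rw [pt_zero, pt_six]
    have i1 := ind_sq K X σ (d j)
    have i2 := ind_sq K X (-σ) (e l)
    rcases ind_cases K X σ (d j) with hj | hj
    · rw [hj]; ring
    rcases ind_cases K X (-σ) (e l) with hl | hl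
    · rw [hl]; ring
    rw [hj.1, hl.1]
    have hs2 : (σ : ℂ) ^ 2 = 1 := by exact_mod_cast hσ
    push_cast
    have p1 : d j 0 ^ (20 * m) = d j 0 ^ (2 * m) * d j 0 ^ (18 * m) := by rw [← pow_add]; congr 1; ring
    have p2 : e l 0 ^ (20 * m) = e l 0 ^ (2 * m) * e l 0 ^ (18 * m) := by rw [← pow_add]; congr 1; ring
    have p3 : e l 0 ^ (18 * m) = e l 0 ^ m * e l 0 ^ (17 * m) := by rw [← pow_add]; congr 1; ring
    have p4 : d j 0 ^ (18 * m) = d j 0 ^ m * d j 0 ^ (17 * m) := by rw [← pow_add]; congr 1; ring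
    rw [p1, p2, p3, p4]
    set Z := d j 0 ^ (2 * m) * (d j 0 ^ m * d j 0 ^ (17 * m)) * (e l 0 ^ (2 * m) * (e l 0 ^ m * e l 0 ^ (17 * m))) *
      (w j l * (e l 0 - d j 0) - I * (w j l * (e l (-sh) - d j (-sh)))) with hZ
    linear_combination (-(1 / 2) * Z) * hs2
  · have h1 : Pc C₀ / t ^ 9 + 1 * (Pc C₀ / t ^ 9) * 1 = 2 * Pc C₀ / t ^ 9 := by ring
    rw [h1]
    have h2 : 1 / 2 * C2 * (2 * Pc C₀ / t ^ 9) * (2 * ca / t ^ 30 * C2) +
        1 / 2 * (2 * ca / t ^ 30 * C2) * (2 * Pc C₀ / t ^ 9) * (2 * C2) = 6 * ca * C2 ^ 2 * Pc C₀ * (1 / t ^ 39) := by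
      field_simp; ring
    rw [h2]
    have h3 : 1 / t ^ 39 ≤ 1 / t ^ 36 := one_div_le_one_div_of_le (by positivity) (pow_le_pow_right₀ ht1 (by norm_num))
    calc 6 * ca * C2 ^ 2 * Pc C₀ * (1 / t ^ 39) ≤ 6 * ca * C2 ^ 2 * Pc C₀ * (1 / t ^ 36) := by gcongr
      _ = _ := by ring

/-- constant -/
noncomputable def Tc (C₀ : ℝ) : ℝ := 5 * C2 ^ 2 * Fc C₀ + 12 * ca * C2 ^ 2 * Pc C₀ + 10 * C₀ * C2 * Hc

/-- large `m` -/
lemma Fin_large (D : Data K C₀ d e w) (p : Par K m t X) (p2 : Par2 t X X₂) : Bd (Fin' d e w m) (Tc C₀ / t ^ 36) := by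
  have hC := D.hC
  have hC2 := C2_ge
  have ht := p.t_pos
  have ht1 := p.ht
  have hH : 0 < Hc := by unfold Hc; positivity
  have a1 := Fin_eq D p p2 (σ := 1) (by norm_num)
  have a2 := Fin_eq D p p2 (σ := -1) (by norm_num)
  have a3 := Fin_ne D p p2 (σ := 1) (by norm_num)
  have a4 := Fin_ne D p p2 (σ := -1) (by norm_num)
  have b1 := (Am_bd D).mul (a := fun j => hi K X (d j) * d j 0 ^ (20 * m)) (b := fun l => e l 0 ^ (20 * m))
    (κ := Hc / t ^ 60) (κ' := C2) (by linarith) (fun j => hi_bound (D.hd j) (D.hdr j) p)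
    (fun l => by rw [norm_pow]; exact pow_le_C2 (D.he l) (D.her l) p.hK) (by positivity) (by linarith)
  have b2 := (Am_bd D).mul (a := fun j => (1 - hi K X (d j)) * d j 0 ^ (20 * m))
    (b := fun l => hi K X (e l) * e l 0 ^ (20 * m))
    (κ := C2) (κ' := Hc / t ^ 60) (by linarith)
    (fun j => by
      rw [norm_mul, norm_pow]
      have h1 := hi_norm K X (d j)
      have h2 := pow_le_C2 (D.hd j) (D.hdr j) p.hK
      calc ‖1 - hi K X (d j)‖ * ‖d j 0‖ ^ (20 * m) ≤ 1 * C2 := by gcongr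
        _ = C2 := one_mul _)
    (fun l => hi_bound (D.he l) (D.her l) p) (by linarith) (by positivity)
  have tot := ((((a1.add a2).add a3).add a4).add b1).add b2
  refine (tot.congr ?_).mono ?_
  · intro j l
    have h1 := hi_add K X (d j)
    have h2 := hi_add K X (e l)
    rw [neg_neg]
    have h3 : ind K X 1 (d j) * Fin' d e w m j l * ind K X 1 (e l) + ind K X (-1) (d j) * Fin' d e w m j l * ind K X (-1) (e l) +
        ind K X 1 (d j) * Fin' d e w m j l * ind K X (-1) (e l) + ind K X (-1) (d j) * Fin' d e w m j l * ind K X 1 (e l) =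
        (1 - hi K X (d j)) * Fin' d e w m j l * (1 - hi K X (e l)) := by rw [h1, h2]; ring
    rw [h3]
    unfold Fin'
    ring
  · have h3 : 1 / t ^ 60 ≤ 1 / t ^ 36 := one_div_le_one_div_of_le (by positivity) (pow_le_pow_right₀ ht1 (by norm_num))
    have h4 : Hc / t ^ 60 * (5 * C₀) * C2 ≤ 5 * C₀ * C2 * Hc * (1 / t ^ 36) := by
      calc Hc / t ^ 60 * (5 * C₀) * C2 = 5 * C₀ * C2 * Hc * (1 / t ^ 60) := by ring
        _ ≤ _ := by gcongr
    have h5 : C2 * (5 * C₀) * (Hc / t ^ 60) ≤ 5 * C₀ * C2 * Hc * (1 / t ^ 36) := by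
      calc C2 * (5 * C₀) * (Hc / t ^ 60) = 5 * C₀ * C2 * Hc * (1 / t ^ 60) := by ring
        _ ≤ _ := by gcongr
    have h6 : Tc C₀ / t ^ 36 = 5 / 2 * C2 ^ 2 * Fc C₀ / t ^ 36 + 5 / 2 * C2 ^ 2 * Fc C₀ / t ^ 36 +
        6 * ca * C2 ^ 2 * Pc C₀ / t ^ 36 + 6 * ca * C2 ^ 2 * Pc C₀ / t ^ 36 + 5 * C₀ * C2 * Hc * (1 / t ^ 36) +
        5 * C₀ * C2 * Hc * (1 / t ^ 36) := by unfold Tc; ring
    rw [h6]
    linarith

/-- final constant -/
noncomputable def Cf (C₀ : ℝ) : ℝ := Tc C₀ + 5 * C₀ * C2 ^ 2 * Real.exp 11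

/-- **The engine, diagonal form.** -/
theorem fin_bound (D : Data K C₀ d e w) (hm : 1 ≤ m) (hK : 20 * m ≤ K) :
    Bd (Fin' d e w m) (Cf C₀ * (m : ℝ) ^ (-(6 / 5) : ℝ)) := by
  have hC := D.hC
  have hC2 := C2_ge
  have hm0 : (0 : ℝ) < m := by exact_mod_cast hm
  have hm1 : (1 : ℝ) ≤ m := by exact_mod_cast hm
  set t : ℝ := (m : ℝ) ^ (1 / 30 : ℝ) with ht
  have ht0 : 0 < t := Real.rpow_pos_of_pos hm0 _
  have ht1 : 1 ≤ t := Real.one_le_rpow hm1 (by norm_num)
  have htm : t ^ 30 = m := by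
    rw [ht, ← Real.rpow_natCast, ← Real.rpow_mul hm0.le]
    norm_num
  have ht36 : (m : ℝ) ^ (-(6 / 5) : ℝ) = 1 / t ^ 36 := by
    rw [ht, ← Real.rpow_natCast, ← Real.rpow_mul hm0.le, one_div, ← Real.rpow_neg hm0.le]
    congr 1
    norm_num
  rw [ht36]
  have hTc : 0 < Tc C₀ := by
    unfold Tc Fc Pc Hc
    have := Ec_pos hC; have := B0c_pos hC; have := B1c_pos hC; have := ca_pos
    positivity
  have hexp := Real.exp_pos 11
  rcases le_total (3 / 10) (Real.log t) with hl | hl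
  · have hX : Real.exp (9 * Real.log t) = t ^ 9 := by
      have := Real.exp_nat_mul (Real.log t) 9
      rw [Real.exp_log ht0] at this
      rw [← this]; norm_num
    have p : Par K m t (9 * Real.log t) := ⟨hm, hK, ht1, htm, hX, by linarith⟩
    have p2 : Par2 t (9 * Real.log t) (10 / 3 * Real.log t) := by
      refine ⟨by linarith, by linarith, by linarith, ?_⟩
      have := Real.exp_nat_mul (Real.log t) 10
      rw [Real.exp_log ht0] at this
      rw [← this]; congr 1; push_cast; ring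
    refine (Fin_large D p p2).mono ?_
    unfold Cf
    have h2 : 0 ≤ 5 * C₀ * C2 ^ 2 * Real.exp 11 * (1 / t ^ 36) := by positivity
    have h3 : (Tc C₀ + 5 * C₀ * C2 ^ 2 * Real.exp 11) * (1 / t ^ 36) = Tc C₀ / t ^ 36 + 5 * C₀ * C2 ^ 2 * Real.exp 11 * (1 / t ^ 36) := by
      ring
    rw [h3]; linarith
  · refine (Fin_trivial D hK).mono ?_
    have h1 : t ^ 36 ≤ Real.exp 11 := by
      have h2 := Real.exp_nat_mul (Real.log t) 36
      rw [Real.exp_log ht0] at h2
      rw [← h2]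
      apply Real.exp_le_exp.2
      push_cast; linarith
    have h2 : 1 ≤ Real.exp 11 * (1 / t ^ 36) := by
      rw [mul_one_div, le_div_iff₀ (by positivity), one_mul]; exact h1
    unfold Cf
    have h3 : 0 ≤ Tc C₀ * (1 / t ^ 36) := by positivity
    calc 5 * C₀ * C2 ^ 2 = 5 * C₀ * C2 ^ 2 * 1 := by ring
      _ ≤ 5 * C₀ * C2 ^ 2 * (Real.exp 11 * (1 / t ^ 36)) := by gcongr
      _ ≤ (Tc C₀ + 5 * C₀ * C2 ^ 2 * Real.exp 11) * (1 / t ^ 36) := by linarith

end Eng
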