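import Pool.Agent.Full.Eng.Sector

/-!
# The engine, diagonal form

`fin_bound`: after smoothing, `G` is the pure mode `exp (3 s)`, up to `m ^ (-6/5)`.
-/

set_option autoImplicit false

namespace Eng

open Complex Set Filter Topology Metric Ann

variable {J L : Type*} [Fintype J] [Fintype L]
variable {K m : ℕ} {t X X₂ σ C₀ : ℝ} {d : J → ℂ → ℂ} {e : L → ℂ → ℂ} {w : J → L → ℂ}

lemma B0c_pos (hC : 1 ≤ C₀) : 0 < B0c C₀ := by
  unfold B0c; have := C2_ge; have := Yc_pos; positivity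

lemma B1c_pos (hC : 1 ≤ C₀) : 0 < B1c C₀ := by
  unfold B1c; have := C2_ge; have := ca_pos; positivity

/-- constant -/
noncomputable def Ec (C₀ : ℝ) : ℝ := 5 * ca * C2 * (B0c C₀ + B1c C₀) + 3 * C2 ^ 2 * C₀ * Yc

lemma Ec_pos (hC : 1 ≤ C₀) : 0 < Ec C₀ := by
  unfold Ec; have := C2_ge; have := ca_pos; have := Yc_pos; have := B0c_pos hC; have := B1c_pos hC; positivity

lemma pt_bot_im : |(pt 0 (-(Real.pi / 4))).im| ≤ Real.pi / 4 := by
  rw [pt_im, abs_neg, abs_of_pos (by have := Real.pi_pos; positivity)]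

/-- antiperiodic error, left half -/
lemma Er_anti_left (D : Data K C₀ d e w) (p : Par K m t X) (hσ : σ ^ 2 = 1) {x : ℝ} (hx : x ∈ Icc (-X) 0) :
    Bd (fun j l => Bm K X σ σ d e w (2 * m) (pt x (Real.pi / 12)) j l +
      Bm K X σ σ d e w (2 * m) (pt x (-(Real.pi / 4))) j l) (Ec C₀ / t ^ 36 * Real.exp (-(3 * x) + 1 / 5 * x)) := by
  have hp := Real.pi_pos
  have hC := D.hC
  have hC2 := C2_ge
  have hca := ca_pos
  have hYc := Yc_pos
  have hB0 := B0c_pos hC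
  have hB1 := B1c_pos hC
  have ht := p.t_pos
  have ht1 := p.ht
  have hm0 : (0 : ℝ) < m := by exact_mod_cast p.hm
  have hxX : |x| ≤ X := by rw [abs_of_nonpos hx.2]; linarith [hx.1]
  have hmK : m ≤ K := by have := p.hK; omega
  set β := (B0c C₀ + B1c C₀) * (Real.exp (1 / 5 * x) / t ^ 6) with hβ
  have hβ0 : 0 ≤ β := by positivity
  have hBβ : Bd (Bm K X σ σ d e w m (pt x (-(Real.pi / 4)))) β := by
    rcases le_total (Real.exp x) (Real.exp (1 / 5 * x) / t ^ 6) with h1 | h1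
    · have k := B0 (σ := σ) (σ' := σ) D p hmK (s := pt x (-(Real.pi / 4))) (by rw [pt_im]) (by rw [pt_im]; linarith)
        (by rw [pt_re]; exact hxX)
      refine k.mono ?_
      rw [pt_re]
      have h2 : min 1 (Real.exp x) ≤ Real.exp (1 / 5 * x) / t ^ 6 := (min_le_right _ _).trans h1
      rw [hβ]
      have h3 := min_nonneg' x
      nlinarith
    · have k := B1 (σ := σ) (X := X) D p.hm hmK (s := pt x (-(Real.pi / 4))) (by rw [pt_im, abs_neg, abs_of_pos (by positivity)])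
        (by rw [pt_re]; exact hxX)
      refine k.mono ?_
      rw [pt_re, abs_of_nonpos hx.2, ← p.htm]
      -- `e^{-3x}/t^30 ≤ e^{x/5}/t^6`
      have h2 : Real.exp (3 * -x) / t ^ 30 ≤ Real.exp (1 / 5 * x) / t ^ 6 := by
        have h3 : 1 ≤ Real.exp (4 / 5 * x) * t ^ 6 := by
          have h4 : Real.exp x = Real.exp (1 / 5 * x) * Real.exp (4 / 5 * x) := by rw [← Real.exp_add]; congr 1; ring
          rw [h4, div_le_iff₀ (by positivity)] at h1
          have h5 := Real.exp_pos (1 / 5 * x)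
          have h6 : Real.exp (1 / 5 * x) * 1 ≤ Real.exp (1 / 5 * x) * (Real.exp (4 / 5 * x) * t ^ 6) := by linarith
          exact le_of_mul_le_mul_left h6 h5
        have h7 : 1 ≤ (Real.exp (4 / 5 * x) * t ^ 6) ^ 4 := one_le_pow₀ h3
        have h8 : (Real.exp (4 / 5 * x) * t ^ 6) ^ 4 = Real.exp (16 / 5 * x) * t ^ 24 := by
          rw [mul_pow, ← Real.exp_nat_mul, ← pow_mul]
          have e1 : ((4 : ℕ) : ℝ) * (4 / 5 * x) = 16 / 5 * x := by push_cast; ring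
          rw [e1]
        rw [h8] at h7
        rw [div_le_div_iff₀ (by positivity) (by positivity)]
        have h9 : Real.exp (1 / 5 * x) = Real.exp (3 * -x) * Real.exp (16 / 5 * x) := by rw [← Real.exp_add]; congr 1; ring
        rw [h9]
        have h10 := Real.exp_pos (3 * -x)
        calc Real.exp (3 * -x) * t ^ 6 = Real.exp (3 * -x) * t ^ 6 * 1 := by ring
          _ ≤ Real.exp (3 * -x) * t ^ 6 * (Real.exp (16 / 5 * x) * t ^ 24) := by gcongr
          _ = Real.exp (3 * -x) * Real.exp (16 / 5 * x) * t ^ 30 := by ring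
      rw [hβ]
      have h3 : 0 ≤ Real.exp (1 / 5 * x) / t ^ 6 := by positivity
      nlinarith
  have k := Er D p hσ hxX hβ0 hBβ
  have e1 : ((σ * σ : ℝ) : ℂ) = 1 := by rw [← sq, hσ]; norm_num
  rw [e1] at k
  refine (k.congr fun j l => by ring).mono ?_
  rw [abs_of_nonpos hx.2, ← p.htm, hβ]
  have h1 : Real.exp (-(3 * x) + 1 / 5 * x) = Real.exp (1 / 5 * x) * Real.exp (3 * -x) := by
    rw [← Real.exp_add]; congr 1; ring
  have h2 : 1 ≤ Real.exp (-(3 * x) + 1 / 5 * x) := Real.one_le_exp (by linarith [hx.2])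
  have h3 : Yc / t ^ 90 ≤ Yc / t ^ 36 * Real.exp (-(3 * x) + 1 / 5 * x) := by
    calc Yc / t ^ 90 ≤ Yc / t ^ 36 := by
          apply div_le_div_of_nonneg_left hYc.le (by positivity)
          exact pow_le_pow_right₀ ht1 (by norm_num)
      _ ≤ _ := le_mul_of_one_le_right (by positivity) h2
  have h4 : 3 * C2 ^ 2 * C₀ * (Yc / t ^ 90) ≤ 3 * C2 ^ 2 * C₀ * (Yc / t ^ 36 * Real.exp (-(3 * x) + 1 / 5 * x)) := by gcongr
  refine (add_le_add_right h4 _).trans (le_of_eq ?_)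
  unfold Ec
  rw [h1]
  field_simp

/-- antiperiodic error, right half -/
lemma Er_anti_right (D : Data K C₀ d e w) (p : Par K m t X) (hσ : σ ^ 2 = 1) {x : ℝ} (hx : x ∈ Icc 0 X) :
    Bd (fun j l => Bm K X σ σ d e w (2 * m) (pt x (Real.pi / 12)) j l +
      Bm K X σ σ d e w (2 * m) (pt x (-(Real.pi / 4))) j l) (Ec C₀ / t ^ 60 * Real.exp (6 * x)) := by
  have hp := Real.pi_pos
  have hC := D.hC
  have hC2 := C2_ge
  have hca := ca_pos
  have hYc := Yc_pos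
  have hB0 := B0c_pos hC
  have hB1 := B1c_pos hC
  have ht := p.t_pos
  have ht1 := p.ht
  have hm0 : (0 : ℝ) < m := by exact_mod_cast p.hm
  have hxX : |x| ≤ X := by rw [abs_of_nonneg hx.1]; exact hx.2
  have hmK : m ≤ K := by have := p.hK; omega
  have hBβ := B1 (σ := σ) (X := X) D p.hm hmK (s := pt x (-(Real.pi / 4))) (by rw [pt_im, abs_neg, abs_of_pos (by positivity)])
        (by rw [pt_re]; exact hxX)
  rw [pt_re] at hBβ
  have k := Er D p hσ hxX (by positivity) hBβ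
  have e1 : ((σ * σ : ℝ) : ℂ) = 1 := by rw [← sq, hσ]; norm_num
  rw [e1] at k
  refine (k.congr fun j l => by ring).mono ?_
  rw [abs_of_nonneg hx.1, ← p.htm]
  have h1 : Real.exp (6 * x) = Real.exp (3 * x) * Real.exp (3 * x) := by rw [← Real.exp_add]; congr 1; ring
  have h2 : 1 ≤ Real.exp (6 * x) := Real.one_le_exp (by linarith [hx.1])
  have h3 : Yc / t ^ 90 ≤ Yc / t ^ 60 * Real.exp (6 * x) := by
    calc Yc / t ^ 90 ≤ Yc / t ^ 60 := by
          apply div_le_div_of_nonneg_left hYc.le (by positivity)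
          exact pow_le_pow_right₀ ht1 (by norm_num)
      _ ≤ _ := le_mul_of_one_le_right (by positivity) h2
  have h4 : 3 * C2 ^ 2 * C₀ * (Yc / t ^ 90) ≤ 3 * C2 ^ 2 * C₀ * (Yc / t ^ 60 * Real.exp (6 * x)) := by gcongr
  have h5 : 5 * ca * C2 * (B1c C₀ * (Real.exp (3 * x) / t ^ 30) * (Real.exp (3 * x) / t ^ 30)) =
      5 * ca * C2 * B1c C₀ / t ^ 60 * Real.exp (6 * x) := by
    rw [h1]; field_simp
  rw [h5]
  refine (add_le_add_right h4 _).trans ?_
  unfold Ec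
  have h6 : 0 ≤ 5 * ca * C2 * B0c C₀ / t ^ 60 * Real.exp (6 * x) := by positivity
  have h7 : (5 * ca * C2 * (B0c C₀ + B1c C₀) + 3 * C2 ^ 2 * C₀ * Yc) / t ^ 60 * Real.exp (6 * x) =
      5 * ca * C2 * B0c C₀ / t ^ 60 * Real.exp (6 * x) + (5 * ca * C2 * B1c C₀ / t ^ 60 * Real.exp (6 * x) +
      3 * C2 ^ 2 * C₀ * (Yc / t ^ 60 * Real.exp (6 * x))) := by ring
  rw [h7]
  linarith

/-- periodic error -/
lemma Er_per (D : Data K C₀ d e w) (p : Par K m t X) (hσ : σ ^ 2 = 1) {x : ℝ} (hx : |x| ≤ X) :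
    Bd (fun j l => Bm K X σ (-σ) d e w (2 * m) (pt x (Real.pi / 12)) j l -
      Bm K X σ (-σ) d e w (2 * m) (pt x (-(Real.pi / 4))) j l)
      (Ec C₀ / t ^ 30 * (min 1 (Real.exp x) * Real.exp (3 * |x|))) := by
  have hp := Real.pi_pos
  have hC := D.hC
  have hC2 := C2_ge
  have hca := ca_pos
  have hYc := Yc_pos
  have hB0 := B0c_pos hC
  have hB1 := B1c_pos hC
  have ht := p.t_pos
  have ht1 := p.ht
  have hm0 : (0 : ℝ) < m := by exact_mod_cast p.hm
  have hmK : m ≤ K := by have := p.hK; omega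
  have hmn := min_nonneg' x
  have hBβ := B0 (σ := σ) (σ' := -σ) D p hmK (s := pt x (-(Real.pi / 4))) (by rw [pt_im]) (by rw [pt_im]; linarith)
        (by rw [pt_re]; exact hx)
  rw [pt_re] at hBβ
  have k := Er D p (by rw [neg_sq]; exact hσ) hx (by positivity) hBβ
  have e1 : ((σ * -σ : ℝ) : ℂ) = -1 := by
    have : σ * -σ = -(σ ^ 2) := by ring
    rw [this, hσ]; norm_num
  rw [e1] at k
  refine (k.congr fun j l => by ring).mono ?_
  rw [← p.htm]
  -- `1/t^60 ≤ min 1 e^x * e^{3|x|}`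
  have h2 : 1 ≤ min 1 (Real.exp x) * Real.exp (3 * |x|) := by
    rcases le_total 0 x with h | h
    · rw [min_eq_left (Real.one_le_exp h), one_mul]
      exact Real.one_le_exp (by positivity)
    · rw [min_eq_right (Real.exp_le_one_iff.2 h), abs_of_nonpos h, ← Real.exp_add]
      exact Real.one_le_exp (by linarith)
  have h3 : Yc / t ^ 90 ≤ Yc / t ^ 30 * (min 1 (Real.exp x) * Real.exp (3 * |x|)) := by
    calc Yc / t ^ 90 ≤ Yc / t ^ 30 := by
          apply div_le_div_of_nonneg_left hYc.le (by positivity)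
          exact pow_le_pow_right₀ ht1 (by norm_num)
      _ ≤ _ := le_mul_of_one_le_right (by positivity) h2
  have h4 : 3 * C2 ^ 2 * C₀ * (Yc / t ^ 90) ≤ 3 * C2 ^ 2 * C₀ * (Yc / t ^ 30 * (min 1 (Real.exp x) * Real.exp (3 * |x|))) := by
    gcongr
  refine (add_le_add_right h4 _).trans ?_
  unfold Ec
  set u := min 1 (Real.exp x) * Real.exp (3 * |x|) with hu
  have hu0 : 0 ≤ u := by positivity
  have h5 : 5 * ca * C2 * (B0c C₀ * min 1 (Real.exp x) * (Real.exp (3 * |x|) / t ^ 30)) = 5 * ca * C2 * B0c C₀ / t ^ 30 * u := by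
    rw [hu]; field_simp
  have h6 : 0 ≤ 5 * ca * C2 * B1c C₀ / t ^ 30 * u := by positivity
  rw [h5]
  have h7 : (5 * ca * C2 * (B0c C₀ + B1c C₀) + 3 * C2 ^ 2 * C₀ * Yc) / t ^ 30 * u =
      5 * ca * C2 * B1c C₀ / t ^ 30 * u + (5 * ca * C2 * B0c C₀ / t ^ 30 * u + 3 * C2 ^ 2 * C₀ * (Yc / t ^ 30 * u)) := by ring
  rw [h7]
  linarith

lemma Bm_diff (D : Data K C₀ d e w) {q : ℕ} {X σ σ' : ℝ} (α : J → ℂ) (β : L → ℂ) {s : ℂ} (hs : |s.im| < Real.pi / 2) :
    DifferentiableAt ℂ (fun z => Bf (Bm K X σ σ' d e w q z) α β) s := by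
  refine Bf_diff (fun j l => ?_) α β
  unfold Bm
  exact ((((D.he l).diff s hs).sub ((D.hd j).diff s hs)).const_mul _ |>.const_mul _).mul_const _

/-- second parameter -/
structure Par2 (t X X₂ : ℝ) : Prop where
  h1 : 1 ≤ X
  h2 : 1 ≤ X₂
  h3 : X₂ ≤ X
  h4 : Real.exp (3 * X₂) = t ^ 10

/-- constant -/
noncomputable def Fc (C₀ : ℝ) : ℝ := 16 * Ec C₀ + 5 * B0c C₀ + 15 * B1c C₀

/-- constant -/
noncomputable def Pc (C₀ : ℝ) : ℝ := 3 * Ec C₀ + 25 * B0c C₀

lemma exp_neg_pow {t Y : ℝ} {a b : ℕ} (_ht : 0 < t) (h : Real.exp Y = t ^ a) (c : ℝ) (hc : c = b * Y) :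
    Real.exp (-c) = 1 / t ^ (a * b) := by
  rw [Real.exp_neg, hc, Real.exp_nat_mul, h, ← pow_mul, one_div]

/-- **equal signs** -/
lemma anti_sector (D : Data K C₀ d e w) (p : Par K m t X) (p2 : Par2 t X X₂) (hσ : σ ^ 2 = 1) :
    Bd (fun j l => Bm K X σ σ d e w (2 * m) (pt 0 0) j l - I * Bm K X σ σ d e w (2 * m) (pt 0 (-(Real.pi / 6))) j l)
      (Fc C₀ / t ^ 36) := by
  intro α β
  have hp := Real.pi_pos
  have hC := D.hC
  have hB0 := B0c_pos hC
  have hB1 := B1c_pos hC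
  have hE := Ec_pos hC
  have ht := p.t_pos
  have ht1 := p.ht
  have h2mK : 2 * m ≤ K := by have := p.hK; omega
  have h2m1 : 1 ≤ 2 * m := by have := p.hm; omega
  have hm0 : (0 : ℝ) < m := by exact_mod_cast p.hm
  set Nn := nr α * nr β with hNn
  have hN : 0 ≤ Nn := mul_nonneg (nr_nonneg _) (nr_nonneg _)
  set h : ℂ → ℂ := fun z => Bf (Bm K X σ σ d e w (2 * m) z) α β with hh
  have hd : ∀ s : ℂ, |s.im| < Real.pi / 2 → DifferentiableAt ℂ h s := fun s hs => Bm_diff D α β hs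
  -- bounds
  have b1 : ∀ s : ℂ, |s.im| ≤ Real.pi / 4 → |s.re| ≤ X → ‖h s‖ ≤ B1c C₀ * (Real.exp (3 * |s.re|) / t ^ 30) * Nn := by
    intro s hs1 hs2
    have k := B1 (σ := σ) D h2m1 h2mK hs1 hs2 α β
    refine k.trans ?_
    rw [mul_assoc (_ * _) (nr α), ← hNn]
    have h3 : Real.exp (3 * |s.re|) / ((2 * m : ℕ) : ℝ) ≤ Real.exp (3 * |s.re|) / t ^ 30 := by
      rw [p.htm]
      apply div_le_div_of_nonneg_left (Real.exp_pos _).le hm0
      push_cast; linarith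
    gcongr
  have b0 : ∀ s : ℂ, -(Real.pi / 4) ≤ s.im → s.im ≤ Real.pi / 6 → |s.re| ≤ X → ‖h s‖ ≤ B0c C₀ * min 1 (Real.exp s.re) * Nn := by
    intro s hs1 hs2 hs3
    have k := B0 (σ := σ) (σ' := σ) D p h2mK hs1 hs2 hs3 α β
    refine k.trans (le_of_eq ?_)
    rw [mul_assoc (_ * _) (nr α), ← hNn]
  have hX0 := p.hX0
  have e3X : Real.exp (-(3 * X)) = 1 / t ^ 27 := by
    rw [exp_neg_pow (b := 3) ht p.hX (3 * X) (by push_cast; ring)]
  have e6X : Real.exp (-(6 * X)) = 1 / t ^ 54 := by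
    rw [exp_neg_pow (b := 6) ht p.hX (6 * X) (by push_cast; ring)]
  have e9X : Real.exp (-(9 * X₂)) = 1 / t ^ 30 := by
    rw [exp_neg_pow (b := 3) ht p2.h4 (9 * X₂) (by push_cast; ring)]
  have e6X2 : Real.exp (-(6 * X₂)) = 1 / t ^ 20 := by
    rw [exp_neg_pow (b := 2) ht p2.h4 (6 * X₂) (by push_cast; ring)]
  have key := anti_final (h := h) hd p2.h1 p2.h2 (a₀ := B1c C₀ / t ^ 30 * Nn) (a₁ := B0c C₀ / t ^ 9 * Nn)
    (a₂ := B1c C₀ / t ^ 20 * Nn) (e₁ := Ec C₀ / t ^ 36 * Nn) (e₂ := Ec C₀ / t ^ 60 * Nn) ?_ ?_ ?_ ?_ ?_ ?_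
  · have e : Bf (fun j l => Bm K X σ σ d e w (2 * m) (pt 0 0) j l - I * Bm K X σ σ d e w (2 * m) (pt 0 (-(Real.pi / 6))) j l) α β =
        h (pt 0 0) - I * h (pt 0 (-(Real.pi / 6))) := by
      simp only [hh, Bf, Finset.mul_sum, ← Finset.sum_sub_distrib]
      refine Finset.sum_congr rfl fun j _ => Finset.sum_congr rfl fun l _ => ?_
      ring
    rw [e]
    refine key.trans ?_
    rw [e3X, e6X, e9X, e6X2, p2.h4, mul_assoc (_ / _) (nr α), ← hNn]
    have g : ∀ n : ℕ, 36 ≤ n → 1 / t ^ n ≤ 1 / t ^ 36 := fun n hn =>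
      one_div_le_one_div_of_le (by positivity) (pow_le_pow_right₀ ht1 hn)
    have r1 : Ec C₀ / t ^ 60 * Nn * t ^ 10 ≤ Ec C₀ * (1 / t ^ 36) * Nn := by
      have : Ec C₀ / t ^ 60 * Nn * t ^ 10 = Ec C₀ * (1 / t ^ 50) * Nn := by field_simp
      rw [this]
      have := g 50 (by norm_num)
      gcongr
    have r2 : 1 / t ^ 27 * (B0c C₀ / t ^ 9 * Nn) = B0c C₀ * (1 / t ^ 36) * Nn := by field_simp
    have r3 : 1 / t ^ 54 * (B1c C₀ / t ^ 30 * Nn) ≤ B1c C₀ * (1 / t ^ 36) * Nn := by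
      have : 1 / t ^ 54 * (B1c C₀ / t ^ 30 * Nn) = B1c C₀ * (1 / t ^ 84) * Nn := by field_simp
      rw [this]
      have := g 84 (by norm_num)
      gcongr
    have r4 : 1 / t ^ 30 * (B1c C₀ / t ^ 20 * Nn) ≤ B1c C₀ * (1 / t ^ 36) * Nn := by
      have : 1 / t ^ 30 * (B1c C₀ / t ^ 20 * Nn) = B1c C₀ * (1 / t ^ 50) * Nn := by field_simp
      rw [this]
      have := g 50 (by norm_num)
      gcongr
    have r5 : 1 / t ^ 20 * (B1c C₀ / t ^ 30 * Nn) ≤ B1c C₀ * (1 / t ^ 36) * Nn := by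
      have : 1 / t ^ 20 * (B1c C₀ / t ^ 30 * Nn) = B1c C₀ * (1 / t ^ 50) * Nn := by field_simp
      rw [this]
      have := g 50 (by norm_num)
      gcongr
    have r6 : 15 * (Ec C₀ / t ^ 36 * Nn) = 15 * (Ec C₀ * (1 / t ^ 36) * Nn) := by ring
    have r7 : Fc C₀ / t ^ 36 * Nn = 16 * (Ec C₀ * (1 / t ^ 36) * Nn) + 5 * (B0c C₀ * (1 / t ^ 36) * Nn) +
        15 * (B1c C₀ * (1 / t ^ 36) * Nn) := by unfold Fc; ring
    rw [r7, r6, r2]
    linarith
  · have := b1 (pt 0 0) (by rw [pt_im, abs_zero]; positivity) (by rw [pt_re, abs_zero]; exact hX0)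
    rw [pt_re, abs_zero, mul_zero, Real.exp_zero] at this
    refine this.trans (le_of_eq ?_); ring
  · have := b1 (pt 0 (-(Real.pi / 6))) (by rw [pt_im, abs_neg, abs_of_pos (by positivity)]; linarith)
      (by rw [pt_re, abs_zero]; exact hX0)
    rw [pt_re, abs_zero, mul_zero, Real.exp_zero] at this
    refine this.trans (le_of_eq ?_); ring
  · intro y hy
    have := b0 (pt (-X) y) (by rw [pt_im]; exact hy.1) (by rw [pt_im]; linarith [hy.2])
      (by rw [pt_re, abs_neg, abs_of_nonneg hX0])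
    refine this.trans ?_
    rw [pt_re]
    have h3 : min 1 (Real.exp (-X)) ≤ 1 / t ^ 9 := by
      refine (min_le_right _ _).trans (le_of_eq ?_)
      rw [Real.exp_neg, p.hX, one_div]
    calc B0c C₀ * min 1 (Real.exp (-X)) * Nn ≤ B0c C₀ * (1 / t ^ 9) * Nn := by gcongr
      _ = _ := by ring
  · intro y hy
    have := b1 (pt X₂ y) (by rw [pt_im, abs_le]; constructor <;> linarith [hy.1, hy.2])
      (by rw [pt_re, abs_of_nonneg (by linarith [p2.h2])]; exact p2.h3)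
    refine this.trans (le_of_eq ?_)
    rw [pt_re, abs_of_nonneg (by linarith [p2.h2]), p2.h4]
    field_simp
  · intro x hx
    have := Er_anti_left D p hσ hx α β
    have e : Bf (fun j l => Bm K X σ σ d e w (2 * m) (pt x (Real.pi / 12)) j l +
        Bm K X σ σ d e w (2 * m) (pt x (-(Real.pi / 4))) j l) α β = h (pt x (-(Real.pi / 4))) + h (pt x (Real.pi / 12)) := by
      simp only [hh, Bf, ← Finset.sum_add_distrib]
      refine Finset.sum_congr rfl fun j _ => Finset.sum_congr rfl fun l _ => ?_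
      ring
    rw [e] at this
    refine this.trans (le_of_eq ?_)
    rw [hNn]; ring
  · intro x hx
    have := Er_anti_right D p hσ ⟨hx.1, hx.2.trans p2.h3⟩ α β
    have e : Bf (fun j l => Bm K X σ σ d e w (2 * m) (pt x (Real.pi / 12)) j l +
        Bm K X σ σ d e w (2 * m) (pt x (-(Real.pi / 4))) j l) α β = h (pt x (-(Real.pi / 4))) + h (pt x (Real.pi / 12)) := by
      simp only [hh, Bf, ← Finset.sum_add_distrib]
      refine Finset.sum_congr rfl fun j _ => Finset.sum_congr rfl fun l _ => ?_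
      ring
    rw [e] at this
    refine this.trans (le_of_eq ?_)
    rw [hNn]; ring

/-- **opposite signs** -/
lemma per_sector (D : Data K C₀ d e w) (p : Par K m t X) (p2 : Par2 t X X₂) (hσ : σ ^ 2 = 1) {τ : ℝ}
    (hτ0 : -(Real.pi / 6) ≤ τ) (hτ1 : τ ≤ 0) :
    Bd (Bm K X σ (-σ) d e w (2 * m) (pt 0 τ)) (Pc C₀ / t ^ 9) := by
  intro α β
  have hp := Real.pi_pos
  have hC := D.hC
  have hB0 := B0c_pos hC
  have hB1 := B1c_pos hC
  have hE := Ec_pos hC
  have ht := p.t_pos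
  have ht1 := p.ht
  have h2mK : 2 * m ≤ K := by have := p.hK; omega
  have h2m1 : 1 ≤ 2 * m := by have := p.hm; omega
  have hm0 : (0 : ℝ) < m := by exact_mod_cast p.hm
  set Nn := nr α * nr β with hNn
  have hN : 0 ≤ Nn := mul_nonneg (nr_nonneg _) (nr_nonneg _)
  set h : ℂ → ℂ := fun z => Bf (Bm K X σ (-σ) d e w (2 * m) z) α β with hh
  have hd : ∀ s : ℂ, |s.im| < Real.pi / 2 → DifferentiableAt ℂ h s := fun s hs => Bm_diff D α β hs
  have b0 : ∀ s : ℂ, -(Real.pi / 4) ≤ s.im → s.im ≤ Real.pi / 6 → |s.re| ≤ X → ‖h s‖ ≤ B0c C₀ * min 1 (Real.exp s.re) * Nn := by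
    intro s hs1 hs2 hs3
    have k := B0 (σ := σ) (σ' := -σ) D p h2mK hs1 hs2 hs3 α β
    refine k.trans (le_of_eq ?_)
    rw [mul_assoc (_ * _) (nr α), ← hNn]
  have hX0 := p.hX0
  have e6X : Real.exp (-(6 * X)) = 1 / t ^ 54 := by
    rw [exp_neg_pow (b := 6) ht p.hX (6 * X) (by push_cast; ring)]
  have e6X2 : Real.exp (-(6 * X₂)) = 1 / t ^ 20 := by
    rw [exp_neg_pow (b := 2) ht p2.h4 (6 * X₂) (by push_cast; ring)]
  have e2X : Real.exp (2 * X) = t ^ 18 := by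
    have : Real.exp (2 * X) = Real.exp X ^ 2 := by rw [← Real.exp_nat_mul]; norm_num
    rw [this, p.hX]; ring
  have b0' : ∀ s : ℂ, -(Real.pi / 4) ≤ s.im → s.im ≤ Real.pi / 6 → |s.re| ≤ X → ‖h s‖ ≤ B0c C₀ * Nn := by
    intro s hs1 hs2 hs3
    refine (b0 s hs1 hs2 hs3).trans ?_
    have : min 1 (Real.exp s.re) ≤ 1 := min_le_left _ _
    calc B0c C₀ * min 1 (Real.exp s.re) * Nn ≤ B0c C₀ * 1 * Nn := by gcongr
      _ = _ := by ring
  have herr : ∀ x : ℝ, |x| ≤ X → ‖h (pt x (-(Real.pi / 4))) - h (pt x (Real.pi / 12))‖ ≤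
      Ec C₀ / t ^ 30 * (min 1 (Real.exp x) * Real.exp (3 * |x|)) * Nn := by
    intro x hx
    have := Er_per D p hσ hx α β
    have e : Bf (fun j l => Bm K X σ (-σ) d e w (2 * m) (pt x (Real.pi / 12)) j l -
        Bm K X σ (-σ) d e w (2 * m) (pt x (-(Real.pi / 4))) j l) α β = h (pt x (Real.pi / 12)) - h (pt x (-(Real.pi / 4))) := by
      simp only [hh, Bf, ← Finset.sum_sub_distrib]
      refine Finset.sum_congr rfl fun j _ => Finset.sum_congr rfl fun l _ => ?_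
      ring
    rw [e, norm_sub_rev] at this
    refine this.trans (le_of_eq ?_)
    rw [hNn]; ring
  have key := per_est (h := h) hd hτ0 hτ1 p2.h1 p2.h2 (a₀ := B0c C₀ * Nn) (a₁ := B0c C₀ / t ^ 9 * Nn)
    (a₂ := B0c C₀ * Nn) (e₁ := Ec C₀ / t ^ 30 * Nn) (e₂ := Ec C₀ / t ^ 30 * Nn) ?_ ?_ ?_ ?_ ?_
  · refine key.trans ?_
    rw [e6X, e6X2, e2X, mul_assoc (_ / _) (nr α), ← hNn]
    have g : ∀ n : ℕ, 9 ≤ n → 1 / t ^ n ≤ 1 / t ^ 9 := fun n hn =>
      one_div_le_one_div_of_le (by positivity) (pow_le_pow_right₀ ht1 hn)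
    have r1 : 2 * (Ec C₀ / t ^ 30 * Nn) * t ^ 18 ≤ 2 * (Ec C₀ * (1 / t ^ 9) * Nn) := by
      have : 2 * (Ec C₀ / t ^ 30 * Nn) * t ^ 18 = 2 * (Ec C₀ * (1 / t ^ 12) * Nn) := by field_simp
      rw [this]
      have := g 12 (by norm_num)
      gcongr
    have r2 : Ec C₀ / t ^ 30 * Nn ≤ Ec C₀ * (1 / t ^ 9) * Nn := by
      have : Ec C₀ / t ^ 30 * Nn = Ec C₀ * (1 / t ^ 30) * Nn := by ring
      rw [this]
      have := g 30 (by norm_num)
      gcongr
    have hone : 1 / t ^ 9 ≤ 1 := by rw [div_le_one (by positivity)]; exact one_le_pow₀ ht1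
    have r3 : B0c C₀ / t ^ 9 * Nn = B0c C₀ * (1 / t ^ 9) * Nn := by ring
    have r4 : 1 / t ^ 54 * (B0c C₀ / t ^ 9 * Nn + B0c C₀ * Nn) ≤ 2 * (B0c C₀ * (1 / t ^ 9) * Nn) := by
      have h5 := g 54 (by norm_num)
      have h6 : B0c C₀ / t ^ 9 * Nn ≤ B0c C₀ * Nn := by
        rw [r3]
        calc B0c C₀ * (1 / t ^ 9) * Nn ≤ B0c C₀ * 1 * Nn := by gcongr
          _ = _ := by ring
      calc 1 / t ^ 54 * (B0c C₀ / t ^ 9 * Nn + B0c C₀ * Nn) ≤ 1 / t ^ 9 * (B0c C₀ * Nn + B0c C₀ * Nn) := by gcongr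
        _ = _ := by ring
    have r5 : 1 / t ^ 20 * (B0c C₀ * Nn + B0c C₀ * Nn) ≤ 2 * (B0c C₀ * (1 / t ^ 9) * Nn) := by
      have h5 := g 20 (by norm_num)
      calc 1 / t ^ 20 * (B0c C₀ * Nn + B0c C₀ * Nn) ≤ 1 / t ^ 9 * (B0c C₀ * Nn + B0c C₀ * Nn) := by gcongr
        _ = _ := by ring
    have r7 : Pc C₀ / t ^ 9 * Nn = 3 * (Ec C₀ * (1 / t ^ 9) * Nn) + 25 * (B0c C₀ * (1 / t ^ 9) * Nn) := by unfold Pc; ring
    rw [r7]
    linarith
  · exact b0' (pt 0 τ) (by rw [pt_im]; linarith) (by rw [pt_im]; linarith) (by rw [pt_re, abs_zero]; exact hX0)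
  · intro y hy
    have := b0 (pt (-X) y) (by rw [pt_im]; exact hy.1) (by rw [pt_im]; linarith [hy.2])
      (by rw [pt_re, abs_neg, abs_of_nonneg hX0])
    refine this.trans ?_
    rw [pt_re]
    have h3 : min 1 (Real.exp (-X)) ≤ 1 / t ^ 9 := by
      refine (min_le_right _ _).trans (le_of_eq ?_)
      rw [Real.exp_neg, p.hX, one_div]
    calc B0c C₀ * min 1 (Real.exp (-X)) * Nn ≤ B0c C₀ * (1 / t ^ 9) * Nn := by gcongr
      _ = _ := by ring
  · intro y hy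
    exact b0' (pt X₂ y) (by rw [pt_im]; exact hy.1) (by rw [pt_im]; linarith [hy.2])
      (by rw [pt_re, abs_of_nonneg (by linarith [p2.h2])]; exact p2.h3)
  · intro x hx
    refine (herr x (by rw [abs_of_nonpos hx.2]; linarith [hx.1])).trans (le_of_eq ?_)
    rw [min_eq_right (Real.exp_le_one_iff.2 hx.2), abs_of_nonpos hx.2]
    have : Real.exp (-(2 * x)) = Real.exp x * Real.exp (3 * -x) := by rw [← Real.exp_add]; congr 1; ring
    rw [this]; ring
  · intro x hx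
    refine (herr x (by rw [abs_of_nonneg hx.1]; exact hx.2.trans p2.h3)).trans (le_of_eq ?_)
    rw [min_eq_left (Real.one_le_exp hx.1), abs_of_nonneg hx.1]
    ring

end Eng
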