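import Pool.Agent.Full.Eng.Oper

/-!
# The engine with the `L²` operator norm
-/

set_option autoImplicit false

namespace Eng

open Complex Set Filter Topology Metric Ann Matrix

open scoped Matrix.Norms.L2Operator

variable {J L : Type*} [Fintype J] [Fintype L] [DecidableEq J] [DecidableEq L]

omit [DecidableEq J] in
lemma nr_eq_norm (α : J → ℂ) : nr α = ‖WithLp.toLp 2 α‖ := by
  rw [EuclideanSpace.norm_eq]
  rfl

lemma Bd.of_norm {A : Matrix J L ℂ} {C : ℝ} (h : ‖A‖ ≤ C) : Bd (fun i j => A i j) C := by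
  apply Bd.of_mulVec
  intro β
  have h1 := Matrix.l2_opNorm_mulVec A (WithLp.toLp 2 β)
  have e : (fun j => ∑ l, A j l * β l) = A *ᵥ β := rfl
  rw [e, nr_eq_norm, nr_eq_norm]
  exact h1.trans (mul_le_mul_of_nonneg_right h (norm_nonneg _))

lemma Bd.norm_le {A : Matrix J L ℂ} {C : ℝ} (h : Bd (fun i j => A i j) C) (hC : 0 ≤ C) : ‖A‖ ≤ C := by
  rw [Matrix.l2_opNorm_def]
  refine ContinuousLinearMap.opNorm_le_bound _ hC fun x => ?_
  have h1 := h.nr_mulVec hC (WithLp.ofLp x)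
  have e : (fun j => ∑ l, A j l * (WithLp.ofLp x) l) = A *ᵥ (WithLp.ofLp x) := rfl
  rw [e, nr_eq_norm, nr_eq_norm] at h1
  exact h1

lemma norm_iff_Bd {A : Matrix J L ℂ} {C : ℝ} (hC : 0 ≤ C) : Bd (fun i j => A i j) C ↔ ‖A‖ ≤ C :=
  ⟨fun h => h.norm_le hC, Bd.of_norm⟩

lemma nr_single (i : J) : nr (fun k => if k = i then (1 : ℂ) else 0) = 1 := by
  unfold nr
  rw [Finset.sum_eq_single i]
  · simp
  · intro b _ hb; simp [hb]
  · intro h; exact absurd (Finset.mem_univ _) h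

lemma norm_entry (A : Matrix J L ℂ) (i : J) (j : L) : ‖A i j‖ ≤ ‖A‖ := by
  classical
  have h1 := (Bd.of_norm (le_refl ‖A‖)) (fun k => if k = i then 1 else 0) (fun k => if k = j then 1 else 0)
  have h2 : Bf (fun i j => A i j) (fun k => if k = i then 1 else 0) (fun k => if k = j then 1 else 0) = A i j := by
    unfold Bf
    rw [Finset.sum_eq_single i, Finset.sum_eq_single j]
    · simp
    · intro b _ hb; simp [hb]
    · intro h; exact absurd (Finset.mem_univ _) h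
    · intro b _ hb; simp [hb]
    · intro h; exact absurd (Finset.mem_univ _) h
  rw [h2, nr_single, nr_single, mul_one, mul_one] at h1
  exact h1

/-- the order of vanishing from a product formula -/
lemma ord_of_prod {F : ℂ → ℂ} {f g : ℂ → ℂ} {N : ℕ} (hf : AnalyticAt ℂ f 0) (hf0 : f 0 = 0) (hg : AnalyticAt ℂ g 0)
    (h : ∀ᶠ u in 𝓝 (0 : ℂ), F u = f u ^ N * g u) : (N : ℕ∞) ≤ analyticOrderAt F 0 := by
  have h1 : analyticOrderAt F 0 = analyticOrderAt (fun u => f u ^ N * g u) 0 := analyticOrderAt_congr h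
  rw [h1]
  have h2 : analyticOrderAt (fun u => f u ^ N * g u) 0 = analyticOrderAt (fun u => f u ^ N) 0 + analyticOrderAt g 0 :=
    analyticOrderAt_mul (hf.pow N) hg
  have h3 : analyticOrderAt (fun u => f u ^ N) 0 = N • analyticOrderAt f 0 := analyticOrderAt_pow hf N
  have h4 : (1 : ℕ∞) ≤ analyticOrderAt f 0 := by
    rw [ENat.one_le_iff_ne_zero]
    rw [hf.analyticOrderAt_ne_zero]; exact hf0
  rw [h2, h3]
  refine le_trans ?_ le_self_add
  calc (N : ℕ∞) = N • (1 : ℕ∞) := by simp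
    _ ≤ N • analyticOrderAt f 0 := nsmul_le_nsmul_right h4 N

/-- **constructor**, with `L²` operator norms and the fusion relation `T u T (u+π/3) = 1 + f(u)^N T₂ u` -/
theorem Row.mk' {N : ℕ} {T T₂ : ℂ → Matrix J J ℂ} {f : ℂ → ℂ} {c : ℝ}
    (han : ∀ u : ℂ, |u.re - Real.pi / 6| < Real.pi / 2 → ∀ i j, DifferentiableAt ℂ (fun z => T z i j) u)
    (hcomm : ∀ u v : ℂ, |u.re - Real.pi / 6| < Real.pi / 2 → |v.re - Real.pi / 6| < Real.pi / 2 → T u * T v = T v * T u)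
    (hadj : ∀ u : ℂ, |u.re - Real.pi / 6| < Real.pi / 2 → (T u)ᴴ = T (((Real.pi / 3 : ℝ) : ℂ) - (starRingEnd ℂ) u))
    (hline : ∀ u : ℂ, |u.re - Real.pi / 6| = Real.pi / 6 → ‖T u‖ ≤ 2)
    (hbdd : ∃ B : ℝ, ∀ u : ℂ, |u.re - Real.pi / 6| ≤ Real.pi / 3 → ∀ i j, ‖T u i j‖ ≤ B)
    (hc : 0 < c)
    (hf : ∀ u : ℂ, |u.re| < c → DifferentiableAt ℂ f u) (hf0 : f 0 = 0)
    (hfl : ∀ u : ℂ, |u.re| = Real.pi / 6 → ‖f u‖ ≤ 1)
    (h₂ : ∀ u : ℂ, |u.re| < c → ∀ i j, DifferentiableAt ℂ (fun z => T₂ z i j) u)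
    (h₂l : ∀ u : ℂ, |u.re| = Real.pi / 6 → ‖T₂ u‖ ≤ 3)
    (hfus : ∀ u : ℂ, |u.re| ≤ Real.pi / 6 → T u * T (u + ((Real.pi / 3 : ℝ) : ℂ)) = 1 + f u ^ N • T₂ u) : Row N T := by
  have hpi := Real.pi_pos
  have ho : IsOpen {u : ℂ | |u.re| < c} := isOpen_lt (by fun_prop) (by fun_prop)
  have hm : (0 : ℂ) ∈ {u : ℂ | |u.re| < c} := by
    change |(0 : ℂ).re| < c
    rw [zero_re, abs_zero]; exact hc
  refine ⟨han, hcomm, hadj, fun u hu => Bd.of_norm (hline u hu), hbdd, fun u hu => ?_, fun i j => ?_⟩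
  · have e : T u * T (u + ((Real.pi / 3 : ℝ) : ℂ)) - 1 = f u ^ N • T₂ u := by
      rw [hfus u hu.le, add_sub_cancel_left]
    rw [e]
    apply Bd.of_norm
    rw [norm_smul, norm_pow]
    calc ‖f u‖ ^ N * ‖T₂ u‖ ≤ 1 * 3 :=
          mul_le_mul (pow_le_one₀ (norm_nonneg _) (hfl u hu)) (h₂l u hu) (norm_nonneg _) zero_le_one
      _ = 3 := one_mul 3
  · refine ord_of_prod (f := f) (g := fun u => T₂ u i j) ?_ hf0 ?_ ?_
    · exact DifferentiableOn.analyticAt (s := {u : ℂ | |u.re| < c})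
        (fun u hu => (hf u hu).differentiableWithinAt) (ho.mem_nhds hm)
    · exact DifferentiableOn.analyticAt (s := {u : ℂ | |u.re| < c})
        (fun u hu => (h₂ u hu i j).differentiableWithinAt) (ho.mem_nhds hm)
    · have ho2 : IsOpen {u : ℂ | |u.re| < Real.pi / 6} := isOpen_lt (by fun_prop) (by fun_prop)
      have hm2 : (0 : ℂ) ∈ {u : ℂ | |u.re| < Real.pi / 6} := by
        change |(0 : ℂ).re| < Real.pi / 6
        rw [zero_re, abs_zero]; positivity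
      filter_upwards [ho2.mem_nhds hm2] with u hu
      have hu' : |u.re| < Real.pi / 6 := hu
      rw [hfus u hu'.le, add_sub_cancel_left, Matrix.smul_apply, smul_eq_mul]

variable {N : ℕ} {Tu : ℂ → Matrix J J ℂ} {Tl : ℂ → Matrix L L ℂ} {W : Matrix J L ℂ} {C₀ : ℝ}

/-- **THE ENGINE (Theorem Y)** with `L²` operator norms. -/
theorem engine (Ru : Row N Tu) (Rl : Row N Tl) (hC : 1 ≤ C₀) (hW : ‖W‖ ≤ C₀)
    (hG : ∀ u : ℂ, |u.re - Real.pi / 6| = Real.pi / 6 → ‖W * Tl u - Tu u * W‖ ≤ C₀ * min 1 (Real.exp (-u.im)))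
    {m : ℕ} (hm : 1 ≤ m) (hN : 20 * m ≤ N) :
    ‖Tu ((Real.pi / 6 : ℝ) : ℂ) ^ (20 * m) * Xbar Tu Tl W * Tl ((Real.pi / 6 : ℝ) : ℂ) ^ (20 * m)‖ ≤
      Cf (2 * C₀) * (m : ℝ) ^ (-(6 / 5) : ℝ) := by
  refine (oper_bound Ru Rl hC (Bd.of_norm hW) (fun u hu => Bd.of_norm (hG u hu)) hm hN).norm_le ?_
  exact mul_nonneg (Cf_nonneg (by linarith)) (by positivity)

end Eng
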