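import Pool.Agent.Full.Eng.Diag
import Pool.Agent.Tor.Alg.Joint

/-!
# The engine, operator form

`Row N T`: the row matrices `T u` on one side of the point, spectral parameter `u` (`Re u = 0, π/3` are the unitary
lines, `u = π/6` is the isotropic point), analytic for `-π/3 < Re u < 2π/3`.
-/

set_option autoImplicit false

namespace Eng

open Complex Set Filter Topology Metric Ann Matrix

variable {J L : Type*} [Fintype J] [Fintype L] [DecidableEq J] [DecidableEq L]

/-- the input of the engine for the row matrices on one side -/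
structure Row (N : ℕ) (T : ℂ → Matrix J J ℂ) : Prop where
  an : ∀ u : ℂ, |u.re - Real.pi / 6| < Real.pi / 2 → ∀ i j, DifferentiableAt ℂ (fun z => T z i j) u
  comm : ∀ u v : ℂ, |u.re - Real.pi / 6| < Real.pi / 2 → |v.re - Real.pi / 6| < Real.pi / 2 → T u * T v = T v * T u
  adj : ∀ u : ℂ, |u.re - Real.pi / 6| < Real.pi / 2 → (T u)ᴴ = T (((Real.pi / 3 : ℝ) : ℂ) - (starRingEnd ℂ) u)
  line : ∀ u : ℂ, |u.re - Real.pi / 6| = Real.pi / 6 → Bd (fun i j => T u i j) 2
  bdd : ∃ B : ℝ, ∀ u : ℂ, |u.re - Real.pi / 6| ≤ Real.pi / 3 → ∀ i j, ‖T u i j‖ ≤ B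
  fus : ∀ u : ℂ, |u.re| = Real.pi / 6 → Bd (fun i j => (T u * T (u + ((Real.pi / 3 : ℝ) : ℂ)) - 1) i j) 3
  ord : ∀ i j, (N : ℕ∞) ≤ analyticOrderAt (fun u => (T u * T (u + ((Real.pi / 3 : ℝ) : ℂ)) - 1) i j) 0

/-- `u = π/6 - i s` -/
noncomputable def par (s : ℂ) : ℂ := ((Real.pi / 6 : ℝ) : ℂ) - I * s

lemma par_re (s : ℂ) : (par s).re - Real.pi / 6 = s.im := by
  simp [par]

lemma par_im (s : ℂ) : (par s).im = -s.re := by
  simp [par]

lemma par_conj (s : ℂ) : par ((starRingEnd ℂ) s) = ((Real.pi / 3 : ℝ) : ℂ) - (starRingEnd ℂ) (par s) := by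
  unfold par
  rw [map_sub, map_mul, conj_ofReal, conj_I]
  push_cast
  ring

lemma par_sub_sh (s : ℂ) : par (s - sh) = -I * s := by
  apply Complex.ext
  · simp [par, sh]
  · simp [par, sh]

lemma par_add_sh (s : ℂ) : par (s + sh) = -I * s + ((Real.pi / 3 : ℝ) : ℂ) := by
  apply Complex.ext
  · simp [par, sh]; ring
  · simp [par, sh]

lemma par_add_sh' (s : ℂ) : par (s + sh) = par (s - sh) + ((Real.pi / 3 : ℝ) : ℂ) := by
  rw [par_add_sh, par_sub_sh]

lemma par_zero : par 0 = ((Real.pi / 6 : ℝ) : ℂ) := by simp [par]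

lemma par_sh : par sh = ((Real.pi / 3 : ℝ) : ℂ) := by
  have := par_add_sh 0
  rw [zero_add, mul_zero, zero_add] at this
  exact this

lemma par_neg_sh : par (-sh) = 0 := by
  have := par_sub_sh 0
  rw [zero_sub, mul_zero] at this
  exact this

lemma inv_conj (u : ℂ) : ((Real.pi / 3 : ℝ) : ℂ) - (starRingEnd ℂ) (((Real.pi / 3 : ℝ) : ℂ) - (starRingEnd ℂ) u) = u := by
  rw [map_sub, Complex.conj_ofReal, Complex.conj_conj]; ring

lemma inv_strip {u : ℂ} {c : ℝ} (h : |u.re - Real.pi / 6| < c) :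
    |(((Real.pi / 3 : ℝ) : ℂ) - (starRingEnd ℂ) u).re - Real.pi / 6| < c := by
  have e : (((Real.pi / 3 : ℝ) : ℂ) - (starRingEnd ℂ) u).re - Real.pi / 6 = -(u.re - Real.pi / 6) := by
    simp; ring
  rw [e, abs_neg]; exact h

variable {N : ℕ} {T : ℂ → Matrix J J ℂ}

/-- joint diagonalisation -/
theorem Row.diag_aux (R : Row N T) : ∃ (U : Matrix J J ℂ) (μ : ℂ → J → ℂ), Uᴴ * U = 1 ∧ U * Uᴴ = 1 ∧
    ∀ u : ℂ, |u.re - Real.pi / 6| < Real.pi / 2 → T u * U = U * diagonal (μ u) := by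
  classical
  let P := {u : ℂ // |u.re - Real.pi / 6| < Real.pi / 2} × Bool
  let H : P → Matrix J J ℂ := fun p =>
    if p.2 then (1 / 2 : ℂ) • (T p.1.1 + T (((Real.pi / 3 : ℝ) : ℂ) - (starRingEnd ℂ) p.1.1))
    else (-I / 2) • (T p.1.1 - T (((Real.pi / 3 : ℝ) : ℂ) - (starRingEnd ℂ) p.1.1))
  have hH : ∀ p, (H p).IsHermitian := by
    rintro ⟨⟨u, hu⟩, b⟩
    have h1 := R.adj u hu
    have h2 := R.adj _ (inv_strip hu)
    rw [inv_conj] at h2
    unfold Matrix.IsHermitian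
    cases b
    · simp only [H, Bool.false_eq_true, if_false]
      rw [conjTranspose_smul, conjTranspose_sub, h1, h2]
      have e : star (-I / 2) = -(-I / 2) := by simp [star_div₀, neg_div]
      rw [e, neg_smul, ← smul_neg, neg_sub]
    · simp only [H, if_true]
      rw [conjTranspose_smul, conjTranspose_add, h1, h2]
      have e : star (1 / 2 : ℂ) = 1 / 2 := by simp
      rw [e, add_comm]
  have hc : ∀ p q : {u : ℂ // |u.re - Real.pi / 6| < Real.pi / 2}, Commute (T p.1) (T q.1) := fun p q =>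
    R.comm p.1 q.1 p.2 q.2
  have hC : ∀ p q, H p * H q = H q * H p := by
    rintro ⟨⟨u, hu⟩, b⟩ ⟨⟨v, hv⟩, c⟩
    have h11 := hc ⟨u, hu⟩ ⟨v, hv⟩
    have h12 := hc ⟨u, hu⟩ ⟨_, inv_strip hv⟩
    have h21 := hc ⟨_, inv_strip hu⟩ ⟨v, hv⟩
    have h22 := hc ⟨_, inv_strip hu⟩ ⟨_, inv_strip hv⟩
    simp only at h11 h12 h21 h22
    change Commute (H _) (H _)
    cases b <;> cases c <;> simp only [H, Bool.false_eq_true, if_false, if_true]
    · exact (((h11.sub_right h12).sub_left (h21.sub_right h22)).smul_left _).smul_right _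
    · exact (((h11.add_right h12).sub_left (h21.add_right h22)).smul_left _).smul_right _
    · exact (((h11.sub_right h12).add_left (h21.sub_right h22)).smul_left _).smul_right _
    · exact (((h11.add_right h12).add_left (h21.add_right h22)).smul_left _).smul_right _
  obtain ⟨U, l, hU1, hU2, hl⟩ := Tor.joint_matrix H hH hC
  refine ⟨U, fun u k => if hu : |u.re - Real.pi / 6| < Real.pi / 2 then
    (l k (⟨u, hu⟩, true) : ℂ) + I * (l k (⟨u, hu⟩, false) : ℂ) else 0, hU1, hU2, fun u hu => ?_⟩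
  have e : T u = H (⟨u, hu⟩, true) + I • H (⟨u, hu⟩, false) := by
    simp only [H, Bool.false_eq_true, if_false, if_true]
    rw [smul_smul]
    have : I * (-I / 2) = 1 / 2 := by
      rw [mul_div_assoc', mul_neg, I_mul_I, neg_neg]
    rw [this, ← smul_add]
    have : T u + T (((Real.pi / 3 : ℝ) : ℂ) - (starRingEnd ℂ) u) + (T u - T (((Real.pi / 3 : ℝ) : ℂ) - (starRingEnd ℂ) u)) = (2 : ℂ) • T u := by
      rw [two_smul]; abel
    rw [this, smul_smul]; norm_num
  rw [e, add_mul, smul_mul_assoc, hl, hl, ← mul_smul_comm, ← mul_add]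
  congr 1
  ext i j
  by_cases hij : i = j
  · subst hij
    simp [hu]
  · simp [diagonal_apply_ne _ hij]


omit [DecidableEq J] [DecidableEq L] in
/-- quadratic forms -/
lemma Bf_matrix (A : Matrix J L ℂ) (V : Matrix J J ℂ) (V' : Matrix L L ℂ) (j : J) (l : L) :
    (Vᴴ * A * V') j l = Bf (fun i k => A i k) (fun i => (starRingEnd ℂ) (V i j)) (fun k => V' k l) := by
  unfold Bf
  rw [mul_apply, Finset.sum_comm]
  refine Finset.sum_congr rfl fun k _ => ?_
  rw [mul_apply, Finset.sum_mul]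
  rfl

lemma nr_col {U : Matrix J J ℂ} (hU : Uᴴ * U = 1) (k : J) : nr (fun j => U j k) = 1 := by
  have h1 := congrFun (congrFun hU k) k
  rw [one_apply_eq, mul_apply] at h1
  have h2 := sum_conj_mul (fun j => U j k)
  have h3 : ((nr (fun j => U j k) * nr (fun j => U j k) : ℝ) : ℂ) = 1 := by
    rw [← h2, ← h1]; rfl
  have h4 : nr (fun j => U j k) * nr (fun j => U j k) = 1 := by exact_mod_cast h3
  have h5 := nr_nonneg (fun j => U j k)
  nlinarith

lemma nr_col_conj {U : Matrix J J ℂ} (hU : Uᴴ * U = 1) (k : J) : nr (fun j => (starRingEnd ℂ) (U j k)) = 1 := by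
  have : nr (fun j => (starRingEnd ℂ) (U j k)) = nr (fun j => U j k) := by
    unfold nr; simp only [Complex.norm_conj]
  rw [this, nr_col hU]

lemma norm_entry_le {U V : Matrix J J ℂ} {A : Matrix J J ℂ} {C : ℝ} (hU : Uᴴ * U = 1) (hV : Vᴴ * V = 1) (h : Bd A C) (j k : J) :
    ‖(Uᴴ * A * V) j k‖ ≤ C := by
  rw [Bf_matrix]
  refine (h _ _).trans ?_
  rw [nr_col_conj hU, nr_col hV, mul_one, mul_one]

omit [DecidableEq J] [DecidableEq L] in
/-- a crude bound -/
lemma Bf_crude {A : Matrix J L ℂ} {B : ℝ} (h : ∀ i j, ‖A i j‖ ≤ B) (α : J → ℂ) (β : L → ℂ) :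
    ‖Bf (fun i k => A i k) α β‖ ≤ ∑ j, ∑ l, ‖α j‖ * B * ‖β l‖ := by
  unfold Bf
  refine (norm_sum_le _ _).trans (Finset.sum_le_sum fun j _ => (norm_sum_le _ _).trans (Finset.sum_le_sum fun l _ => ?_))
  rw [norm_mul, norm_mul]
  gcongr
  exact h j l

omit [DecidableEq J] [DecidableEq L] in
/-- the order of a bilinear form -/
lemma Bf_order {G : ℂ → J → L → ℂ} {N : ℕ} (hG : ∀ j l, AnalyticAt ℂ (fun z => G z j l) 0)
    (h : ∀ j l, (N : ℕ∞) ≤ analyticOrderAt (fun z => G z j l) 0) (c : ℂ) (α : J → ℂ) (β : L → ℂ) :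
    (N : ℕ∞) ≤ analyticOrderAt (fun z => Bf (G (c * z)) α β) 0 := by
  have h1 : ∀ j l, ∃ g : ℂ → ℂ, AnalyticAt ℂ g 0 ∧ ∀ᶠ z in 𝓝 (0 : ℂ), G z j l = (z - 0) ^ N • g z := fun j l =>
    (natCast_le_analyticOrderAt (hG j l)).1 (h j l)
  choose g hg hg2 using h1
  have hlin : AnalyticAt ℂ (fun z : ℂ => c * z) 0 := by fun_prop
  have h0 : (fun z : ℂ => c * z) 0 = 0 := by simp
  have ht : Tendsto (fun z : ℂ => c * z) (𝓝 0) (𝓝 0) := by
    have := hlin.continuousAt
    unfold ContinuousAt at this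
    rwa [h0] at this
  have han : AnalyticAt ℂ (fun z => Bf (G (c * z)) α β) 0 := by
    unfold Bf
    refine Finset.analyticAt_fun_sum _ fun j _ => Finset.analyticAt_fun_sum _ fun l _ => ?_
    have := (hG j l).comp_of_eq hlin h0
    exact (analyticAt_const.mul this).mul analyticAt_const
  rw [natCast_le_analyticOrderAt han]
  refine ⟨fun z => c ^ N * Bf (fun j l => g j l (c * z)) α β, ?_, ?_⟩
  · refine analyticAt_const.mul ?_
    unfold Bf
    refine Finset.analyticAt_fun_sum _ fun j _ => Finset.analyticAt_fun_sum _ fun l _ => ?_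
    have := (hg j l).comp_of_eq hlin h0
    exact (analyticAt_const.mul this).mul analyticAt_const
  · have h2 : ∀ᶠ z in 𝓝 (0 : ℂ), ∀ j l, G (c * z) j l = (c * z - 0) ^ N • g j l (c * z) := by
      rw [eventually_all]; intro j
      rw [eventually_all]; intro l
      exact ht.eventually (hg2 j l)
    filter_upwards [h2] with z hz
    simp only [sub_zero, smul_eq_mul] at hz ⊢
    unfold Bf
    rw [Finset.mul_sum, Finset.mul_sum]
    refine Finset.sum_congr rfl fun j _ => ?_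
    rw [Finset.mul_sum, Finset.mul_sum]
    refine Finset.sum_congr rfl fun l _ => ?_
    rw [hz j l, mul_pow]; ring


/-- the diagonal entries in a basis -/
noncomputable def dg (T : ℂ → Matrix J J ℂ) (U : Matrix J J ℂ) (k : J) (s : ℂ) : ℂ := (Uᴴ * T (par s) * U) k k

lemma par_diff (s : ℂ) : DifferentiableAt ℂ par s := by
  unfold par; fun_prop

lemma par_strip {s : ℂ} {c : ℝ} (h : |s.im| < c) : |(par s).re - Real.pi / 6| < c := by rw [par_re]; exact h

lemma par_strip' {s : ℂ} {c : ℝ} (h : |s.im| ≤ c) : |(par s).re - Real.pi / 6| ≤ c := by rw [par_re]; exact h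

lemma dg_diff (R : Row N T) (U : Matrix J J ℂ) (k : J) {s : ℂ} (hs : |s.im| < Real.pi / 2) :
    DifferentiableAt ℂ (dg T U k) s := by
  have : dg T U k = fun s => Bf (fun i j => T (par s) i j) (fun i => (starRingEnd ℂ) (U i k)) (fun j => U j k) := by
    funext s; exact Bf_matrix _ _ _ _ _
  rw [this]
  refine Bf_diff (G := fun z i j => T (par z) i j) (fun i j => ?_) _ _
  exact (R.an (par s) (par_strip hs) i j).comp s (par_diff s)

lemma dg_bound (R : Row N T) {U : Matrix J J ℂ} (k : J) : ∃ B : ℝ, ∀ s : ℂ, |s.im| ≤ Real.pi / 3 → ‖dg T U k s‖ ≤ B := by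
  obtain ⟨B, hB⟩ := R.bdd
  exact ⟨_, fun s hs => by
    unfold dg; rw [Bf_matrix]; exact Bf_crude (hB (par s) (par_strip' hs)) _ _⟩

/-- **joint diagonalisation and the scalar data** -/
theorem Row.diag (R : Row N T) : ∃ (U : Matrix J J ℂ), Uᴴ * U = 1 ∧ U * Uᴴ = 1 ∧
    (∀ s : ℂ, |s.im| < Real.pi / 2 → T (par s) * U = U * diagonal (fun k => dg T U k s)) ∧
    (∀ k, SE N (dg T U k)) ∧ ∀ k, IsRealF (dg T U k) := by
  obtain ⟨U, μ, hU1, hU2, hμ⟩ := R.diag_aux
  have hd : ∀ s : ℂ, |s.im| < Real.pi / 2 → T (par s) * U = U * diagonal (fun k => dg T U k s) := by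
    intro s hs
    have h1 := hμ (par s) (par_strip hs)
    have h2 : Uᴴ * T (par s) * U = diagonal (μ (par s)) := by
      rw [Matrix.mul_assoc, h1, ← Matrix.mul_assoc, hU1, Matrix.one_mul]
    have h3 : (fun k => dg T U k s) = μ (par s) := by
      funext k
      unfold dg
      rw [h2, diagonal_apply_eq]
    rw [h1, h3]
  have hreal : ∀ k, IsRealF (dg T U k) := by
    intro k s hs
    unfold dg
    rw [par_conj, ← R.adj _ (par_strip hs)]
    have e : Uᴴ * (T (par s))ᴴ * U = (Uᴴ * T (par s) * U)ᴴ := by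
      rw [conjTranspose_mul, conjTranspose_mul, conjTranspose_conjTranspose, Matrix.mul_assoc]
    rw [e, conjTranspose_apply]
    rfl
  have hpi := Real.pi_pos
  have hyf : ∀ k, ∀ s : ℂ, |s.im| < Real.pi / 3 → yf (dg T U k) s =
      (Uᴴ * (T (-I * s) * T (-I * s + ((Real.pi / 3 : ℝ) : ℂ)) - 1) * U) k k := by
    intro k s hs
    have h1 : |(s - sh).im| < Real.pi / 2 := by
      rw [sub_im, sh_im]; rw [abs_lt] at hs ⊢; constructor <;> linarith [hs.1, hs.2]
    have h2 : |(s + sh).im| < Real.pi / 2 := by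
      rw [add_im, sh_im]; rw [abs_lt] at hs ⊢; constructor <;> linarith [hs.1, hs.2]
    rw [← par_sub_sh, ← par_add_sh', Matrix.mul_sub, Matrix.sub_mul, Matrix.mul_one, hU1, Matrix.sub_apply, one_apply_eq]
    have h3 : Uᴴ * (T (par (s - sh)) * T (par (s + sh))) * U =
        diagonal (fun k => dg T U k (s - sh)) * diagonal (fun k => dg T U k (s + sh)) := by
      rw [Matrix.mul_assoc, Matrix.mul_assoc, hd _ h2, ← Matrix.mul_assoc (T (par (s - sh))), hd _ h1, Matrix.mul_assoc U,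
        ← Matrix.mul_assoc, hU1, Matrix.one_mul]
    rw [h3, diagonal_mul_diagonal, diagonal_apply_eq, yf, mul_comm]
  have hyd : ∀ k, DiffContOnCl ℂ (yf (dg T U k)) So := by
    intro k
    refine dcc_of_diff fun s hs => ?_
    unfold yf
    have h1 : |(s - sh).im| < Real.pi / 2 := by
      rw [sub_im, sh_im]; rw [abs_le] at hs; rw [abs_lt]; constructor <;> linarith [hs.1, hs.2]
    have h2 : |(s + sh).im| < Real.pi / 2 := by
      rw [add_im, sh_im]; rw [abs_le] at hs; rw [abs_lt]; constructor <;> linarith [hs.1, hs.2]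
    have h3 : DifferentiableAt ℂ (fun s => dg T U k (s + sh)) s :=
      DifferentiableAt.comp (g := dg T U k) (f := fun s => s + sh) s (dg_diff R U k h2) (by fun_prop)
    have h4 : DifferentiableAt ℂ (fun s => dg T U k (s - sh)) s :=
      DifferentiableAt.comp (g := dg T U k) (f := fun s => s - sh) s (dg_diff R U k h1) (by fun_prop)
    exact (h3.mul h4).sub_const 1
  refine ⟨U, hU1, hU2, hd, fun k => ⟨fun s hs => dg_diff R U k hs, ?_, ?_⟩, hreal⟩
  · obtain ⟨B, hB⟩ := dg_bound R (U := U) k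
    intro s hs
    refine strip_le (dcc_of_diff fun s hs => dg_diff R U k (by linarith)) (C₀ := B) (fun z hz => ?_) (fun z hz => ?_) hs
    · have := mem_So.1 hz
      exact hB z (by linarith)
    · exact norm_entry_le hU1 hU1 (R.line (par z) (by rw [par_re]; exact hz)) k k
  · obtain ⟨B, hB⟩ := dg_bound R (U := U) k
    intro s hs
    refine blaschke (hyd k) (C₀ := B * B + 1) (fun z hz => ?_) (fun z hz => ?_) ?_ hs
    · have h0 := mem_Sc.1 hz
      unfold yf
      have h1 := hB (z + sh) (by rw [add_im, sh_im]; rw [abs_le] at h0 ⊢; constructor <;> linarith [h0.1, h0.2])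
      have h2 := hB (z - sh) (by rw [sub_im, sh_im]; rw [abs_le] at h0 ⊢; constructor <;> linarith [h0.1, h0.2])
      refine (norm_sub_le _ _).trans ?_
      rw [norm_mul, norm_one]
      have := norm_nonneg (dg T U k (z + sh))
      gcongr
      linarith
    · rw [hyf k z (by rw [hz]; linarith)]
      exact norm_entry_le hU1 hU1 (R.fus (-I * z) (by simpa using hz)) k k
    · set G : ℂ → J → J → ℂ := fun u i j => (T u * T (u + ((Real.pi / 3 : ℝ) : ℂ)) - 1) i j with hG
      have hGa : ∀ i j, AnalyticAt ℂ (fun z => G z i j) 0 := by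
        intro i j
        have ho : IsOpen {u : ℂ | |u.re| < Real.pi / 6} := isOpen_lt (by fun_prop) (by fun_prop)
        have hm : (0 : ℂ) ∈ {u : ℂ | |u.re| < Real.pi / 6} := by
          change |(0 : ℂ).re| < Real.pi / 6
          rw [zero_re, abs_zero]; positivity
        refine DifferentiableOn.analyticAt (s := {u : ℂ | |u.re| < Real.pi / 6}) ?_ (ho.mem_nhds hm)
        intro u hu
        apply DifferentiableAt.differentiableWithinAt
        have hu' := abs_lt.1 (show |u.re| < Real.pi / 6 from hu)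
        have e1 : |u.re - Real.pi / 6| < Real.pi / 2 := by rw [abs_lt]; constructor <;> linarith [hu'.1, hu'.2]
        have e2 : |(u + ((Real.pi / 3 : ℝ) : ℂ)).re - Real.pi / 6| < Real.pi / 2 := by
          rw [add_re, ofReal_re, abs_lt]; constructor <;> linarith [hu'.1, hu'.2]
        have : (fun z => G z i j) = fun z => (∑ k, T z i k * T (z + ((Real.pi / 3 : ℝ) : ℂ)) k j) - (1 : Matrix J J ℂ) i j := by
          funext z; simp only [hG, Matrix.sub_apply, mul_apply]
        rw [this]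
        refine DifferentiableAt.sub_const ?_ _
        refine DifferentiableAt.fun_sum fun k _ => ?_
        have h3 : DifferentiableAt ℂ (fun z => T (z + ((Real.pi / 3 : ℝ) : ℂ)) k j) u :=
          DifferentiableAt.comp (g := fun z => T z k j) (f := fun z => z + ((Real.pi / 3 : ℝ) : ℂ)) u (R.an _ e2 k j) (by fun_prop)
        exact (R.an u e1 i k).mul h3
      have h2 := Bf_order hGa R.ord (-I) (fun i => (starRingEnd ℂ) (U i k)) (fun j => U j k)
      refine h2.trans (le_of_eq ?_)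
      apply analyticOrderAt_congr
      have ho : IsOpen {s : ℂ | |s.im| < Real.pi / 3} := isOpen_lt (by fun_prop) (by fun_prop)
      have hm : (0 : ℂ) ∈ {s : ℂ | |s.im| < Real.pi / 3} := by
        change |(0 : ℂ).im| < Real.pi / 3
        rw [zero_im, abs_zero]; positivity
      filter_upwards [ho.mem_nhds hm] with s hs
      rw [hyf k s hs, Bf_matrix]


/-! ### the weight -/

/-- Phragmén-Lindelöf with growth `exp |Re s|` -/
lemma strip_le_exp {f : ℂ → ℂ} {C C₀ : ℝ} (hf : DiffContOnCl ℂ f So) (hb : ∀ z ∈ So, ‖f z‖ ≤ C₀ * Real.exp |z.re|)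
    (hl : ∀ z : ℂ, |z.im| = Real.pi / 6 → ‖f z‖ ≤ C) {z : ℂ} (hz : |z.im| ≤ Real.pi / 6) : ‖f z‖ ≤ C := by
  have hz' := abs_le.1 hz
  have hpi := Real.pi_pos
  refine PhragmenLindelof.horizontal_strip (a := -(Real.pi / 6)) (b := Real.pi / 6) hf ?_ ?_ ?_ hz'.1 hz'.2
  · refine ⟨1, ?_, 1, ?_⟩
    · rw [lt_div_iff₀ (by linarith)]; linarith
    · rw [Asymptotics.isBigO_iff]
      refine ⟨C₀, ?_⟩
      have h0 : 0 ≤ C₀ := by
        have h1 := hb 0 (by rw [mem_So, zero_im, abs_zero]; positivity)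
        rw [zero_re, abs_zero, Real.exp_zero, mul_one] at h1
        exact (norm_nonneg _).trans h1
      have : ∀ᶠ x in 𝓟 (im ⁻¹' Ioo (-(Real.pi / 6)) (Real.pi / 6)), ‖f x‖ ≤ C₀ * ‖Real.exp (1 * Real.exp (1 * |x.re|))‖ := by
        rw [eventually_principal]
        intro x hx
        refine (hb x hx).trans ?_
        rw [Real.norm_of_nonneg (Real.exp_pos _).le]
        gcongr
        rw [one_mul, one_mul]
        linarith [Real.add_one_le_exp |x.re|]
      exact this.filter_mono inf_le_right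
  · intro w hw
    exact hl w (by rw [hw, abs_neg, abs_of_pos (by positivity)])
  · intro w hw
    exact hl w (by rw [hw, abs_of_pos (by positivity)])

lemma one_add_exp_ge {s : ℂ} (hs : |s.im| ≤ Real.pi / 6) : 1 ≤ ‖1 + Complex.exp (-s)‖ * min 1 (Real.exp s.re) := by
  have hpi := Real.pi_pos
  have h1 : 0 ≤ (Complex.exp (-s)).re := by
    rw [Complex.exp_re, neg_im, Real.cos_neg]
    have := abs_le.1 hs
    refine mul_nonneg (Real.exp_pos _).le (Real.cos_nonneg_of_mem_Icc ⟨by linarith [this.1], by linarith [this.2]⟩)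
  have h2 : ‖1 + Complex.exp (-s)‖ ^ 2 = 1 + 2 * (Complex.exp (-s)).re + ‖Complex.exp (-s)‖ ^ 2 := by
    rw [← Complex.normSq_eq_norm_sq, ← Complex.normSq_eq_norm_sq, Complex.normSq_apply, Complex.normSq_apply, add_re, add_im, one_re, one_im]
    ring
  have h3 : ‖Complex.exp (-s)‖ = Real.exp (-s.re) := by rw [Complex.norm_exp, neg_re]
  have h4 := norm_nonneg (1 + Complex.exp (-s))
  have h5 := Real.exp_pos s.re
  have h6 := Real.exp_pos (-s.re)
  have h7 : Real.exp (-s.re) * Real.exp s.re = 1 := by rw [← Real.exp_add]; simp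
  rw [h3] at h2
  have h8 : 1 ≤ ‖1 + Complex.exp (-s)‖ := by nlinarith
  have h9 : Real.exp (-s.re) ≤ ‖1 + Complex.exp (-s)‖ := by nlinarith
  rcases le_total 1 (Real.exp s.re) with h | h
  · rw [min_eq_left h]; linarith
  · rw [min_eq_right h]; nlinarith

lemma one_add_exp_le (s : ℂ) : ‖1 + Complex.exp (-s)‖ * min 1 (Real.exp s.re) ≤ 2 := by
  have h3 : ‖Complex.exp (-s)‖ = Real.exp (-s.re) := by rw [Complex.norm_exp, neg_re]
  have h1 : ‖1 + Complex.exp (-s)‖ ≤ 1 + Real.exp (-s.re) := by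
    refine (norm_add_le _ _).trans ?_; rw [norm_one, h3]
  have h5 := Real.exp_pos s.re
  have h6 := Real.exp_pos (-s.re)
  have h7 : Real.exp (-s.re) * Real.exp s.re = 1 := by rw [← Real.exp_add]; simp
  rcases le_total 1 (Real.exp s.re) with h | h
  · rw [min_eq_left h, mul_one]; nlinarith
  · rw [min_eq_right h]
    calc ‖1 + Complex.exp (-s)‖ * Real.exp s.re ≤ (1 + Real.exp (-s.re)) * Real.exp s.re := by gcongr
      _ ≤ 2 := by rw [add_mul, h7, one_mul]; linarith

/-- interpolation between the lines -/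
lemma weight_interp {f : ℂ → ℂ} {C C₀ : ℝ} (hf : DiffContOnCl ℂ f So) (hb : ∀ z ∈ So, ‖f z‖ ≤ C₀) (hC : 0 ≤ C)
    (hl : ∀ z : ℂ, |z.im| = Real.pi / 6 → ‖f z‖ ≤ C * min 1 (Real.exp z.re)) {z : ℂ} (hz : |z.im| ≤ Real.pi / 6) :
    ‖f z‖ ≤ 2 * C * min 1 (Real.exp z.re) := by
  have hd : DiffContOnCl ℂ (fun z => (1 + Complex.exp (-z)) * f z) So := by
    have h1 : Differentiable ℂ fun z : ℂ => 1 + Complex.exp (-z) := by fun_prop
    have h2 : DiffContOnCl ℂ (fun z : ℂ => 1 + Complex.exp (-z)) So := h1.diffContOnCl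
    exact ⟨h2.1.mul hf.1, h2.2.mul hf.2⟩
  have hC₀ : 0 ≤ C₀ := (norm_nonneg _).trans (hb 0 (by rw [mem_So, zero_im, abs_zero]; have := Real.pi_pos; positivity))
  have key := strip_le_exp (C := 2 * C) (C₀ := 2 * C₀) hd ?_ ?_ hz
  · rw [norm_mul] at key
    have h1 := one_add_exp_ge hz
    have h2 := norm_nonneg (f z)
    have h3 : 0 ≤ min 1 (Real.exp z.re) := min_nonneg' _
    calc ‖f z‖ ≤ ‖f z‖ * (‖1 + Complex.exp (-z)‖ * min 1 (Real.exp z.re)) := le_mul_of_one_le_right h2 h1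
      _ = ‖1 + Complex.exp (-z)‖ * ‖f z‖ * min 1 (Real.exp z.re) := by ring
      _ ≤ 2 * C * min 1 (Real.exp z.re) := mul_le_mul_of_nonneg_right key h3
  · intro w hw
    rw [norm_mul]
    have h1 : ‖1 + Complex.exp (-w)‖ ≤ 2 * Real.exp |w.re| := by
      refine (norm_add_le _ _).trans ?_
      rw [norm_one, Complex.norm_exp, neg_re]
      have h2 : Real.exp (-w.re) ≤ Real.exp |w.re| := Real.exp_le_exp.2 (neg_le_abs _)
      have h3 : 1 ≤ Real.exp |w.re| := Real.one_le_exp (abs_nonneg _)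
      linarith
    calc ‖1 + Complex.exp (-w)‖ * ‖f w‖ ≤ (2 * Real.exp |w.re|) * C₀ := by
          gcongr; exact hb w hw
      _ = 2 * C₀ * Real.exp |w.re| := by ring
  · intro w hw
    rw [norm_mul]
    calc ‖1 + Complex.exp (-w)‖ * ‖f w‖ ≤ ‖1 + Complex.exp (-w)‖ * (C * min 1 (Real.exp w.re)) := by
          gcongr; exact hl w hw
      _ = C * (‖1 + Complex.exp (-w)‖ * min 1 (Real.exp w.re)) := by ring
      _ ≤ C * 2 := by gcongr; exact one_add_exp_le w
      _ = 2 * C := by ring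


/-! ### the main theorem in operator form -/

/-- matrix of a product of bounded matrices -/
lemma Bd.mmul {M : Type*} [Fintype M] {A : Matrix J L ℂ} {B : Matrix L M ℂ} {C C' : ℝ} (hA : Bd (fun i j => A i j) C)
    (hB : Bd (fun i j => B i j) C') (hC : 0 ≤ C) (hC' : 0 ≤ C') : Bd (fun i j => (A * B) i j) (C * C') := by
  have := hA.comp hB hC hC'
  refine this.congr fun j k => ?_
  rw [mul_apply]

lemma Bd.unitary {U : Matrix J J ℂ} (hU : Uᴴ * U = 1) : Bd (fun i j => U i j) 1 := by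
  apply Bd.of_isometry
  intro l l'
  have h1 := congrFun (congrFun hU l) l'
  rw [mul_apply, one_apply] at h1
  exact h1

variable {Tu : ℂ → Matrix J J ℂ} {Tl : ℂ → Matrix L L ℂ} {W : Matrix J L ℂ} {C₀ : ℝ}

/-- the intertwining defect `W T_l(u) - T_u(u) W` -/
def Gd (Tu : ℂ → Matrix J J ℂ) (Tl : ℂ → Matrix L L ℂ) (W : Matrix J L ℂ) (u : ℂ) : Matrix J L ℂ := W * Tl u - Tu u * W

/-- `X = G(π/6) - i G(0)` -/
noncomputable def Xo (Tu : ℂ → Matrix J J ℂ) (Tl : ℂ → Matrix L L ℂ) (W : Matrix J L ℂ) : Matrix J L ℂ :=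
  Gd Tu Tl W ((Real.pi / 6 : ℝ) : ℂ) - I • Gd Tu Tl W 0

/-- the average `(X + T_u(π/3) X T_l(0))/2` -/
noncomputable def Xbar (Tu : ℂ → Matrix J J ℂ) (Tl : ℂ → Matrix L L ℂ) (W : Matrix J L ℂ) : Matrix J L ℂ :=
  (1 / 2 : ℂ) • (Xo Tu Tl W + Tu ((Real.pi / 3 : ℝ) : ℂ) * Xo Tu Tl W * Tl 0)

/-- the data in diagonal form -/
theorem oper_data (Ru : Row N Tu) (Rl : Row N Tl) (hC : 1 ≤ C₀) (hW : Bd (fun i j => W i j) C₀)
    (hG : ∀ u : ℂ, |u.re - Real.pi / 6| = Real.pi / 6 → Bd (fun i j => Gd Tu Tl W u i j) (C₀ * min 1 (Real.exp (-u.im)))) :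
    ∃ (U : Matrix J J ℂ) (V : Matrix L L ℂ), Uᴴ * U = 1 ∧ U * Uᴴ = 1 ∧ Vᴴ * V = 1 ∧ V * Vᴴ = 1 ∧
      (∀ s : ℂ, |s.im| < Real.pi / 2 → Uᴴ * Tu (par s) = diagonal (fun k => dg Tu U k s) * Uᴴ) ∧
      (∀ s : ℂ, |s.im| < Real.pi / 2 → Tl (par s) * V = V * diagonal (fun k => dg Tl V k s)) ∧
      Data N (2 * C₀) (dg Tu U) (dg Tl V) (fun j l => (Uᴴ * W * V) j l) := by
  obtain ⟨U, hU1, hU2, hUd, hUs, hUr⟩ := Ru.diag
  obtain ⟨V, hV1, hV2, hVd, hVs, hVr⟩ := Rl.diag
  have hpi := Real.pi_pos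
  have hUh : Bd (fun i j => Uᴴ i j) 1 := Bd.unitary (by rw [conjTranspose_conjTranspose]; exact hU2)
  have hVb : Bd (fun i j => V i j) 1 := Bd.unitary hV1
  set d : J → ℂ → ℂ := fun k => dg Tu U k with hd
  set e : L → ℂ → ℂ := fun k => dg Tl V k with he
  set w : J → L → ℂ := fun j l => (Uᴴ * W * V) j l with hw
  have hTu : ∀ s : ℂ, |s.im| < Real.pi / 2 → Uᴴ * Tu (par s) = diagonal (fun k => d k s) * Uᴴ := by
    intro s hs
    have h1 := hUd s hs
    calc Uᴴ * Tu (par s) = Uᴴ * Tu (par s) * (U * Uᴴ) := by rw [hU2, Matrix.mul_one]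
      _ = Uᴴ * (Tu (par s) * U) * Uᴴ := by simp only [Matrix.mul_assoc]
      _ = (Uᴴ * U) * diagonal (fun k => d k s) * Uᴴ := by rw [h1]; simp only [Matrix.mul_assoc, hd]
      _ = diagonal (fun k => d k s) * Uᴴ := by rw [hU1, Matrix.one_mul]
  have hGe : ∀ s : ℂ, |s.im| < Real.pi / 2 → ∀ j l, (Uᴴ * Gd Tu Tl W (par s) * V) j l = w j l * (e l s - d j s) := by
    intro s hs j l
    have h1 : Uᴴ * Gd Tu Tl W (par s) * V = (Uᴴ * W * V) * diagonal (fun k => e k s) - diagonal (fun k => d k s) * (Uᴴ * W * V) := by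
      unfold Gd
      rw [Matrix.mul_sub, Matrix.sub_mul]
      congr 1
      · calc Uᴴ * (W * Tl (par s)) * V = Uᴴ * W * (Tl (par s) * V) := by simp only [Matrix.mul_assoc]
          _ = Uᴴ * W * V * diagonal (fun k => e k s) := by rw [hVd s hs]; simp only [Matrix.mul_assoc, he]
      · calc Uᴴ * (Tu (par s) * W) * V = (Uᴴ * Tu (par s)) * W * V := by simp only [Matrix.mul_assoc]
          _ = diagonal (fun k => d k s) * (Uᴴ * W * V) := by rw [hTu s hs]; simp only [Matrix.mul_assoc]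
    rw [h1, Matrix.sub_apply, mul_diagonal, diagonal_mul, hw]
    ring
  refine ⟨U, V, hU1, hU2, hV1, hV2, hTu, hVd, ⟨hUs, hUr, hVs, hVr, by linarith, ?_, ?_⟩⟩
  · have := (hUh.mmul hW zero_le_one (by linarith)).mmul hVb (by linarith) zero_le_one
    rw [one_mul, mul_one] at this
    exact (this.congr fun j l => rfl).mono (by linarith)
  · intro s hs α β
    -- the scalar function
    set f : ℂ → ℂ := fun s => Bf (fun j l => w j l * (e l s - d j s)) α β with hf
    have hfd : DiffContOnCl ℂ f So := by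
      refine dcc_of_diff fun s hs => ?_
      refine Bf_diff (G := fun s j l => w j l * (e l s - d j s)) (fun j l => ?_) α β
      have h1 := dg_diff Rl V l (s := s) (by linarith)
      have h2 := dg_diff Ru U j (s := s) (by linarith)
      exact (h1.sub h2).const_mul _
    obtain ⟨B1, hB1⟩ : ∃ B1 : ℝ, ∀ j, ∀ s : ℂ, |s.im| ≤ Real.pi / 3 → ‖d j s‖ ≤ B1 := by
      have h1 : ∀ j, ∃ B : ℝ, ∀ s : ℂ, |s.im| ≤ Real.pi / 3 → ‖d j s‖ ≤ B := fun j => dg_bound Ru (U := U) j
      choose B hB using h1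
      exact ⟨∑ j, |B j|, fun j s hs => (hB j s hs).trans ((le_abs_self _).trans
        (Finset.single_le_sum (f := fun j => |B j|) (fun i _ => abs_nonneg _) (Finset.mem_univ j)))⟩
    obtain ⟨B2, hB2⟩ : ∃ B2 : ℝ, ∀ l, ∀ s : ℂ, |s.im| ≤ Real.pi / 3 → ‖e l s‖ ≤ B2 := by
      have h1 : ∀ j, ∃ B : ℝ, ∀ s : ℂ, |s.im| ≤ Real.pi / 3 → ‖e j s‖ ≤ B := fun j => dg_bound Rl (U := V) j
      choose B hB using h1
      exact ⟨∑ j, |B j|, fun j s hs => (hB j s hs).trans ((le_abs_self _).trans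
        (Finset.single_le_sum (f := fun j => |B j|) (fun i _ => abs_nonneg _) (Finset.mem_univ j)))⟩
    have hfb : ∀ z ∈ So, ‖f z‖ ≤ ∑ j, ∑ l, ‖α j‖ * (‖w j l‖ * (B2 + B1)) * ‖β l‖ := by
      intro z hz
      have hz' := mem_So.1 hz
      rw [hf]
      unfold Bf
      refine (norm_sum_le _ _).trans (Finset.sum_le_sum fun j _ => (norm_sum_le _ _).trans (Finset.sum_le_sum fun l _ => ?_))
      rw [norm_mul, norm_mul, norm_mul]
      gcongr
      exact (norm_sub_le _ _).trans (add_le_add (hB2 l z (by linarith)) (hB1 j z (by linarith)))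
    have hn1 := nr_nonneg α
    have hn2 := nr_nonneg β
    have key := weight_interp (C := C₀ * nr α * nr β) hfd hfb (by positivity) ?_ hs
    · refine key.trans (le_of_eq ?_); ring
    · intro z hz
      have h1 := hG (par z) (by rw [par_re]; exact hz)
      rw [par_im, neg_neg] at h1
      have h0 : 0 ≤ C₀ * min 1 (Real.exp z.re) := mul_nonneg (by linarith) (min_nonneg' _)
      have h2 := (hUh.mmul h1 zero_le_one h0).mmul hVb (by linarith) zero_le_one
      rw [one_mul, mul_one] at h2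
      have h3 : Bd (fun j l => w j l * (e l z - d j z)) (C₀ * min 1 (Real.exp z.re)) :=
        h2.congr fun j l => (hGe z (by rw [hz]; linarith) j l).symm
      refine (h3 α β).trans (le_of_eq ?_); ring

section conj

variable {U : Matrix J J ℂ} {V : Matrix L L ℂ} {d : J → ℂ → ℂ} {e : L → ℂ → ℂ}

lemma conj_left {z : ℂ} {s : ℂ} (h : Uᴴ * Tu z = diagonal (fun k => d k s) * Uᴴ) (A : Matrix J L ℂ) :
    Uᴴ * (Tu z * A) * V = diagonal (fun k => d k s) * (Uᴴ * A * V) := by
  calc Uᴴ * (Tu z * A) * V = (Uᴴ * Tu z) * A * V := by simp only [Matrix.mul_assoc]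
    _ = _ := by rw [h]; simp only [Matrix.mul_assoc]

lemma conj_right {z : ℂ} {s : ℂ} (h : Tl z * V = V * diagonal (fun k => e k s)) (A : Matrix J L ℂ) :
    Uᴴ * (A * Tl z) * V = (Uᴴ * A * V) * diagonal (fun k => e k s) := by
  calc Uᴴ * (A * Tl z) * V = Uᴴ * A * (Tl z * V) := by simp only [Matrix.mul_assoc]
    _ = _ := by rw [h]; simp only [Matrix.mul_assoc]

lemma conj_left_pow {z : ℂ} {s : ℂ} (h : Uᴴ * Tu z = diagonal (fun k => d k s) * Uᴴ) (A : Matrix J L ℂ) (p : ℕ) :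
    Uᴴ * (Tu z ^ p * A) * V = diagonal (fun k => d k s ^ p) * (Uᴴ * A * V) := by
  induction p generalizing A with
  | zero => simp
  | succ p ih =>
    have e1 : Tu z ^ (p + 1) * A = Tu z ^ p * (Tu z * A) := by rw [pow_succ, Matrix.mul_assoc]
    rw [e1, ih, conj_left h, ← Matrix.mul_assoc, diagonal_mul_diagonal]
    simp only [pow_succ]

lemma conj_right_pow {z : ℂ} {s : ℂ} (h : Tl z * V = V * diagonal (fun k => e k s)) (A : Matrix J L ℂ) (p : ℕ) :
    Uᴴ * (A * Tl z ^ p) * V = (Uᴴ * A * V) * diagonal (fun k => e k s ^ p) := by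
  induction p generalizing A with
  | zero => simp
  | succ p ih =>
    have e1 : A * Tl z ^ (p + 1) = (A * Tl z) * Tl z ^ p := by rw [pow_succ', Matrix.mul_assoc]
    rw [e1, ih, conj_right h, Matrix.mul_assoc, diagonal_mul_diagonal]
    simp only [pow_succ']

/-- back to the original basis -/
lemma Bd.unconj {A : Matrix J L ℂ} {C : ℝ} (hU1 : Uᴴ * U = 1) (hU2 : U * Uᴴ = 1) (hV2 : V * Vᴴ = 1)
    (hC : 0 ≤ C) (h : Bd (fun j l => (Uᴴ * A * V) j l) C) : Bd (fun i j => A i j) C := by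
  have hVh : Bd (fun i j => Vᴴ i j) 1 := Bd.unitary (by rw [conjTranspose_conjTranspose]; exact hV2)
  have hUb : Bd (fun i j => U i j) 1 := Bd.unitary hU1
  have e : A = U * (Uᴴ * A * V) * Vᴴ := by
    calc A = (U * Uᴴ) * A * (V * Vᴴ) := by rw [hU2, hV2, Matrix.one_mul, Matrix.mul_one]
      _ = _ := by simp only [Matrix.mul_assoc]
  have := (hUb.mmul h zero_le_one hC).mmul hVh (by linarith) zero_le_one
  rw [one_mul, mul_one, ← e] at this
  exact this

end conj

lemma Cf_nonneg {C : ℝ} (hC : 1 ≤ C) : 0 ≤ Cf C := by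
  unfold Cf Tc Fc Pc Hc
  have := Ec_pos hC; have := B0c_pos hC; have := B1c_pos hC; have := ca_pos; have := C2_ge; have := Real.exp_pos 11
  positivity

/-- **THE ENGINE (Theorem Y), operator form.** -/
theorem oper_bound (Ru : Row N Tu) (Rl : Row N Tl) (hC : 1 ≤ C₀) (hW : Bd (fun i j => W i j) C₀)
    (hG : ∀ u : ℂ, |u.re - Real.pi / 6| = Real.pi / 6 → Bd (fun i j => Gd Tu Tl W u i j) (C₀ * min 1 (Real.exp (-u.im))))
    {m : ℕ} (hm : 1 ≤ m) (hN : 20 * m ≤ N) :
    Bd (fun i j => (Tu ((Real.pi / 6 : ℝ) : ℂ) ^ (20 * m) * Xbar Tu Tl W * Tl ((Real.pi / 6 : ℝ) : ℂ) ^ (20 * m)) i j)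
      (Cf (2 * C₀) * (m : ℝ) ^ (-(6 / 5) : ℝ)) := by
  obtain ⟨U, V, hU1, hU2, hV1, hV2, hTu, hTl, D⟩ := oper_data Ru Rl hC hW hG
  have hpi := Real.pi_pos
  have key := fin_bound D hm hN
  have hz0 : |(0 : ℂ).im| < Real.pi / 2 := by rw [zero_im, abs_zero]; positivity
  have hz1 : |sh.im| < Real.pi / 2 := by rw [sh_im, abs_of_pos (by positivity)]; linarith
  have hz2 : |(-sh).im| < Real.pi / 2 := by rw [neg_im, abs_neg]; exact hz1
  have u0 := hTu 0 hz0
  have u1 := hTu sh hz1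
  have u2 := hTu (-sh) hz2
  have l0 := hTl 0 hz0
  have l2 := hTl (-sh) hz2
  rw [par_zero] at u0 l0
  rw [par_sh] at u1
  rw [par_neg_sh] at u2 l2
  have hCf : 0 ≤ Cf (2 * C₀) * (m : ℝ) ^ (-(6 / 5) : ℝ) := mul_nonneg (Cf_nonneg (by linarith)) (by positivity)
  refine Bd.unconj hU1 hU2 hV2 hCf (key.congr fun j l => ?_)
  have hX : Uᴴ * Xo Tu Tl W * V = Matrix.of (Xm (dg Tu U) (dg Tl V) (fun j l => (Uᴴ * W * V) j l)) := by
    unfold Xo Gd
    rw [Matrix.mul_sub, Matrix.mul_sub, Matrix.sub_mul, Matrix.sub_mul, Matrix.mul_smul, Matrix.smul_mul, Matrix.mul_sub,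
      Matrix.sub_mul, conj_left u0, conj_right l0, conj_left u2, conj_right l2]
    ext j l
    simp only [Matrix.sub_apply, Matrix.smul_apply, mul_diagonal, diagonal_mul, of_apply, smul_eq_mul, Xm]
    ring
  rw [conj_right_pow l0, conj_left_pow u0, Xbar, Matrix.mul_smul, Matrix.smul_mul, Matrix.mul_add, Matrix.add_mul,
    conj_right l2, conj_left u1, hX]
  simp only [Matrix.add_apply, Matrix.smul_apply, mul_diagonal, diagonal_mul, of_apply, smul_eq_mul, Fin', Am]

end Eng
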