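import Pool.Agent.Full.Eng.Bilin

/-!
# The sector estimates

Two families of eigenvalues `d j`, `e l` (above and below the point `z`), a matrix `w j l` (the half column) and
`G s j l = w j l (e l s - d j s)`.
-/

set_option autoImplicit false

namespace Eng

open Complex Set Filter Topology Metric Ann

variable {J L : Type*} [Fintype J] [Fintype L]

/-- the input of the engine, in diagonal form -/
structure Data (K : ℕ) (C₀ : ℝ) (d : J → ℂ → ℂ) (e : L → ℂ → ℂ) (w : J → L → ℂ) : Prop where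
  hd : ∀ j, SE K (d j)
  hdr : ∀ j, IsRealF (d j)
  he : ∀ l, SE K (e l)
  her : ∀ l, IsRealF (e l)
  hC : 1 ≤ C₀
  hw : Bd w C₀
  hG : ∀ s : ℂ, |s.im| ≤ Real.pi / 6 → Bd (fun j l => w j l * (e l s - d j s)) (C₀ * min 1 (Real.exp s.re))

/-- indicator of the low states of a given sign -/
noncomputable def ind (K : ℕ) (X σ : ℝ) (f : ℂ → ℂ) : ℂ := by
  classical exact if Low K X f ∧ sg f = σ then 1 else 0

lemma ind_cases (K : ℕ) (X σ : ℝ) (f : ℂ → ℂ) : ind K X σ f = 0 ∨ (ind K X σ f = 1 ∧ Low K X f ∧ sg f = σ) := by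
  unfold ind
  split_ifs with h
  · exact Or.inr ⟨rfl, h⟩
  · exact Or.inl rfl

lemma ind_sq (K : ℕ) (X σ : ℝ) (f : ℂ → ℂ) : ind K X σ f * ind K X σ f = ind K X σ f := by
  rcases ind_cases K X σ f with h | h
  · rw [h]; ring
  · rw [h.1]; ring

variable {K : ℕ} {f : ℂ → ℂ} {X σ σ' : ℝ}

lemma norm_ind_mul {z : ℂ} {C : ℝ} (hC : 0 ≤ C) (h : Low K X f → sg f = σ → ‖z‖ ≤ C) : ‖ind K X σ f * z‖ ≤ C := by
  rcases ind_cases K X σ f with h1 | h1
  · rw [h1, zero_mul, norm_zero]; exact hC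
  · rw [h1.1, one_mul]; exact h h1.2.1 h1.2.2

lemma W_le_exp (x : ℝ) : W x ≤ 2 * Real.exp (3 * |x|) := by
  unfold W
  have h1 : Real.cosh (3 * x) = Real.cosh (3 * |x|) := by
    rcases abs_cases x with h | h
    · rw [h.1]
    · rw [h.1, mul_neg, Real.cosh_neg]
  rw [h1, Real.cosh_eq]
  have h2 : Real.exp (-(3 * |x|)) ≤ 1 := Real.exp_le_one_iff.2 (by have := abs_nonneg x; linarith)
  have h3 : 1 ≤ Real.exp (3 * |x|) := Real.one_le_exp (by positivity)
  linarith

/-- constant of `F1` -/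
noncomputable def ca : ℝ := 12000000 * C2

lemma ca_pos : 0 < ca := by unfold ca; have := C2_ge; linarith

lemma F1 (h : SE K f) (hr : IsRealF f) {m : ℕ} (hm : 1 ≤ m) (hmK : m ≤ K) {s : ℂ} (hs : |s.im| ≤ Real.pi / 4)
    (hs2 : |s.re| ≤ X) : ‖ind K X σ f * (((σ : ℂ) - f s) * f 0 ^ m)‖ ≤ 2 * ca * (Real.exp (3 * |s.re|) / m) := by
  have hca := ca_pos
  have hm0 : (0 : ℝ) < m := by exact_mod_cast hm
  refine norm_ind_mul (by positivity) fun hL hσ => ?_
  have h1 := hL.smooth_near h hr hm hmK hs hs2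
  rw [hσ] at h1
  have h2 := W_le_exp s.re
  rw [norm_mul, norm_pow, ← mul_div_assoc, le_div_iff₀ hm0]
  refine h1.trans ?_
  unfold ca
  have := C2_ge
  nlinarith

lemma F3 (h : SE K f) (hr : IsRealF f) {p : ℕ} (hp : p ≤ K) : ‖ind K X σ f * f 0 ^ p‖ ≤ C2 := by
  have := C2_ge
  refine norm_ind_mul (by linarith) fun _ _ => ?_
  rw [norm_pow]
  exact pow_le_C2 h hr hp

/-- constant of `F4` -/
noncomputable def Yc : ℝ := 3 * (Nat.factorial 30) * 4 ^ 30

lemma Yc_pos : 0 < Yc := by unfold Yc; positivity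

lemma F4 (h : SE K f) {t : ℝ} (ht : 1 ≤ t) (htK : t ^ 30 ≤ K) {s : ℂ} (hs : |s.im| ≤ Real.pi / 12)
    (hW : W s.re ≤ 2 * t ^ 27) : ‖yf f s‖ ≤ Yc / t ^ 90 := by
  have h1 := h.y_pow 30 hs
  have hW0 := W_pos s.re
  have ht0 : (0 : ℝ) < t := by linarith
  rw [le_div_iff₀ (by positivity)]
  have h2 : ‖yf f s‖ * (t ^ 30) ^ 30 ≤ 3 * (Nat.factorial 30) * (2 * (2 * t ^ 27)) ^ 30 := by
    calc ‖yf f s‖ * (t ^ 30) ^ 30 ≤ ‖yf f s‖ * (K : ℝ) ^ 30 := by gcongr
      _ ≤ 3 * (Nat.factorial 30) * (2 * W s.re) ^ 30 := h1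
      _ ≤ _ := by gcongr
  have h3 : 3 * ((Nat.factorial 30 : ℕ) : ℝ) * (2 * (2 * t ^ 27)) ^ 30 = Yc * t ^ 810 := by unfold Yc; ring
  have h4 : ‖yf f s‖ * (t ^ 30) ^ 30 = (‖yf f s‖ * t ^ 90) * t ^ 810 := by ring
  rw [h3, h4] at h2
  exact le_of_mul_le_mul_right h2 (by positivity)

section

variable {C₀ : ℝ} {d : J → ℂ → ℂ} {e : L → ℂ → ℂ} {w : J → L → ℂ}

/-- the smoothed, projected matrix -/
noncomputable def Bm (K : ℕ) (X σ σ' : ℝ) (d : J → ℂ → ℂ) (e : L → ℂ → ℂ) (w : J → L → ℂ) (m : ℕ) (s : ℂ) : J → L → ℂ :=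
  fun j l => (ind K X σ (d j) * d j 0 ^ m) * (w j l * (e l s - d j s)) * (ind K X σ' (e l) * e l 0 ^ m)

lemma sh_shift {s : ℂ} : s + 2 * sh = s + sh + sh := by ring

/-- `f (s + 2 sh) f s = 1 + y (s + sh)` -/
lemma yf_mid (f : ℂ → ℂ) (s : ℂ) : f (s + 2 * sh) * f s = 1 + yf f (s + sh) := by
  rw [yf, show s + sh + sh = s + 2 * sh by ring, show s + sh - sh = s by ring]; ring

/-- parameters -/
structure Par (K m : ℕ) (t X : ℝ) : Prop where
  hm : 1 ≤ m
  hK : 20 * m ≤ K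
  ht : 1 ≤ t
  htm : t ^ 30 = m
  hX : Real.exp X = t ^ 9
  hX0 : 0 ≤ X

variable {m : ℕ} {t : ℝ}

lemma Par.t_pos (p : Par K m t X) : 0 < t := by linarith [p.ht]

lemma Par.hK1 (p : Par K m t X) : 1 ≤ K := by have := p.hm; have := p.hK; omega

lemma Par.tK (p : Par K m t X) : t ^ 30 ≤ K := by
  rw [p.htm]
  exact_mod_cast (by have := p.hK; omega : m ≤ K)

lemma Par.exp3 (p : Par K m t X) {x : ℝ} (hx : |x| ≤ X) : Real.exp (3 * |x|) ≤ t ^ 27 := by
  calc Real.exp (3 * |x|) ≤ Real.exp (3 * X) := Real.exp_le_exp.2 (by linarith)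
    _ = Real.exp X ^ 3 := by rw [← Real.exp_nat_mul]; norm_num
    _ = t ^ 27 := by rw [p.hX]; ring

lemma Par.W_le (p : Par K m t X) {x : ℝ} (hx : |x| ≤ X) : W x ≤ 2 * t ^ 27 :=
  (W_le_exp x).trans (by have := p.exp3 hx; linarith)

/-- constant -/
noncomputable def B0c (C₀ : ℝ) : ℝ := 4 * C2 ^ 2 * C₀ * (1 + Yc)

lemma min_nonneg' (x : ℝ) : 0 ≤ min 1 (Real.exp x) := le_min zero_le_one (Real.exp_pos _).le

/-- the bound up to `-π/4` -/
lemma B0 (D : Data K C₀ d e w) (p : Par K m t X) {q : ℕ} (hq : q ≤ K) {s : ℂ} (h1 : -(Real.pi / 4) ≤ s.im) (h2 : s.im ≤ Real.pi / 6)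
    (hs : |s.re| ≤ X) : Bd (Bm K X σ σ' d e w q s) (B0c C₀ * min 1 (Real.exp s.re)) := by
  have hp := Real.pi_pos
  have hC2 := C2_ge
  have hYc := Yc_pos
  have hC := D.hC
  have hmn := min_nonneg' s.re
  rcases le_total (-(Real.pi / 6)) s.im with h3 | h3
  · have k := (D.hG s (abs_le.2 ⟨h3, h2⟩)).mul (by positivity)
      (a := fun j => ind K X σ (d j) * d j 0 ^ q) (b := fun l => ind K X σ' (e l) * e l 0 ^ q)
      (fun j => F3 (D.hd j) (D.hdr j) hq) (fun l => F3 (D.he l) (D.her l) hq) (by linarith) (by linarith)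
    refine k.mono ?_
    unfold B0c
    have h4 : 0 ≤ C2 ^ 2 * C₀ * min 1 (Real.exp s.re) := by positivity
    nlinarith [mul_nonneg h4 hYc.le]
  · -- reflection
    set s' := s + 2 * sh with hs'
    have hs're : s'.re = s.re := by simp [hs']
    have hs'im : s'.im = s.im + Real.pi / 3 := by simp [hs']; ring
    have hs'4 : |s'.im| ≤ Real.pi / 4 := by rw [hs'im, abs_le]; constructor <;> linarith
    have hs'6 : |s'.im| ≤ Real.pi / 6 := by rw [hs'im, abs_le]; constructor <;> linarith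
    have hs4 : |s.im| ≤ Real.pi / 4 := by rw [abs_le]; constructor <;> linarith
    have hmid : |(s + sh).im| ≤ Real.pi / 12 := by rw [add_sh_im, abs_le]; constructor <;> linarith
    have hmidre : (s + sh).re = s.re := by simp
    have hinv : ∀ (f : ℂ → ℂ) (σ : ℝ) (c : ℂ) (B : ℝ), SE K f → IsRealF f → 0 ≤ B → (Low K X f → sg f = σ → ‖c‖ ≤ B) →
        ‖ind K X σ f * (c / f s')‖ ≤ 2 * B := by
      intro f σ c B hf hfr hB hc
      refine norm_ind_mul (by positivity) fun hL hσ => ?_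
      have h5 := hL.norm_ge hf hfr p.hK1 hs'4 (by rw [hs're]; exact hs)
      rw [norm_div, div_le_iff₀ (by linarith)]
      have h6 := hc hL hσ
      nlinarith
    have k1 := (D.hG s' hs'6).mul (by positivity)
      (a := fun j => ind K X σ (d j) * (d j 0 ^ q / d j s')) (b := fun l => ind K X σ' (e l) * (e l 0 ^ q / e l s'))
      (κ := 2 * C2) (κ' := 2 * C2)
      (fun j => hinv _ _ _ _ (D.hd j) (D.hdr j) (by linarith) fun _ _ => by rw [norm_pow]; exact pow_le_C2 (D.hd j) (D.hdr j) hq)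
      (fun l => hinv _ _ _ _ (D.he l) (D.her l) (by linarith) fun _ _ => by rw [norm_pow]; exact pow_le_C2 (D.he l) (D.her l) hq)
      (by linarith) (by linarith)
    have hyt : 0 ≤ Yc / t ^ 90 := by have := p.t_pos; positivity
    have hF4 : ∀ f : ℂ → ℂ, SE K f → ‖yf f (s + sh)‖ ≤ Yc / t ^ 90 := fun f hf =>
      F4 hf p.ht p.tK hmid (by rw [hmidre]; exact p.W_le hs)
    have k2 := D.hw.mul (by linarith)
      (a := fun j => ind K X σ (d j) * d j 0 ^ q) (b := fun l => ind K X σ' (e l) * (e l 0 ^ q * yf (e l) (s + sh) / e l s'))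
      (κ := C2) (κ' := 2 * (C2 * (Yc / t ^ 90)))
      (fun j => F3 (D.hd j) (D.hdr j) hq)
      (fun l => hinv _ _ _ _ (D.he l) (D.her l) (by positivity) fun _ _ => by
        rw [norm_mul, norm_pow]
        exact mul_le_mul (pow_le_C2 (D.he l) (D.her l) hq) (hF4 _ (D.he l)) (norm_nonneg _) (by linarith))
      (by linarith) (by positivity)
    have k3 := D.hw.mul (by linarith)
      (a := fun j => ind K X σ (d j) * (d j 0 ^ q * yf (d j) (s + sh) / d j s')) (b := fun l => ind K X σ' (e l) * e l 0 ^ q)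
      (κ := 2 * (C2 * (Yc / t ^ 90))) (κ' := C2)
      (fun j => hinv _ _ _ _ (D.hd j) (D.hdr j) (by positivity) fun _ _ => by
        rw [norm_mul, norm_pow]
        exact mul_le_mul (pow_le_C2 (D.hd j) (D.hdr j) hq) (hF4 _ (D.hd j)) (norm_nonneg _) (by linarith))
      (fun l => F3 (D.he l) (D.her l) hq) (by positivity) (by linarith)
    have k4 := ((k1.neg).add k2).sub k3
    refine (k4.congr ?_).mono ?_
    · intro j l
      unfold Bm
      rcases ind_cases K X σ (d j) with hj | hj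
      · rw [hj]; ring
      rcases ind_cases K X σ' (e l) with hl | hl
      · rw [hl]; ring
      have hdn : d j s' ≠ 0 := by
        have := hj.2.1.norm_ge (D.hd j) (D.hdr j) p.hK1 hs'4 (by rw [hs're]; exact hs)
        intro h0; rw [h0, norm_zero] at this; linarith
      have hen : e l s' ≠ 0 := by
        have := hl.2.1.norm_ge (D.he l) (D.her l) p.hK1 hs'4 (by rw [hs're]; exact hs)
        intro h0; rw [h0, norm_zero] at this; linarith
      have e1 : d j s = (1 + yf (d j) (s + sh)) / d j s' := by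
        rw [eq_div_iff hdn, mul_comm]; exact yf_mid _ _
      have e2 : e l s = (1 + yf (e l) (s + sh)) / e l s' := by
        rw [eq_div_iff hen, mul_comm]; exact yf_mid _ _
      rw [hj.1, hl.1, e1, e2]
      field_simp
      ring
    · -- constants
      rw [hs're]
      have ht := p.t_pos
      have ht1 := p.ht
      have h5 : 1 / t ^ 90 ≤ min 1 (Real.exp s.re) := by
        apply le_min
        · rw [div_le_one (by positivity)]; exact one_le_pow₀ ht1
        · have h6 : Real.exp (-X) ≤ Real.exp s.re := Real.exp_le_exp.2 (abs_le.1 hs).1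
          refine le_trans ?_ h6
          rw [Real.exp_neg, p.hX, one_div]
          apply inv_anti₀ (by positivity)
          exact pow_le_pow_right₀ ht1 (by norm_num)
      have h6 : Yc / t ^ 90 ≤ Yc * min 1 (Real.exp s.re) := by
        calc Yc / t ^ 90 = Yc * (1 / t ^ 90) := by ring
          _ ≤ _ := by gcongr
      have h7 : C2 * C₀ * (2 * (C2 * (Yc / t ^ 90))) ≤ C2 * C₀ * (2 * (C2 * (Yc * min 1 (Real.exp s.re)))) := by gcongr
      have h8 : 2 * (C2 * (Yc / t ^ 90)) * C₀ * C2 ≤ 2 * (C2 * (Yc * min 1 (Real.exp s.re))) * C₀ * C2 := by gcongr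
      unfold B0c
      nlinarith

/-- constant -/
noncomputable def B1c (C₀ : ℝ) : ℝ := 4 * ca * C2 * C₀

/-- equal signs: the smoothed matrix is small -/
lemma B1 (D : Data K C₀ d e w) {q : ℕ} (hq0 : 1 ≤ q) (hq : q ≤ K) {s : ℂ} (h1 : |s.im| ≤ Real.pi / 4)
    (hs : |s.re| ≤ X) : Bd (Bm K X σ σ d e w q s) (B1c C₀ * (Real.exp (3 * |s.re|) / q)) := by
  have hC2 := C2_ge
  have hca := ca_pos
  have hC := D.hC
  have hq' : (0 : ℝ) < q := by exact_mod_cast hq0
  have k2 := D.hw.mul (by linarith)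
    (a := fun j => ind K X σ (d j) * d j 0 ^ q) (b := fun l => ind K X σ (e l) * (((σ : ℂ) - e l s) * e l 0 ^ q))
    (fun j => F3 (D.hd j) (D.hdr j) hq) (fun l => F1 (D.he l) (D.her l) hq0 hq h1 hs) (by linarith) (by positivity)
  have k3 := D.hw.mul (by linarith)
    (a := fun j => ind K X σ (d j) * (((σ : ℂ) - d j s) * d j 0 ^ q)) (b := fun l => ind K X σ (e l) * e l 0 ^ q)
    (fun j => F1 (D.hd j) (D.hdr j) hq0 hq h1 hs) (fun l => F3 (D.he l) (D.her l) hq) (by positivity) (by linarith)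
  refine ((k3.sub k2).congr ?_).mono ?_
  · intro j l
    unfold Bm
    ring
  · unfold B1c
    apply le_of_eq
    ring

/-- the (anti)periodicity error; `ν = σ σ'` -/
lemma Er (D : Data K C₀ d e w) (p : Par K m t X) (hσ' : σ' ^ 2 = 1) {x β : ℝ} (hx : |x| ≤ X) (hβ : 0 ≤ β)
    (hB : Bd (Bm K X σ σ' d e w m (pt x (-(Real.pi / 4)))) β) :
    Bd (fun j l => Bm K X σ σ' d e w (2 * m) (pt x (Real.pi / 12)) j l +
      ((σ * σ' : ℝ) : ℂ) * Bm K X σ σ' d e w (2 * m) (pt x (-(Real.pi / 4))) j l)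
      (5 * ca * C2 * (β * (Real.exp (3 * |x|) / m)) + 3 * C2 ^ 2 * C₀ * (Yc / t ^ 90)) := by
  have hp := Real.pi_pos
  have hC2 := C2_ge
  have hca := ca_pos
  have hYc := Yc_pos
  have hC := D.hC
  have ht := p.t_pos
  have hm0 : (0 : ℝ) < m := by exact_mod_cast p.hm
  set s := pt x (-(Real.pi / 4)) with hs
  have hs' : pt x (Real.pi / 12) = s + 2 * sh := by
    apply Complex.ext
    · simp [hs]
    · simp [hs]; ring
  rw [hs']
  set s' := s + 2 * sh with hs'd
  have hs're : s'.re = x := by simp [hs'd, hs]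
  have hs'im : s'.im = Real.pi / 12 := by simp [hs'd, hs]; ring
  have hs'4 : |s'.im| ≤ Real.pi / 4 := by rw [hs'im, abs_of_pos (by positivity)]; linarith
  have hs're' : |s'.re| ≤ X := by rw [hs're]; exact hx
  have hmid : |(s + sh).im| ≤ Real.pi / 12 := by
    rw [add_sh_im, hs, pt_im, abs_le]; constructor <;> linarith
  have hmidre : (s + sh).re = x := by simp [hs]
  have hmK : m ≤ K := by have := p.hK; omega
  have h2mK : 2 * m ≤ K := by have := p.hK; omega
  have hF4 : ∀ f : ℂ → ℂ, SE K f → ‖yf f (s + sh)‖ ≤ Yc / t ^ 90 := fun f hf =>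
    F4 hf p.ht p.tK hmid (by rw [hmidre]; exact p.W_le hx)
  have hns : ‖(σ' : ℂ)‖ = 1 := by
    rw [Complex.norm_real, Real.norm_eq_abs]
    exact (pow_eq_one_iff_of_nonneg (abs_nonneg _) two_ne_zero).1 (by rw [sq_abs]; exact hσ')
  -- multipliers
  have m1 : ∀ j, ‖ind K X σ (d j) * (((σ : ℂ) - d j s') * d j 0 ^ m)‖ ≤ 2 * ca * (Real.exp (3 * |x|) / m) := by
    intro j
    have := F1 (σ := σ) (D.hd j) (D.hdr j) p.hm hmK hs'4 hs're'
    rwa [hs're] at this
  have m2 : ∀ l, ‖ind K X σ' (e l) * (((σ' : ℂ) - e l s') * e l 0 ^ m)‖ ≤ 2 * ca * (Real.exp (3 * |x|) / m) := by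
    intro l
    have := F1 (σ := σ') (D.he l) (D.her l) p.hm hmK hs'4 hs're'
    rwa [hs're] at this
  have m3 : ∀ l, ‖ind K X σ' (e l) * ((σ' : ℂ) * e l 0 ^ m)‖ ≤ C2 := by
    intro l
    refine norm_ind_mul (by linarith) fun _ _ => ?_
    rw [norm_mul, hns, one_mul, norm_pow]
    exact pow_le_C2 (D.he l) (D.her l) hmK
  have m4 : ∀ q : ℕ, q ≤ K → ∀ j, ‖ind K X σ (d j) * (d j s' * d j 0 ^ q)‖ ≤ 3 / 2 * C2 := by
    intro q hq j
    refine norm_ind_mul (by linarith) fun hL _ => ?_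
    rw [norm_mul, norm_pow]
    exact mul_le_mul (hL.norm_le (D.hd j) (D.hdr j) p.hK1 hs'4 hs're') (pow_le_C2 (D.hd j) (D.hdr j) hq) (by positivity)
      (by norm_num)
  have m5 : ∀ q : ℕ, q ≤ K → ∀ l, ‖ind K X σ' (e l) * (e l s' * e l 0 ^ q)‖ ≤ 3 / 2 * C2 := by
    intro q hq l
    refine norm_ind_mul (by linarith) fun hL _ => ?_
    rw [norm_mul, norm_pow]
    exact mul_le_mul (hL.norm_le (D.he l) (D.her l) p.hK1 hs'4 hs're') (pow_le_C2 (D.he l) (D.her l) hq) (by positivity)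
      (by norm_num)
  have m6 : ∀ l, ‖ind K X σ' (e l) * (yf (e l) (s + sh) * e l 0 ^ (2 * m))‖ ≤ Yc / t ^ 90 * C2 := by
    intro l
    refine norm_ind_mul (by positivity) fun _ _ => ?_
    rw [norm_mul, norm_pow]
    exact mul_le_mul (hF4 _ (D.he l)) (pow_le_C2 (D.he l) (D.her l) h2mK) (by positivity) (by positivity)
  have m7 : ∀ j, ‖ind K X σ (d j) * (yf (d j) (s + sh) * d j 0 ^ (2 * m))‖ ≤ Yc / t ^ 90 * C2 := by
    intro j
    refine norm_ind_mul (by positivity) fun _ _ => ?_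
    rw [norm_mul, norm_pow]
    exact mul_le_mul (hF4 _ (D.hd j)) (pow_le_C2 (D.hd j) (D.hdr j) h2mK) (by positivity) (by positivity)
  have k1 := hB.mul hβ m1 m3 (by positivity) (by linarith)
  have k2 := hB.mul hβ (m4 m hmK) m2 (by linarith) (by positivity)
  have k3 := D.hw.mul (by linarith) (m4 (2 * m) h2mK) m6 (by linarith) (by positivity)
  have k4 := D.hw.mul (by linarith) m7 (m5 (2 * m) h2mK) (by positivity) (by linarith)
  refine ((((k1.add k2).add k3).sub k4).congr ?_).mono ?_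
  · intro j l
    unfold Bm
    have e1 := yf_mid (d j) s
    have e2 := yf_mid (e l) s
    rw [← hs'd] at e1 e2
    have i1 := ind_sq K X σ (d j)
    have i2 := ind_sq K X σ' (e l)
    rcases ind_cases K X σ (d j) with hj | hj
    · rw [hj]; ring
    rcases ind_cases K X σ' (e l) with hl | hl
    · rw [hl]; ring
    rw [hj.1, hl.1]
    have y1 : yf (d j) (s + sh) = d j s' * d j s - 1 := by rw [e1]; ring
    have y2 : yf (e l) (s + sh) = e l s' * e l s - 1 := by rw [e2]; ring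
    rw [y1, y2]
    push_cast
    ring
  · apply le_of_eq
    ring

end

end Eng
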