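import Pool.Agent.Full.Eng.Scalar

/-!
# Smoothing by powers of the value at `0`
-/

set_option autoImplicit false

namespace Eng

open Complex Set Filter Topology Metric Ann

variable {K : ℕ} {d : ℂ → ℂ}

/-- the sign of the (real) value at `0` -/
noncomputable def sg (d : ℂ → ℂ) : ℝ := if 0 ≤ (d 0).re then 1 else -1

lemma sg_sq (d : ℂ → ℂ) : sg d ^ 2 = 1 := by
  unfold sg; split_ifs <;> norm_num

lemma sg_cases (d : ℂ → ℂ) : sg d = 1 ∨ sg d = -1 := by
  unfold sg; split_ifs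
  · exact Or.inl rfl
  · exact Or.inr rfl

lemma real_zero (hr : IsRealF d) : d 0 = ((d 0).re : ℂ) := by
  have h := hr 0 (by simp; exact Real.pi_pos)
  rw [map_zero] at h
  exact (Complex.conj_eq_iff_re.1 h.symm).symm

/-- `E = K |σ - d 0|` -/
noncomputable def En (K : ℕ) (d : ℂ → ℂ) : ℝ := K * ‖(sg d : ℂ) - d 0‖

lemma En_nonneg (K : ℕ) (d : ℂ → ℂ) : 0 ≤ En K d := by unfold En; positivity

lemma toLS (h : SE K d) (hr : IsRealF d) : LS K d (sg d) (En K d) := ⟨h, hr, sg_sq d, le_rfl⟩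

lemma norm_sg_sub (hr : IsRealF d) : ‖(sg d : ℂ) - d 0‖ = |1 - ‖d 0‖| := by
  have h := real_zero hr
  rw [h, ← ofReal_sub, Complex.norm_real, Complex.norm_real, Real.norm_eq_abs, Real.norm_eq_abs]
  unfold sg
  split_ifs with h0
  · rw [abs_of_nonneg h0]
  · push Not at h0
    rw [abs_of_neg h0, ← abs_neg (-1 - (d 0).re)]
    congr 1
    ring

/-- the constant of the smoothing lemma -/
noncomputable def C2 : ℝ := 13 * Real.exp 24

lemma C2_ge : 13 ≤ C2 := by
  unfold C2
  have := Real.one_le_exp (show (0 : ℝ) ≤ 24 by norm_num)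
  linarith

lemma smooth (h : SE K d) (hr : IsRealF d) {m : ℕ} (hm : 1 ≤ m) (hmK : m ≤ K) :
    (En K d + 1) * ‖d 0‖ ^ m * m ≤ C2 * K := by
  have hK1 : 1 ≤ K := hm.trans hmK
  have hK : (1 : ℝ) ≤ K := by exact_mod_cast hK1
  have hm1 : (1 : ℝ) ≤ m := by exact_mod_cast hm
  have hmK' : (m : ℝ) ≤ K := by exact_mod_cast hmK
  have hC := C2_ge
  rw [En, norm_sg_sub hr]
  set r := ‖d 0‖ with hrdef
  have hr0 : 0 ≤ r := norm_nonneg _
  rcases le_total r 1 with h1 | h1
  · rw [abs_of_nonneg (by linarith)]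
    set v := 1 - r with hv
    have hv0 : 0 ≤ v := by linarith
    have hrv : r = 1 - v := by rw [hv]; ring
    -- (1-v)^m (1 + m v) ≤ 1
    have h2 : (1 - v) ^ m * (1 + m * v) ≤ 1 := by
      have h3 := one_add_mul_le_pow (a := v) (by linarith) m
      have h4 : (1 - v) ^ m * (1 + v) ^ m ≤ 1 := by
        rw [← mul_pow]
        apply pow_le_one₀
        · nlinarith
        · nlinarith
      have h5 : 0 ≤ (1 - v) ^ m := pow_nonneg (by linarith) _
      calc (1 - v) ^ m * (1 + m * v) ≤ (1 - v) ^ m * (1 + v) ^ m := by gcongr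
        _ ≤ 1 := h4
    rw [hrv]
    have h5 : 0 ≤ (1 - v) ^ m := pow_nonneg (by linarith) _
    have h6 : (1 - v) ^ m ≤ 1 := pow_le_one₀ (by linarith) (by linarith)
    have h7 : (K * v + 1) * (1 - v) ^ m * m = K * ((1 - v) ^ m * (m * v)) + m * (1 - v) ^ m := by ring
    rw [h7]
    have h8 : (1 - v) ^ m * (m * v) ≤ 1 := by nlinarith
    have h9 : m * (1 - v) ^ m ≤ K := by nlinarith
    nlinarith
  · rw [abs_of_nonpos (by linarith)]
    have h2 := h.norm_sq_le 0
    rw [ofReal_zero, th_zero, norm_zero, sub_zero, mul_one, ← hrdef] at h2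
    have h3 : (24 : ℝ) / (1 + K) ≤ 24 / K := div_le_div_of_nonneg_left (by norm_num) (by linarith) (by linarith)
    have h4 : r ≤ Real.exp (12 / K) := by
      apply le_of_sq_le_sq _ (Real.exp_pos _).le
      refine h2.trans ?_
      rw [← Real.exp_nat_mul]
      apply Real.exp_le_exp.2
      refine h3.trans (le_of_eq ?_)
      push_cast; ring
    have h5 : r ^ m ≤ Real.exp 12 := by
      calc r ^ m ≤ Real.exp (12 / K) ^ m := by gcongr
        _ = Real.exp (m * (12 / K)) := by rw [← Real.exp_nat_mul]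
        _ ≤ Real.exp 12 := by
          apply Real.exp_le_exp.2
          rw [← mul_div_assoc, div_le_iff₀ (by linarith)]
          linarith
    -- `K (r - 1) ≤ 12 e^12`
    have h6 : K * (r - 1) ≤ 12 * Real.exp 12 := by
      have h7 : Real.exp (12 / K) * (1 - 12 / K) ≤ 1 := by
        have := Real.add_one_le_exp (-(12 / K : ℝ))
        have h8 : Real.exp (12 / K) * Real.exp (-(12 / K)) = 1 := by rw [← Real.exp_add]; simp
        have h9 := Real.exp_pos (12 / K : ℝ)
        nlinarith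
      have h8 : Real.exp (12 / K) - 1 ≤ 12 / K * Real.exp (12 / K) := by linarith
      have h9 : Real.exp (12 / K) ≤ Real.exp 12 := Real.exp_le_exp.2 (div_le_self (by norm_num) hK)
      have h10 : r - 1 ≤ 12 / K * Real.exp 12 := by
        have h11 : 12 / K * Real.exp (12 / K) ≤ 12 / K * Real.exp 12 := by gcongr
        linarith
      calc K * (r - 1) ≤ K * (12 / K * Real.exp 12) := by gcongr
        _ = 12 * Real.exp 12 := by field_simp
    have h11 := Real.one_le_exp (show (0 : ℝ) ≤ 12 by norm_num)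
    have h12 : Real.exp 24 = Real.exp 12 * Real.exp 12 := by rw [← Real.exp_add]; norm_num
    have h13 : K * -(1 - r) + 1 ≤ 13 * Real.exp 12 := by linarith
    have h14 : 0 ≤ K * -(1 - r) + 1 := by nlinarith
    calc (K * -(1 - r) + 1) * r ^ m * m ≤ (13 * Real.exp 12) * Real.exp 12 * K := by gcongr
      _ = C2 * K := by rw [C2, h12]; ring

/-- for `m ≤ K` powers of `|d 0|` are bounded -/
lemma pow_le_C2 (h : SE K d) (_ : IsRealF d) {m : ℕ} (hmK : m ≤ K) : ‖d 0‖ ^ m ≤ C2 := by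
  have hC := C2_ge
  rcases Nat.eq_zero_or_pos m with h0 | h0
  · rw [h0, pow_zero]; linarith
  · have hK : (1 : ℝ) ≤ K := by exact_mod_cast h0.trans_le hmK
    have hm1 : (1 : ℝ) ≤ m := by exact_mod_cast h0
    rcases le_total ‖d 0‖ 1 with h1 | h1
    · exact (pow_le_one₀ (norm_nonneg _) h1).trans (by linarith)
    · have h2 := h.norm_sq_le 0
      rw [ofReal_zero, th_zero, norm_zero, sub_zero, mul_one] at h2
      have h3 : (24 : ℝ) / (1 + K) ≤ 24 / K := div_le_div_of_nonneg_left (by norm_num) (by linarith) (by linarith)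
      have h4 : ‖d 0‖ ≤ Real.exp (12 / K) := by
        apply le_of_sq_le_sq _ (Real.exp_pos _).le
        refine h2.trans ?_
        rw [← Real.exp_nat_mul]
        apply Real.exp_le_exp.2
        refine h3.trans (le_of_eq ?_)
        push_cast; ring
      calc ‖d 0‖ ^ m ≤ Real.exp (12 / K) ^ m := by gcongr
        _ = Real.exp (m * (12 / K)) := by rw [← Real.exp_nat_mul]
        _ ≤ Real.exp 24 := by
          apply Real.exp_le_exp.2
          rw [← mul_div_assoc, div_le_iff₀ (by linarith)]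
          have : (m : ℝ) ≤ K := by exact_mod_cast hmK
          linarith
        _ ≤ C2 := by
          rw [C2]
          have := Real.exp_pos 24
          linarith

/-- the low states: controlled up to `|Re s| ≤ X`, `|Im s| ≤ π/4` -/
def Low (K : ℕ) (X : ℝ) (d : ℂ → ℂ) : Prop := 6 * CE (En K d) * W X ≤ K

lemma high_pow (h : SE K d) (hr : IsRealF d) {m : ℕ} (hm : 1 ≤ m) (hmK : m ≤ K) {X : ℝ}
    (hX : ¬ Low K X d) : ‖d 0‖ ^ m * m ≤ 24000000 * C2 * W X := by
  unfold Low CE at hX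
  push Not at hX
  have h1 := smooth h hr hm hmK
  have hE := En_nonneg K d
  have hW := W_pos X
  have hC := C2_ge
  have h2 : (En K d + 1) * (‖d 0‖ ^ m * m) ≤ (En K d + 1) * (24000000 * C2 * W X) := by
    calc (En K d + 1) * (‖d 0‖ ^ m * m) = (En K d + 1) * ‖d 0‖ ^ m * m := by ring
      _ ≤ C2 * K := h1
      _ ≤ C2 * (6 * (4000000 * (En K d + 1)) * W X) := by gcongr
      _ = _ := by ring
  exact le_of_mul_le_mul_left h2 (by linarith)

lemma W_mono_abs {x X : ℝ} (h : |x| ≤ X) : W x ≤ W X := by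
  unfold W
  have : Real.cosh (3 * x) ≤ Real.cosh (3 * X) := by
    rw [Real.cosh_le_cosh, abs_mul, abs_mul, abs_of_nonneg ((abs_nonneg x).trans h)]
    gcongr
  linarith

/-- the bound for the low states -/
lemma Low.near (h : SE K d) (hr : IsRealF d) {X : ℝ} (hX : Low K X d) {s : ℂ} (hs : |s.im| ≤ Real.pi / 4)
    (hs2 : |s.re| ≤ X) : K * ‖(sg d : ℂ) - d s‖ ≤ 12000000 * (En K d + 1) * W s.re := by
  have hC := CE_ge (En_nonneg K d)
  have h1 := W_mono_abs hs2
  have hW := W_pos s.re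
  have h2 : CE (En K d) * W s.re < K := by
    unfold Low at hX
    have h3 : CE (En K d) * W s.re ≤ CE (En K d) * W X := by gcongr
    have h4 : 0 < CE (En K d) * W X := by have := W_pos X; positivity
    linarith
  have h3 := (toLS h hr).near hs h2
  refine h3.trans (le_of_eq ?_)
  unfold CE; ring

lemma Low.half (h : SE K d) (hr : IsRealF d) {X : ℝ} (hX : Low K X d) (hK : 1 ≤ K) {s : ℂ} (hs : |s.im| ≤ Real.pi / 4)
    (hs2 : |s.re| ≤ X) : ‖(sg d : ℂ) - d s‖ ≤ 1 / 2 := by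
  have h1 := hX.near h hr hs hs2
  have h2 := W_mono_abs hs2
  have hE := En_nonneg K d
  have hK' : (0 : ℝ) < K := by exact_mod_cast hK
  have h3 : 12000000 * (En K d + 1) * W s.re ≤ K * (1 / 2) := by
    unfold Low CE at hX
    calc 12000000 * (En K d + 1) * W s.re ≤ 12000000 * (En K d + 1) * W X := by gcongr
      _ = (6 * (4000000 * (En K d + 1)) * W X) * (1 / 2) := by ring
      _ ≤ K * (1 / 2) := by gcongr
  exact le_of_mul_le_mul_left (h1.trans h3) hK'

lemma norm_sg (d : ℂ → ℂ) : ‖(sg d : ℂ)‖ = 1 := by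
  rw [Complex.norm_real]
  rcases sg_cases d with h | h <;> rw [h] <;> norm_num

lemma Low.norm_ge (h : SE K d) (hr : IsRealF d) {X : ℝ} (hX : Low K X d) (hK : 1 ≤ K) {s : ℂ}
    (hs : |s.im| ≤ Real.pi / 4) (hs2 : |s.re| ≤ X) : 1 / 2 ≤ ‖d s‖ := by
  have h1 := hX.half h hr hK hs hs2
  have h2 := norm_sg d
  have h3 : ‖(sg d : ℂ)‖ ≤ ‖(sg d : ℂ) - d s‖ + ‖d s‖ := by
    have e : (sg d : ℂ) = (sg d - d s) + d s := by ring
    conv_lhs => rw [e]
    exact norm_add_le _ _
  linarith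

lemma Low.norm_le (h : SE K d) (hr : IsRealF d) {X : ℝ} (hX : Low K X d) (hK : 1 ≤ K) {s : ℂ}
    (hs : |s.im| ≤ Real.pi / 4) (hs2 : |s.re| ≤ X) : ‖d s‖ ≤ 3 / 2 := by
  have h1 := hX.half h hr hK hs hs2
  have h2 := norm_sg d
  have h3 : ‖d s‖ ≤ ‖(sg d : ℂ)‖ + ‖(sg d : ℂ) - d s‖ := by
    have e : d s = sg d - (sg d - d s) := by ring
    conv_lhs => rw [e]
    exact norm_sub_le _ _
  linarith

/-- smoothed distance to the sign -/
lemma Low.smooth_near (h : SE K d) (hr : IsRealF d) {X : ℝ} (hX : Low K X d) {m : ℕ} (hm : 1 ≤ m) (hmK : m ≤ K)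
    {s : ℂ} (hs : |s.im| ≤ Real.pi / 4) (hs2 : |s.re| ≤ X) :
    ‖(sg d : ℂ) - d s‖ * ‖d 0‖ ^ m * m ≤ 12000000 * C2 * W s.re := by
  have hK' : (0 : ℝ) < K := by exact_mod_cast hm.trans hmK
  have h1 := hX.near h hr hs hs2
  have h2 := smooth h hr hm hmK
  have hW := W_pos s.re
  have h3 : K * (‖(sg d : ℂ) - d s‖ * ‖d 0‖ ^ m * m) ≤ K * (12000000 * C2 * W s.re) := by
    calc K * (‖(sg d : ℂ) - d s‖ * ‖d 0‖ ^ m * m) = (K * ‖(sg d : ℂ) - d s‖) * (‖d 0‖ ^ m * m) := by ring
      _ ≤ (12000000 * (En K d + 1) * W s.re) * (‖d 0‖ ^ m * m) := by gcongr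
      _ = 12000000 * W s.re * ((En K d + 1) * ‖d 0‖ ^ m * m) := by ring
      _ ≤ 12000000 * W s.re * (C2 * K) := by gcongr
      _ = _ := by ring
  exact le_of_mul_le_mul_left h3 hK'

/-- the deviation `y` is smaller than any power -/
lemma SE.y_pow (h : SE K d) (p : ℕ) {s : ℂ} (hs : |s.im| ≤ Real.pi / 12) :
    ‖yf d s‖ * (K : ℝ) ^ p ≤ 3 * p.factorial * (2 * W s.re) ^ p := by
  have hp := Real.pi_pos
  have hs6 : |s.im| ≤ Real.pi / 6 := by linarith
  have h1 := h.yle s hs6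
  have h2 := q_ge hs6
  have hW := W_pos s.re
  have hcos : (1 : ℝ) / 2 ≤ Real.cos (3 * s.im) := by
    apply half_le_cos
    rw [abs_mul]
    simp only [Nat.abs_ofNat]
    linarith
  set T := ‖th s‖ with hT
  have hT0 : 0 ≤ T := norm_nonneg _
  have hT1 : T ≤ 1 := norm_th_le hs6
  have h3 : 1 ≤ (1 - T) * (2 * W s.re) := by linarith
  -- `T^K (K (1-T))^p ≤ p!`
  have h4 : T ^ K * (K * (1 - T)) ^ p ≤ p.factorial := by
    have h5 : T ^ K ≤ Real.exp (-(K * (1 - T))) := by
      calc T ^ K ≤ Real.exp (-(1 - T)) ^ K := by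
            apply pow_le_pow_left₀ hT0
            have := Real.add_one_le_exp (-(1 - T))
            linarith
        _ = Real.exp (-(K * (1 - T))) := by rw [← Real.exp_nat_mul]; congr 1; ring
    have hx : 0 ≤ K * (1 - T) := mul_nonneg (Nat.cast_nonneg _) (by linarith)
    have h6 := Real.pow_div_factorial_le_exp (K * (1 - T)) hx p
    rw [div_le_iff₀ (by positivity)] at h6
    calc T ^ K * (K * (1 - T)) ^ p ≤ Real.exp (-(K * (1 - T))) * (Real.exp (K * (1 - T)) * p.factorial) := by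
          gcongr
      _ = p.factorial := by
          rw [← mul_assoc, ← Real.exp_add, neg_add_cancel, Real.exp_zero, one_mul]
  calc ‖yf d s‖ * (K : ℝ) ^ p ≤ (3 * T ^ K) * (K : ℝ) ^ p := by gcongr
    _ ≤ (3 * T ^ K) * ((K : ℝ) ^ p * ((1 - T) * (2 * W s.re)) ^ p) := by
        gcongr
        exact le_mul_of_one_le_right (by positivity) (one_le_pow₀ h3)
    _ = 3 * (T ^ K * (K * (1 - T)) ^ p) * (2 * W s.re) ^ p := by simp only [mul_pow]; ring
    _ ≤ 3 * p.factorial * (2 * W s.re) ^ p := by gcongr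

end Eng
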